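import Pool.Agent.BoltzD.Lin.YF
import Pool.Agent.BoltzD.Solver.Ops
import Pool.Agent.BoltzD.M7.SvLim
import Pool.Agent.BoltzD.Pos.Gr
import Pool.Agent.BoltzD.KK.Scale
import Pool.Agent.BoltzD.M7.Change

-- ======== part 0: formerly Pool.Agent.BoltzD.Lin.Form
section MrgPart0

/-! The energy form on compactly supported hydrodynamic functions of `y`. -/

set_option autoImplicit false

open Filter Topology MeasureTheory Set Pool.Agent.BoltzC

noncomputable section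

namespace Pool.Agent.BoltzD.Lin

variable [Dim]

variable {n : ℕ} {θ : ℝ} {σ : E3 → ℝ} {G G' H : E3 → SV}

theorem lev_add (n : ℕ) (θ σ : ℝ) (φ ψ : List Ix → ℕ → ℝ) :
    lev n θ σ (fun u m => φ u m + ψ u m) = lev n θ σ φ + lev n θ σ ψ := by
  simp only [lev, Finset.sum_add_distrib, mul_add]

theorem lev_mul (n : ℕ) (θ σ c : ℝ) (φ : List Ix → ℕ → ℝ) :
    lev n θ σ (fun u m => c * φ u m) = c * lev n θ σ φ := by
  simp only [lev, Finset.mul_sum]
  exact Finset.sum_congr rfl fun j _ => Finset.sum_congr rfl fun m _ =>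
    Finset.sum_congr rfl fun u _ => by ring

theorem lev_mono (hθ : 0 ≤ θ) (σ : ℝ) {φ ψ : List Ix → ℕ → ℝ} (h : ∀ u m, φ u m ≤ ψ u m) :
    lev n θ σ φ ≤ lev n θ σ ψ :=
  Finset.sum_le_sum fun j _ => Finset.sum_le_sum fun m _ =>
    mul_le_mul_of_nonneg_left (Finset.sum_le_sum fun u _ => h u m)
      (mul_nonneg (pow_nonneg hθ _) (by rw [pow_mul]; positivity))

theorem lev_zero (n : ℕ) (θ σ : ℝ) : lev n θ σ (fun _ _ => 0) = 0 := by simp [lev]

theorem bb_add_l (hG : Sm G) (hG' : Sm G') (x : E3) :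
    bb n θ σ (fun y => G y + G' y) H x = bb n θ σ G H x + bb n θ σ G' H x := by
  simp only [bb, dXw_add hG hG', map_add, LinearMap.add_apply, lev_add]

theorem bb_smul_l (hG : Sm G) (c : ℝ) (x : E3) :
    bb n θ σ (fun y => c • G y) H x = c * bb n θ σ G H x := by
  simp only [bb, dXw_const_smul hG, map_smul, LinearMap.smul_apply, smul_eq_mul, lev_mul]

theorem bb_symm (G H : E3 → SV) (x : E3) : bb n θ σ G H x = bb n θ σ H G x := by
  simp only [bb, ← nB_apply]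
  congr 1
  funext u m
  exact nB_comm _ _ _

theorem bb_nn (hθ : 0 ≤ θ) (G : E3 → SV) (x : E3) : 0 ≤ bb n θ σ G G x := by
  rw [← lev_zero n θ (σ x)]
  exact lev_mono hθ _ fun u m => by rw [← nA_eq_ip_RR]; exact nA_nonneg _ _

theorem two_bb_le (hθ : 0 ≤ θ) (G H : E3 → SV) {L : ℝ} (hL : 0 < L) (x : E3) :
    2 * bb n θ σ G H x ≤ L⁻¹ * bb n θ σ G G x + L * bb n θ σ H H x := by
  simp only [bb, ← lev_mul, ← lev_add, ← nB_apply]
  refine lev_mono hθ _ fun u m => ?_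
  have h := abs_two_bilin_le (nB m) (nB_comm m) (fun a => by rw [nB_self]; exact nA_nonneg _ _) hL
    (dXw u G x) (dXw u H x)
  rw [nB_comm m (dXw u H x) (dXw u G x), div_eq_inv_mul] at h
  linarith [le_abs_self (nB m (dXw u G x) (dXw u H x) + nB m (dXw u G x) (dXw u H x))]

theorem ip_le_bb (hθ : 0 ≤ θ) (G : E3 → SV) (x : E3) : ip (G x) (G x) ≤ bb n θ σ G G x := by
  have hn : ∀ j m, 0 ≤ θ ^ (j + m) * σ x ^ (2 * j) *
      ∑ u ∈ words j, ip (dXw u G x) (RR m (dXw u G x)) := fun j m =>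
    mul_nonneg (mul_nonneg (pow_nonneg hθ _) (by rw [pow_mul]; positivity))
      (Finset.sum_nonneg fun u _ => by rw [← nA_eq_ip_RR]; exact nA_nonneg _ _)
  refine le_trans ?_ (Finset.single_le_sum (fun j _ => Finset.sum_nonneg fun m _ => hn j m)
    (Finset.mem_range.mpr (Nat.succ_pos n)))
  refine le_trans ?_ (Finset.single_le_sum (fun m _ => hn 0 m)
    (Finset.mem_range.mpr (Nat.succ_pos n)))
  simp [words]

theorem dX_le_bb (hn1 : 1 ≤ n) (hθ : 0 ≤ θ) (G : E3 → SV) (x : E3) :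
    θ * σ x ^ 2 * ∑ i, ip (dX i G x) (dX i G x) ≤ bb n θ σ G G x := by
  have hn : ∀ j m, 0 ≤ θ ^ (j + m) * σ x ^ (2 * j) *
      ∑ u ∈ words j, ip (dXw u G x) (RR m (dXw u G x)) := fun j m =>
    mul_nonneg (mul_nonneg (pow_nonneg hθ _) (by rw [pow_mul]; positivity))
      (Finset.sum_nonneg fun u _ => by rw [← nA_eq_ip_RR]; exact nA_nonneg _ _)
  refine le_trans ?_ (Finset.single_le_sum (fun j _ => Finset.sum_nonneg fun m _ => hn j m)
    (Finset.mem_range.mpr (Nat.succ_lt_succ hn1)))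
  refine le_trans ?_ (Finset.single_le_sum (a := 0) (fun m _ => hn 1 m)
    (Finset.mem_range.mpr (by omega)))
  rw [sum_words_succ]
  simp [words]

theorem cont_bb (hσ : Continuous σ) (hG : Sm G) (hH : Sm H) : Continuous (bb n θ σ G H) := by
  unfold bb lev
  refine continuous_finsetSum _ fun j _ => continuous_finsetSum _ fun m _ =>
    (continuous_const.mul (hσ.pow _)).mul (continuous_finsetSum _ fun u _ => ?_)
  exact ((hG.dXw u).ip ((hH.dXw u).clm (RR m))).cont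

theorem supp_bb {ρ : ℝ} (h : Supp ρ G) (H : E3 → SV) : Supp ρ (bb n θ σ G H) := fun x hx => by
  simp only [bb, fun u => h.dXw u x hx, map_zero, LinearMap.zero_apply, lev_zero]

theorem bb_congr {σ' : E3 → ℝ} {H' : E3 → SV} {x x' : E3} (h0 : σ x = σ' x')
    (h1 : ∀ u, dXw u G x = dXw u G' x') (h2 : ∀ u, dXw u H x = dXw u H' x') :
    bb n θ σ G H x = bb n θ σ' G' H' x' := by
  simp only [bb, h0, h1, h2]

theorem bb_scale {σ' : E3 → ℝ} (hG : Sm G) (hH : Sm H) (lam : ℝ) {x : E3}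
    (h0 : σ x * lam = σ' (lam • x)) :
    bb n θ σ (fun y => G (lam • y)) (fun y => H (lam • y)) x = bb n θ σ' G H (lam • x) := by
  simp only [bb, lev, dXw_scale hG, dXw_scale hH, ← h0, Finset.mul_sum, map_smul,
    LinearMap.smul_apply, smul_eq_mul]
  refine Finset.sum_congr rfl fun j _ => Finset.sum_congr rfl fun m _ =>
    Finset.sum_congr rfl fun u hu => ?_
  rw [mem_words.mp hu]
  ring

/-- Compactly supported smooth hydrodynamic functions. -/
def DD : Submodule ℝ (E3 → SV) where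
  carrier := {φ | Sm φ ∧ (∃ R, 0 ≤ R ∧ Supp R φ) ∧ ∀ y, PP (φ y) = φ y}
  add_mem' := by
    rintro φ ψ ⟨h1, ⟨R, hR, h2⟩, h3⟩ ⟨k1, ⟨S, -, k2⟩, k3⟩
    refine ⟨h1.add k1, ⟨max R S, hR.trans (le_max_left _ _), fun x hx => ?_⟩, fun y => ?_⟩
    · rw [Pi.add_apply, h2 x ((le_max_left _ _).trans_lt hx), k2 x ((le_max_right _ _).trans_lt hx),
        add_zero]
    · rw [Pi.add_apply, map_add, h3, k3]
  zero_mem' := ⟨Sm.const 0, ⟨0, le_rfl, fun _ _ => rfl⟩, fun _ => map_zero _⟩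
  smul_mem' := by
    rintro c φ ⟨h1, ⟨R, hR, h2⟩, h3⟩
    refine ⟨h1.const_smul c, ⟨R, hR, fun x hx => ?_⟩, fun y => ?_⟩
    · rw [Pi.smul_apply, h2 x hx, smul_zero]
    · rw [Pi.smul_apply, map_smul, h3]

theorem inD_iff {φ : E3 → SV} : InD φ ↔ φ ∈ DD := by
  constructor
  · rintro ⟨h1, h2, h3⟩
    obtain ⟨R, hR, h⟩ := h2.exists_pos_le_norm
    exact ⟨h1, ⟨R, hR.le, fun x hx => h x hx.le⟩, h3⟩
  · rintro ⟨h1, ⟨R, -, h2⟩, h3⟩
    exact ⟨h1, h2.hasCompactSupport, h3⟩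

theorem exists_supp_family {ι : Type} [Fintype ι] {φ : ι → E3 → SV} (h : ∀ i, φ i ∈ DD) :
    ∃ R, 0 ≤ R ∧ ∀ i, Supp R (φ i) := by
  choose R h0 hR using fun i => (h i).2.1
  exact ⟨∑ i, R i, Finset.sum_nonneg fun i _ => h0 i, fun i =>
    (hR i).mono (Finset.single_le_sum (fun i _ => h0 i) (Finset.mem_univ i))⟩

/-- The energy in the variable `y`. -/
def BY (n : ℕ) (θ a ν : ℝ) (φ ψ : E3 → SV) : ℝ := ∫ y, wy a y * bb n θ (sy ν) φ ψ y

/-- Local `L^2` norm. -/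
def NY (ρ : ℝ) (φ : E3 → SV) : ℝ := ∫ y, expNegInvGlue (ρ ^ 2 - ‖y‖ ^ 2) * ip (φ y) (φ y)

theorem integrable_BY {a ν ρ : ℝ} (hG : Sm G) (h : Supp ρ G) (hH : Sm H) :
    Integrable fun y => wy a y * bb n θ (sy ν) G H y :=
  Supp.integrable (ρ := ρ) (fun x hx => by simp only [supp_bb h H x hx, mul_zero])
    ((continuous_wy a).mul (cont_bb (continuous_sy ν) hG hH))

theorem BY_symm (a ν : ℝ) (G H : E3 → SV) : BY n θ a ν G H = BY n θ a ν H G := by
  simp only [BY, bb_symm G H]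

theorem BY_nonneg (hθ : 0 ≤ θ) (a ν : ℝ) (G : E3 → SV) : 0 ≤ BY n θ a ν G G :=
  integral_nonneg fun y => mul_nonneg (wy_pos a y).le (bb_nn hθ G y)

theorem BY_add_l {a ν : ℝ} (hG : G ∈ DD) (hG' : G' ∈ DD) (hH : Sm H) :
    BY n θ a ν (G + G') H = BY n θ a ν G H + BY n θ a ν G' H := by
  obtain ⟨R, -, hR⟩ := hG.2.1
  obtain ⟨R', -, hR'⟩ := hG'.2.1
  simp only [BY]
  rw [← integral_add (integrable_BY hG.1 hR hH) (integrable_BY hG'.1 hR' hH)]
  congr 1
  funext y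
  rw [← mul_add, ← bb_add_l hG.1 hG'.1]
  rfl

theorem BY_smul_l {a ν : ℝ} (hG : Sm G) (c : ℝ) :
    BY n θ a ν (c • G) H = c * BY n θ a ν G H := by
  simp only [BY]
  rw [← integral_const_mul]
  congr 1
  funext y
  rw [mul_left_comm, ← bb_smul_l hG]
  rfl

/-- The energy as a bilinear form. -/
def BF (n : ℕ) (θ a ν : ℝ) : DD →ₗ[ℝ] DD →ₗ[ℝ] ℝ :=
  LinearMap.mk₂ ℝ (fun φ ψ => BY n θ a ν φ ψ) (fun φ φ' ψ => BY_add_l φ.2 φ'.2 ψ.2.1)
    (fun c φ _ => BY_smul_l φ.2.1 c)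
    (fun φ ψ ψ' => by
      rw [BY_symm, BY_symm a ν φ, BY_symm a ν φ]; exact BY_add_l ψ.2 ψ'.2 φ.2.1)
    (fun c φ ψ => by rw [BY_symm, BY_symm a ν φ]; exact BY_smul_l ψ.2.1 c)

theorem BF_apply (a ν : ℝ) (φ ψ : DD) : BF n θ a ν φ ψ = BY n θ a ν φ ψ := rfl

theorem BF_symm (a ν : ℝ) (φ ψ : DD) : BF n θ a ν φ ψ = BF n θ a ν ψ φ := BY_symm a ν _ _

theorem BF_nonneg (hθ : 0 ≤ θ) (a ν : ℝ) (φ : DD) : 0 ≤ BF n θ a ν φ φ := BY_nonneg hθ a ν _

/-- Change of variables from the torus to the whole space. -/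
theorem tint_eq_integral {Ψ ψ : E3 → ℝ} {s ρ : ℝ} (hp : Per Ψ) (hc : Continuous ψ) (hs : Supp ρ ψ)
    (hρ : Real.exp (-s) * ρ < 1 / 4)
    (h : ∀ x, ‖x‖ ≤ 1 / 4 → Ψ x = Real.exp s ^ dd * ψ (Real.exp s • x))
    (h0 : ∀ x, box (1 / 2) x → 1 / 4 < ‖x‖ → Ψ x = 0) : tint Ψ = ∫ y, ψ y := by
  have hs' : Supp (1 / 4) fun x => Real.exp s ^ dd * ψ (Real.exp s • x) := by
    intro x hx
    have h2 := mul_lt_mul_of_pos_left (hρ.trans hx) (Real.exp_pos s)
    rw [← mul_assoc, ← Real.exp_add] at h2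
    simp only [add_neg_cancel, Real.exp_zero, one_mul] at h2
    simp only [hs _ (by rw [norm_exp_smul]; exact h2), mul_zero]
  have e : Ψ = per fun x => Real.exp s ^ dd * ψ (Real.exp s • x) := by
    funext x
    rw [← hp.red x, per]
    by_cases hx : ‖red x‖ ≤ 1 / 4
    · exact h _ hx
    · rw [h0 _ (box_red x) (not_le.mp hx)]
      exact (hs' _ (not_le.mp hx)).symm
  rw [e, tint_per (by fun_prop) hs' (by norm_num), integral_const_mul,
    integral_scale _ (Real.exp_pos s), ← mul_assoc, mul_inv_cancel₀ (by positivity), one_mul]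

theorem supp_scale_exp {α : Type*} [Zero α] {φ : E3 → α} {R s ρ : ℝ} (hφ : Supp R φ)
    (hs : Real.exp (-s) * R ≤ ρ) : Supp ρ fun x => φ (Real.exp s • x) := by
  refine (hφ.scale (Real.exp_pos s)).mono ?_
  rwa [div_eq_inv_mul, ← Real.exp_neg]

/-- The torus energy paired with a rescaled compactly supported function. -/
theorem E_per' (B : BgD) (a : ℝ) {φ : E3 → SV} {R s : ℝ} (hφ : Sm φ) (hR : Supp R φ)
    (hs : Real.exp (-s) * R < 1 / 4) (hG : Sm G) (pG : Per G) :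
    B.E n θ a s (per fun x => φ (Real.exp s • x)) G =
      BY n θ a B.nu φ fun y => G (Real.exp (-s) • y) := by
  have hsφ : Supp (Real.exp (-s) * R) fun x => φ (Real.exp s • x) := supp_scale_exp hR le_rfl
  have hd := fun u => dXw_per (hφ.scale (Real.exp s)) hsφ (hs.trans (by norm_num)) u
  refine tint_eq_integral (s := s) (ρ := R) ?_
    ((continuous_wy a).mul (cont_bb (continuous_sy _) hφ (hG.scale _)))
    (fun x hx => by simp only [supp_bb hR _ x hx, mul_zero]) hs (fun x hx => ?_) fun x hx h4 => ?_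
  · intro i x
    simp only [per_om B a s i x]
    congr 1
    exact bb_congr (per_sig B s i x) (fun u => (per_per _).dXw u i x) fun u => pG.dXw u i x
  · rw [om_eq B a s hx, mul_assoc]
    congr 2
    rw [← bb_scale hφ (hG.scale _) (Real.exp s) (σ := B.sig s)
      (by rw [sig_eq B s hx, mul_right_comm, ← Real.exp_add]; simp)]
    refine bb_congr rfl (fun u => ?_) fun u => ?_
    · rw [hd u, per_eq _ (hx.trans_lt (by norm_num))]
    · simp only [exp_neg_smul_exp]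
  · have h1 : ∀ u, dXw u (per fun x => φ (Real.exp s • x)) x = 0 := fun u => by
      rw [hd u]
      by_cases h2 : ‖x‖ < 1 / 2
      · rw [per_eq _ h2]
        exact hsφ.dXw u x (hs.trans h4)
      · refine hsφ.dXw u _ (hs.trans ?_)
        by_contra h3
        have h5 : ‖red x‖ < 1 / 2 := (not_lt.mp h3).trans_lt (by norm_num)
        apply h2
        have : red x = x := by
          ext i
          have h6 : |red x i| ≤ 1 / 4 := box_of_norm_le (not_lt.mp h3) i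
          have h7 := hx i
          rw [red_apply] at h6 ⊢
          have h8 : |((round (x i) : ℤ) : ℝ)| < 1 := by
            have := abs_sub_abs_le_abs_sub ((round (x i) : ℤ) : ℝ) (x i)
            rw [abs_sub_comm] at this
            linarith
          have h9 : round (x i) = 0 := by
            have : |round (x i)| < 1 := by exact_mod_cast h8
            exact Int.abs_lt_one_iff.mp this
          simp [h9]
        rwa [this] at h5
    simp only [bb, h1, map_zero, LinearMap.zero_apply, lev_zero, mul_zero]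

theorem E_per (B : BgD) (a : ℝ) {φ : E3 → SV} {R s : ℝ} (hφ : Sm φ) (hR : Supp R φ)
    (hs : Real.exp (-s) * R < 1 / 8) (hG : Sm G) (pG : Per G) :
    B.E n θ a s (B.per φ s) G = BY n θ a B.nu φ fun y => G (Real.exp (-s) • y) := by
  rw [per_eq_per B hR hs, E_per' B a hφ hR (hs.trans (by norm_num)) hG pG]

theorem BY_congr {a ν R : ℝ} {φ H' : E3 → SV} (hR : Supp R φ)
    (h : ∀ y, ‖y‖ ≤ R → H =ᶠ[𝓝 y] H') : BY n θ a ν φ H = BY n θ a ν φ H' := by
  unfold BY
  congr 1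
  funext y
  by_cases hy : ‖y‖ ≤ R
  · rw [bb_congr rfl (fun _ => rfl) fun u => dXw_congr_ev (h y hy) u]
  · rw [supp_bb hR H y (not_le.mp hy), supp_bb hR H' y (not_le.mp hy)]

theorem E_per_per' (B : BgD) (a : ℝ) {φ ψ : E3 → SV} {R s : ℝ} (hφ : Sm φ) (hR : Supp R φ)
    (hψ : Sm ψ) (hR' : Supp R ψ) (hs : Real.exp (-s) * R < 1 / 4) :
    B.E n θ a s (per fun x => φ (Real.exp s • x)) (per fun x => ψ (Real.exp s • x)) =
      BY n θ a B.nu φ ψ := by
  rw [E_per' B a hφ hR hs ((hψ.scale _).per (supp_scale_exp hR' le_rfl) (hs.trans (by norm_num)))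
    (per_per _)]
  refine BY_congr hR fun y hy => ?_
  have h1 : ‖Real.exp (-s) • y‖ < 1 / 2 := by
    rw [norm_exp_smul]
    exact lt_of_le_of_lt (by gcongr) (hs.trans (by norm_num))
  have h2 : Continuous fun z : E3 => ‖Real.exp (-s) • z‖ := by fun_prop
  filter_upwards [h2.continuousAt.eventually (gt_mem_nhds h1)] with z hz
  rw [per_eq _ hz, exp_smul_exp_neg]

theorem E_per_per (B : BgD) (a : ℝ) {φ ψ : E3 → SV} {R s : ℝ} (hφ : Sm φ) (hR : Supp R φ)
    (hψ : Sm ψ) (hR' : Supp R ψ) (hs : Real.exp (-s) * R < 1 / 8) :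
    B.E n θ a s (B.per φ s) (B.per ψ s) = BY n θ a B.nu φ ψ := by
  rw [per_eq_per B hR hs, per_eq_per B hR' hs,
    E_per_per' B a hφ hR hψ hR' (hs.trans (by norm_num))]

end Pool.Agent.BoltzD.Lin

end
end MrgPart0

-- ======== part 1: formerly Pool.Agent.BoltzD.Lin.Flow
section MrgPart1

/-! The autonomous flow on compactly supported functions, built from the solver on the torus. -/

set_option autoImplicit false

open Filter Topology MeasureTheory Set Pool.Agent.BoltzC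

noncomputable section

namespace Pool.Agent.BoltzD.Lin

variable [Dim]

/-- The data extracted from the background. -/
structure Ctx (B : BgD) (F : Fld) (K s1 : ℝ) : Prop where
  ok : B.Ok
  K0 : 0 ≤ K
  s10 : 0 ≤ s1
  ag : ∀ s x, ‖x‖ < 1 / 8 → Agree (B.fld s) (sc F s) x x
  tame : Tame B.fld K s1
  tame0 : ∀ s, Tame (sc F) K s

theorem exists_ctx {B : BgD} (hB : B.Ok) : ∃ F K s1, Ctx B F K s1 := by
  obtain ⟨F, K, s1, h1, h2, h3, h4, h5⟩ := exists_yfld B hB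
  exact ⟨F, K, s1, hB, h1, h2, h3, h4, h5⟩

theorem Tame.mono {F : ℝ → Fld} {K s1 s2 : ℝ} (h : Tame F K s1) (h12 : s1 ≤ s2) : Tame F K s2 :=
  ⟨h.smu, h.smc, fun s hs => h.bu s (h12.trans hs), fun s hs => h.bc s (h12.trans hs),
    fun s hs => h.b0 s (h12.trans hs), fun s hs => h.b1 s (h12.trans hs),
    fun s hs => h.b2 s (h12.trans hs)⟩

variable {B : BgD} {F : Fld} {K s1 : ℝ}

theorem torus_supp (h : Ctx B F K s1) : ∃ Λ : ℝ, 0 ≤ Λ ∧ ∀ (s0 ρ : ℝ) (W W' G : ℝ → E3 → SV),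
    s1 ≤ s0 → Sol B.fld s0 W W' G → (∀ x, ρ < ‖red x‖ → W s0 x = 0) →
    (∀ s, s0 ≤ s → ∀ x, ρ < ‖red x‖ → G s x = 0) →
    ∀ s, s0 ≤ s → ∀ p, ρ + Λ * Real.exp (-s0) < ‖red p‖ → W s p = 0 := by
  obtain ⟨Λ, hΛ, hz⟩ := cone_zero K h.K0
  refine ⟨Λ, hΛ, fun s0 ρ W W' G hs0 hW h0 hG s hs p hp => ?_⟩
  have key : ∀ x, ‖x - p‖ ≤ (‖red p‖ - ρ - Λ * Real.exp (-s0)) / 2 + Λ * Real.exp (-s0) →
      ρ < ‖red x‖ := by
    intro x hx
    have := lipschitz_norm_red x p
    rw [norm_sub_rev] at this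
    linarith
  exact hz B.fld s0 p _ (h.tame.mono hs0) (by linarith) W W' G hW
    (fun t ht x hx => hG t ht x (key x hx)) (fun x hx => h0 x (key x hx)) s hs

theorem supp_cut {χ : E3 → ℝ} (hχ : Supp (1 / 4) χ) {W : E3 → SV} {ρ : ℝ}
    (hW : ∀ p, ρ < ‖red p‖ → W p = 0) : Supp ρ fun x => χ x • W x := by
  intro x hx
  by_cases h2 : ‖x‖ < 1 / 2
  · simp only [hW x (by rwa [red_eq_self h2]), smul_zero]
  · simp only [hχ x (lt_of_lt_of_le (by norm_num) (not_lt.mp h2)), zero_smul]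

theorem per_cut {χ : E3 → ℝ} (h1 : ∀ x, ‖x‖ ≤ 1 / 8 → χ x = 1) {W : E3 → SV} (pW : Per W) {ρ : ℝ}
    (hρ : ρ < 1 / 8) (hW : ∀ p, ρ < ‖red p‖ → W p = 0) : (per fun x => χ x • W x) = W := by
  funext x
  rw [per, pW.red]
  by_cases h2 : ‖red x‖ ≤ 1 / 8
  · rw [h1 _ h2, one_smul]
  · rw [hW x (hρ.trans (not_le.mp h2)), smul_zero]

theorem cut_per {χ : E3 → ℝ} (h1 : ∀ x, ‖x‖ ≤ 1 / 8 → χ x = 1) (hχ : Supp (1 / 4) χ)
    {φ : E3 → SV} {ρ : ℝ} (hρ : ρ < 1 / 8) (hφ : Supp ρ φ) (x : E3) : χ x • per φ x = φ x := by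
  by_cases h2 : ‖x‖ ≤ 1 / 8
  · rw [h1 x h2, one_smul, per_eq _ (h2.trans_lt (by norm_num))]
  · rw [hφ x (hρ.trans (not_le.mp h2))]
    exact supp_cut hχ (W := per φ) (fun p hp => hφ _ hp) x (hρ.trans (not_le.mp h2))

theorem Sol.unper (h : Ctx B F K s1) {χ : E3 → ℝ} (hs : Sm χ) (h1 : ∀ x, ‖x‖ ≤ 1 / 8 → χ x = 1)
    (hχ : Supp (1 / 4) χ) {s0 ρ : ℝ} {W W' G : ℝ → E3 → SV} (hρ : ρ < 1 / 8)
    (hW : Sol B.fld s0 W W' fun s => per (G s)) (hG : ∀ s, s0 ≤ s → Supp ρ (G s))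
    (hz : ∀ s, s0 ≤ s → ∀ p, ρ < ‖red p‖ → W s p = 0) :
    Sol (sc F) s0 (fun s x => χ x • W s x) (fun s x => χ x • W' s x) G := by
  refine ⟨(hs.smD.smul hW.sm).congr_deriv fun s x => by simp,
    fun s x => by rw [map_smul, hW.hyd], fun s hs0 x => ?_⟩
  have he := hW.eqn s hs0 x
  by_cases h8 : ‖x‖ < 1 / 8
  · have e : (fun y => χ y • W s y) =ᶠ[𝓝 x] W s :=
      ((isOpen_lt continuous_norm continuous_const).eventually_mem h8).mono fun y hy => by
        simp only [h1 y (le_of_lt hy), one_smul]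
    rw [tr_congr_ev _ e, h1 x h8.le, one_smul, ← (h.ag s x h8).tr rfl fun _ => rfl, he,
      per_eq _ (h8.trans (by norm_num))]
  · have hx : ρ < ‖x‖ := hρ.trans_le (not_lt.mp h8)
    rw [tr_zero_ev _ ((supp_cut hχ (hz s hs0)).ev hx), map_zero, add_zero, hG s hs0 x hx]
    by_cases h2 : ‖x‖ < 1 / 2
    · have e : W s =ᶠ[𝓝 x] fun _ => 0 :=
        (red_far (x := x) (ρ := ρ) (by rwa [red_eq_self h2])).mono fun y hy => hz s hs0 y hy
      rw [tr_zero_ev _ e, map_zero, add_zero, per_eq _ h2, hG s hs0 x hx] at he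
      rw [he, smul_zero]
    · rw [hχ x (lt_of_lt_of_le (by norm_num) (not_lt.mp h2)), zero_smul]

theorem Sol.per (h : Ctx B F K s1) {s0 ρ : ℝ} {V V' G : ℝ → E3 → SV} (hρ : ρ < 1 / 8)
    (hV : Sol (sc F) s0 V V' G) (hs : ∀ s, Supp ρ (V s)) :
    Sol B.fld s0 (fun s => per (V s)) (fun s => per (V' s)) fun s => per (G s) := by
  have hρ2 : ρ < 1 / 2 := hρ.trans (by norm_num)
  refine ⟨hV.sm.per hs hρ2, fun s x => hV.hyd s _, fun s hs0 x => ?_⟩
  have e : (B.fld s).tr (BoltzC.per (V s)) x = (B.fld s).tr (V s) (red x) :=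
    (agree_red (h.ok.fldC.reg s) x).tr rfl fun i => by
      rw [dX_per (hV.sm.sm.dif s) (hs s) hρ2]; rfl
  rw [e]
  refine Eq.trans ?_ (hV.eqn s hs0 (red x))
  congr 2
  by_cases h8 : ‖red x‖ < 1 / 8
  · exact (h.ag s _ h8).tr rfl fun _ => rfl
  · have := (hs s).ev (hρ.trans_le (not_lt.mp h8))
    rw [tr_zero_ev _ this, tr_zero_ev _ this]

/-- The forcing in the variables `(s, x)`. -/
def frc {m : ℕ} (φ : Fin m → E3 → SV) (c : ℝ → Fin m → ℝ) (s : ℝ) (x : E3) : SV :=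
  ∑ i, c s i • φ i (Real.exp s • x)

/-- Compactly supported solutions on the whole space, for `s ≥ 0`. -/
structure WS (F : Fld) (W W' G : ℝ → E3 → SV) : Prop where
  sol : Sol (sc F) 0 W W' G
  supp : ∃ ρ, 0 ≤ ρ ∧ ∀ s, Supp ρ (W s)

/-- The solution at time `t` as a function of `y`. -/
def out (W : ℝ → E3 → SV) (t : ℝ) (y : E3) : SV := W t (Real.exp (-t) • y)

theorem out_zero (W : ℝ → E3 → SV) : out W 0 = W 0 := by
  funext y; simp [out]

theorem supp_scale_neg {α : Type*} [Zero α] {φ : E3 → α} {R : ℝ} (hφ : Supp R φ) (t : ℝ) :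
    Supp (Real.exp t * R) fun x => φ (Real.exp (-t) • x) :=
  supp_scale_exp hφ (by rw [neg_neg])

theorem WS.out_mem {W W' G : ℝ → E3 → SV} (h : WS F W W' G) (t : ℝ) : out W t ∈ DD := by
  obtain ⟨ρ, h0, hρ⟩ := h.supp
  exact ⟨(h.sol.sm.sm.slice t).scale _, ⟨_, by positivity, supp_scale_neg (hρ t) t⟩,
    fun y => h.sol.hyd _ _⟩

theorem WS.add {W W' G V V' H : ℝ → E3 → SV} (h : WS F W W' G) (k : WS F V V' H) :
    WS F (fun s x => W s x + V s x) (fun s x => W' s x + V' s x) fun s x => G s x + H s x := by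
  obtain ⟨ρ, h0, hρ⟩ := h.supp
  obtain ⟨ρ', -, hρ'⟩ := k.supp
  refine ⟨h.sol.add k.sol, max ρ ρ', h0.trans (le_max_left _ _), fun s x hx => ?_⟩
  simp only [hρ s x ((le_max_left _ _).trans_lt hx), hρ' s x ((le_max_right _ _).trans_lt hx),
    add_zero]

theorem WS.smul {W W' G : ℝ → E3 → SV} (h : WS F W W' G) (a : ℝ) :
    WS F (fun s x => a • W s x) (fun s x => a • W' s x) fun s x => a • G s x := by
  obtain ⟨ρ, h0, hρ⟩ := h.supp
  exact ⟨h.sol.smul a, ρ, h0, fun s x hx => by simp only [hρ s x hx, smul_zero]⟩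

theorem frc_shift {m : ℕ} (φ : Fin m → E3 → SV) (c : ℝ → Fin m → ℝ) (θ s : ℝ) (x : E3) :
    frc φ c (s + θ) (Real.exp (-θ) • x) = frc φ (fun t => c (t + θ)) s x := by
  simp only [frc, smul_smul, ← Real.exp_add, add_neg_cancel_right]

theorem out_shift (W : ℝ → E3 → SV) (θ t : ℝ) :
    out (fun s x => W (s + θ) (Real.exp (-θ) • x)) t = out W (t + θ) := by
  funext y
  simp only [out, smul_smul, ← Real.exp_add]
  congr 3; ring

theorem WS.shift {m : ℕ} {φ : Fin m → E3 → SV} {c : ℝ → Fin m → ℝ} {W W' : ℝ → E3 → SV}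
    (h : WS F W W' (frc φ c)) {θ : ℝ} (hθ : 0 ≤ θ) :
    WS F (fun s x => W (s + θ) (Real.exp (-θ) • x)) (fun s x => W' (s + θ) (Real.exp (-θ) • x))
      (frc φ fun t => c (t + θ)) := by
  obtain ⟨ρ, h0, hρ⟩ := h.supp
  exact ⟨(h.sol.scale θ).congr (by linarith) fun s _ x => frc_shift φ c θ s x,
    Real.exp θ * ρ, by positivity, fun s => supp_scale_neg (hρ _) θ⟩

theorem WS.unique (h : Ctx B F K s1) {W W' V V' G : ℝ → E3 → SV} (hW : WS F W W' G)
    (hV : WS F V V' G) (h0 : W 0 = V 0) (s : ℝ) (hs : 0 ≤ s) : W s = V s := by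
  obtain ⟨Λ, -, hz⟩ := cone_zero K h.K0
  funext p
  have := hz (sc F) 0 p 1 (h.tame0 0) one_pos _ _ _ (hW.sol.add (hV.sol.smul (-1)))
    (fun s _ x _ => by simp) (fun x _ => by simp [h0]) s hs
  simpa [add_neg_eq_zero] using this

/-- A torus solution with small support comes from a solution on the whole space. -/
theorem exists_WS_of_torus (h : Ctx B F K s1) {m : ℕ} {φ : Fin m → E3 → SV} {R : ℝ}
    (hφ : ∀ i, Supp R (φ i)) (hR : 0 ≤ R) : ∃ s2, s1 ≤ s2 ∧ ∀ s0, s2 ≤ s0 →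
      Real.exp (-s0) * R < 1 / 8 ∧
      ∀ (c : ℝ → Fin m → ℝ) (W0 : E3 → SV) (W W' G : ℝ → E3 → SV), Supp R W0 →
        Sol B.fld s0 W W' G → (∀ s, Per (W s)) → W s0 = (per fun x => W0 (Real.exp s0 • x)) →
        (∀ s, s0 ≤ s → G s = per (frc φ c s)) →
        ∃ V V', WS F V V' (frc φ fun t => c (t + s0)) ∧ V 0 = W0 ∧ ∀ s, s0 ≤ s →
          Supp (Real.exp s / 8) (out V (s - s0)) ∧
          W s = per fun x => out V (s - s0) (Real.exp s • x) := by
  obtain ⟨Λ, hΛ, hT⟩ := torus_supp h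
  obtain ⟨χ, hχs, hχ1, hχ, -⟩ := exists_cut (a := 1 / 8) (b := 1 / 4) (by norm_num) (by norm_num)
  obtain ⟨s2, hs2, hsm⟩ := exists_time (R + Λ) (1 / 8) s1 (by norm_num)
  refine ⟨s2, hs2, fun s0 hs0 => ?_⟩
  have h1 := hsm s0 hs0
  have h2 : Real.exp (-s0) * R ≤ Real.exp (-s0) * R + Λ * Real.exp (-s0) :=
    le_add_of_nonneg_right (by positivity)
  have hρ : Real.exp (-s0) * R + Λ * Real.exp (-s0) < 1 / 8 := by linarith
  refine ⟨h2.trans_lt hρ, fun c W0 W W' G hW0 hW pW h0 hG => ?_⟩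
  have hf : ∀ s, s0 ≤ s → Supp (Real.exp (-s0) * R) (frc φ c s) := fun s hs x hx =>
    Finset.sum_eq_zero fun i _ => by
      rw [show φ i (Real.exp s • x) = 0 from supp_scale_exp (s := s) (hφ i) (by gcongr) x hx,
        smul_zero]
  have hd : Supp (Real.exp (-s0) * R) fun x => W0 (Real.exp s0 • x) := supp_scale_exp hW0 le_rfl
  have hz := hT s0 _ W W' G (hs2.trans hs0) hW (fun x hx => by rw [h0]; exact hd _ hx)
    fun s hs x hx => by rw [hG s hs]; exact hf s hs _ hx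
  have hS := (Sol.unper h hχs hχ1 hχ hρ (hW.congr le_rfl fun s hs x => congrFun (hG s hs) x)
    (fun s hs => (hf s hs).mono h2) hz).scale s0
  refine ⟨_, _, ⟨hS.congr (by linarith) fun s _ x => frc_shift φ c s0 s x,
    Real.exp s0 * (1 / 4), by positivity, fun s => supp_scale_neg
      (φ := fun x => χ x • W (s + s0) x) (fun x hx => by simp only [hχ x hx, zero_smul]) s0⟩,
    ?_, fun s hs => ?_⟩
  · funext x
    simp only [zero_add, h0]
    rw [cut_per hχ1 hχ (h2.trans_lt hρ) hd, exp_smul_exp_neg]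
  · rw [out_shift (fun s x => χ x • W s x), sub_add_cancel]
    constructor
    · refine (supp_scale_neg (supp_cut hχ (hz s hs)) s).mono ?_
      rw [div_eq_mul_one_div]
      exact mul_le_mul_of_nonneg_left hρ.le (Real.exp_pos s).le
    · simp only [out, exp_neg_smul_exp]
      exact (per_cut hχ1 (pW s) hρ (hz s hs)).symm

theorem exists_WS (h3 : M3hStmt) (h : Ctx B F K s1) {m : ℕ} {φ : Fin m → E3 → SV}
    (hφ : ∀ i, φ i ∈ DD) {c : ℝ → Fin m → ℝ} (hc : Continuous c) {W0 : E3 → SV} (hW0 : W0 ∈ DD) :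
    ∃ V V', WS F V V' (frc φ c) ∧ V 0 = W0 := by
  obtain ⟨R1, hR1, h1⟩ := exists_supp_family hφ
  obtain ⟨R2, -, h2⟩ := hW0.2.1
  obtain ⟨θ, -, hθ⟩ := exists_WS_of_torus h (R := max R1 R2)
    (fun i => (h1 i).mono (le_max_left _ _)) (hR1.trans (le_max_left _ _))
  obtain ⟨hsm, hex⟩ := hθ θ le_rfl
  have hR : 0 ≤ max R1 R2 := hR1.trans (le_max_left _ _)
  have h12 : Real.exp (-θ) * max R1 R2 < 1 / 2 := hsm.trans (by norm_num)
  let S : ℝ → E3 → SV := fun s x => ∑ i, c (s - θ) i • φ i (Real.exp (max s θ) • x)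
  have hS : SmC S := SmC.sum _ fun i _ => (SmC.of_time (by fun_prop)).smul
    ((hφ i).1.smC.scale (lam := fun s => Real.exp (max s θ)) (by fun_prop))
  have hSs : ∀ s, Supp (Real.exp (-θ) * max R1 R2) (S s) := fun s x hx =>
    Finset.sum_eq_zero fun i _ => by
      rw [show φ i (Real.exp (max s θ) • x) = 0 from supp_scale_exp (s := max s θ)
        ((h1 i).mono (le_max_left _ _)) (by gcongr; exact le_max_right _ _) x hx, smul_zero]
  obtain ⟨W, W', hW, pW, -, hh, h0, he⟩ := h3 B.fld θ (fun s => per (S s))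
    (per fun x => W0 (Real.exp θ • x)) h.ok.fldC (hS.per hSs h12) (fun s => per_per _)
    (fun s x => by simp only [per, S, map_sum, map_smul, (hφ _).2.2])
    ((hW0.1.scale _).per (supp_scale_exp (h2.mono (le_max_right _ _)) le_rfl) h12) (per_per _)
    (fun x => hW0.2.2 _)
  obtain ⟨V, V', hV, hV0, -⟩ := hex (fun s => c (s - θ)) W0 W W' _ (h2.mono (le_max_right _ _))
    ⟨hW, hh, he⟩ pW h0 fun s hs => by
      simp only [S, max_eq_left hs]; rfl
  simp only [add_sub_cancel_right] at hV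
  exact ⟨V, V', hV, hV0⟩

/-- The time one map. -/
theorem exists_flow (h3 : M3hStmt) (h : Ctx B F K s1) {m : ℕ} {φ : Fin m → E3 → SV}
    (hφ : ∀ i, φ i ∈ DD) : ∃ Φ : DD × C(ℝ, Fin m → ℝ) →ₗ[ℝ] DD,
      ∀ (W W' : ℝ → E3 → SV) (p : DD × C(ℝ, Fin m → ℝ)), WS F W W' (frc φ p.2) → W 0 = p.1 →
        (Φ p : E3 → SV) = out W 1 := by
  choose V V' hV hV0 using fun p : DD × C(ℝ, Fin m → ℝ) =>
    exists_WS h3 h hφ p.2.continuous p.1.2
  have key : ∀ (W W' : ℝ → E3 → SV) (p : DD × C(ℝ, Fin m → ℝ)), WS F W W' (frc φ p.2) →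
      W 0 = p.1 → out (V p) 1 = out W 1 := fun W W' p hW h0 => by
    unfold out
    rw [(hV p).unique h hW ((hV0 p).trans h0.symm) 1 zero_le_one]
  refine ⟨{ toFun := fun p => ⟨out (V p) 1, (hV p).out_mem 1⟩
            map_add' := fun p q => Subtype.ext ?_
            map_smul' := fun a p => Subtype.ext ?_ }, key⟩
  · have h1 := (hV p).add (hV q)
    have e : (fun s x => frc φ p.2 s x + frc φ q.2 s x) = frc φ (p + q).2 := by
      funext s x
      simp [frc, add_smul, Finset.sum_add_distrib]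
    rw [e] at h1
    exact key _ _ (p + q) h1 (by funext x; simp [hV0])
  · have h1 := (hV p).smul a
    have e : (fun s x => a • frc φ p.2 s x) = frc φ (a • p).2 := by
      funext s x
      simp [frc, Finset.smul_sum, smul_smul]
    rw [e] at h1
    exact key _ _ (a • p) h1 (by funext x; simp [hV0])

end Pool.Agent.BoltzD.Lin

end
end MrgPart1

-- ======== part 2: formerly Pool.Agent.BoltzD.Pic.LimB
section MrgPart2

/-! Weighted uniform convergence on compact time intervals. -/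

set_option autoImplicit false

open Filter Topology Pool.Agent.BoltzC Set

noncomputable section

namespace Pool.Agent.BoltzD.PicLim

variable [Dim]

open Coll

/-- Scalar functions of `(s, x, V)`. -/
abbrev Fn := ℝ → E3 → E3 → ℝ

/-- Weighted uniform convergence on compact time intervals. -/
def Cv (s0 : ℝ) (p : ℕ) (φ : ℕ → Fn) (ψ : Fn) : Prop :=
  ∀ s1 δ : ℝ, 0 < δ → ∀ᶠ N in atTop, ∀ s ∈ Icc s0 s1, ∀ x V : E3,
    (1 + ‖V‖) ^ p * |φ N s x V - ψ s x V| ≤ δ

/-- Weighted bound on compact time intervals. -/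
def Bd (s0 : ℝ) (p : ℕ) (ψ : Fn) : Prop :=
  ∀ s1 : ℝ, ∃ K : ℝ, ∀ s ∈ Icc s0 s1, ∀ x V : E3, (1 + ‖V‖) ^ p * |ψ s x V| ≤ K

variable {s0 : ℝ} {p : ℕ} {φ φ' : ℕ → Fn} {ψ ψ' : Fn}

lemma Cv.const (ψ : Fn) : Cv s0 p (fun _ => ψ) ψ :=
  fun _ δ hδ => Eventually.of_forall fun _ _ _ _ _ => by simpa using hδ.le

lemma Cv.mono {p' : ℕ} (h : Cv s0 p φ ψ) (hp : p' ≤ p) : Cv s0 p' φ ψ := by
  intro s1 δ hδ
  filter_upwards [h s1 δ hδ] with N hN s hs x V
  refine le_trans ?_ (hN s hs x V)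
  gcongr
  linarith [norm_nonneg V]

lemma Cv.congr (h : Cv s0 p φ ψ) (e : ∀ N s, s0 ≤ s → ∀ x V, φ N s x V = φ' N s x V) :
    Cv s0 p φ' ψ := by
  intro s1 δ hδ
  filter_upwards [h s1 δ hδ] with N hN s hs x V
  rw [← e N s hs.1]
  exact hN s hs x V

lemma Cv.shift (h : Cv s0 p φ ψ) : Cv s0 p (fun N => φ (N + 1)) ψ :=
  fun s1 δ hδ => (tendsto_add_atTop_nat 1).eventually (h s1 δ hδ)

lemma Cv.add (h : Cv s0 p φ ψ) (h' : Cv s0 p φ' ψ') :
    Cv s0 p (fun N s x V => φ N s x V + φ' N s x V) fun s x V => ψ s x V + ψ' s x V := by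
  intro s1 δ hδ
  filter_upwards [h s1 (δ / 2) (by positivity), h' s1 (δ / 2) (by positivity)]
    with N h1 h2 s hs x V
  have a := abs_add_le (φ N s x V - ψ s x V) (φ' N s x V - ψ' s x V)
  have b := mul_le_mul_of_nonneg_left a (wt_pos V p).le
  rw [show φ N s x V + φ' N s x V - (ψ s x V + ψ' s x V) =
    φ N s x V - ψ s x V + (φ' N s x V - ψ' s x V) by ring]
  linarith [h1 s hs x V, h2 s hs x V]

lemma Cv.coef (h : Cv s0 p φ ψ) {a : ℝ → E3 → ℝ} (ha : SmC a) (pa : ∀ s, Per (a s)) :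
    Cv s0 p (fun N s x V => a s x * φ N s x V) fun s x V => a s x * ψ s x V := by
  intro s1 δ hδ
  obtain ⟨C, hC, hb⟩ := exists_bound_of_per ha.cont pa (isCompact_Icc (a := s0) (b := s1))
  filter_upwards [h s1 (δ / C) (by positivity)] with N h1 s hs x V
  rw [← mul_sub, abs_mul, mul_left_comm]
  refine (mul_le_mul (hb s hs x) (h1 s hs x V) (by positivity) hC.le).trans (le_of_eq ?_)
  field_simp

lemma Cv.const_mul (h : Cv s0 p φ ψ) (c : ℝ) :
    Cv s0 p (fun N s x V => c * φ N s x V) fun s x V => c * ψ s x V :=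
  h.coef (SmC.const c) fun _ => Per.const c

lemma Cv.neg (h : Cv s0 p φ ψ) :
    Cv s0 p (fun N s x V => -φ N s x V) fun s x V => -ψ s x V := by
  simpa using h.const_mul (-1)

lemma Cv.sub (h : Cv s0 p φ ψ) (h' : Cv s0 p φ' ψ') :
    Cv s0 p (fun N s x V => φ N s x V - φ' N s x V) fun s x V => ψ s x V - ψ' s x V := by
  simpa [sub_eq_add_neg] using h.add h'.neg

lemma Cv.sum {ι : Type*} (S : Finset ι) {φ : ι → ℕ → Fn} {ψ : ι → Fn}
    (h : ∀ i, Cv s0 p (φ i) (ψ i)) :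
    Cv s0 p (fun N s x V => ∑ i ∈ S, φ i N s x V) fun s x V => ∑ i ∈ S, ψ i s x V := by
  classical
  induction S using Finset.induction_on with
  | empty => simpa using Cv.const fun _ _ _ => 0
  | insert j S hj ih => simpa [Finset.sum_insert hj] using (h j).add ih

lemma Cv.coord (h : Cv s0 (p + 1) φ ψ) (i : Ix) :
    Cv s0 p (fun N s x V => V i * φ N s x V) fun s x V => V i * ψ s x V := by
  intro s1 δ hδ
  filter_upwards [h s1 δ hδ] with N h1 s hs x V
  refine le_trans ?_ (h1 s hs x V)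
  rw [← mul_sub, abs_mul, pow_succ, mul_assoc]
  have : |V i| ≤ 1 + ‖V‖ := by
    have := PiLp.norm_apply_le V i
    rw [Real.norm_eq_abs] at this
    linarith
  gcongr

lemma Cv.tendsto (h : Cv s0 p φ ψ) {s : ℝ} (hs : s0 ≤ s) (x V : E3) :
    Tendsto (fun N => φ N s x V) atTop (𝓝 (ψ s x V)) := by
  refine Metric.tendsto_nhds.2 fun ε hε => ?_
  filter_upwards [h.mono (Nat.zero_le _) s (ε / 2) (by positivity)] with N hN
  have := hN s ⟨hs, le_rfl⟩ x V
  rw [pow_zero, one_mul] at this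
  rw [Real.dist_eq]
  linarith

lemma Cv.bd (h : Cv s0 p φ ψ) (hb : ∀ N, Bd s0 p (φ N)) : Bd s0 p ψ := by
  intro s1
  obtain ⟨N, hN⟩ := (h s1 1 one_pos).exists
  obtain ⟨K, hK⟩ := hb N s1
  refine ⟨K + 1, fun s hs x V => ?_⟩
  have a := abs_sub (φ N s x V) (φ N s x V - ψ s x V)
  have b := mul_le_mul_of_nonneg_left a (wt_pos V p).le
  rw [sub_sub_cancel] at b
  linarith [hN s hs x V, hK s hs x V]

lemma bd_of_smC {Φ : ℝ → E3 → SV} (h : SmC Φ) (hp : ∀ s, Per (Φ s)) (s0 : ℝ) (p : ℕ) :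
    Bd s0 p fun s x V => Φ s x V := by
  intro s1
  obtain ⟨C, hC, h1⟩ := weighted_le_nA p
  obtain ⟨D, -, h2⟩ := exists_bound_nA h.cont hp (p + dd) (isCompact_Icc (a := s0) (b := s1))
  refine ⟨C * √D, fun s hs x V => (h1 _ V).1.trans ?_⟩
  gcongr
  exact h2 s hs x

lemma exists_cv (h : ∀ s1 δ : ℝ, 0 < δ → ∃ J, ∀ j, J ≤ j → ∀ l, J ≤ l → ∀ s ∈ Icc s0 s1,
    ∀ x V : E3, (1 + ‖V‖) ^ p * |φ j s x V - φ l s x V| ≤ δ) : ∃ ψ, Cv s0 p φ ψ := by
  refine ⟨fun s x V => limUnder atTop fun N => φ N s x V, fun s1 δ hδ => ?_⟩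
  obtain ⟨J, hJ⟩ := h s1 δ hδ
  filter_upwards [eventually_ge_atTop J] with N hN s hs x V
  have c1 : CauchySeq fun N => φ N s x V := by
    refine Metric.cauchySeq_iff.2 fun ε hε => ?_
    obtain ⟨J', hJ'⟩ := h s1 (ε / 2) (by positivity)
    refine ⟨J', fun a ha b hb => ?_⟩
    have := (le_mul_of_one_le_left (abs_nonneg _) (one_le_wt V p)).trans (hJ' a ha b hb s hs x V)
    rw [Real.dist_eq]
    linarith
  refine le_of_tendsto ((tendsto_const_nhds.sub c1.tendsto_limUnder).abs.const_mul _) ?_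
  filter_upwards [eventually_ge_atTop J] with l hl using hJ N hN l hl s hs x V

/-! ### Convergence in the class `Nice` -/

lemma nice_of_tendsto {K : ℝ} {f : ℕ → E3 → ℝ} {h : E3 → ℝ}
    (ht : ∀ v, Tendsto (fun N => f N v) atTop (𝓝 (h v))) (hf : ∀ᶠ N in atTop, Nice p K (f N)) :
    Nice p K h :=
  ⟨fun v => le_of_tendsto ((ht v).abs.const_mul _) (hf.mono fun _ t => t.1 v),
    fun v z hz => le_of_tendsto (((ht (v + z)).sub (ht v)).abs.const_mul _)
      (hf.mono fun _ t => t.2 v z hz)⟩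

lemma norm_fderiv_le (f : SV) (V : E3) : ‖fderiv ℝ f V‖ ≤ ∑ j, |dV j f V| := by
  rw [fderiv_eq_sum]
  refine (norm_sum_le _ _).trans (Finset.sum_le_sum fun j _ => ?_)
  rw [norm_smul, Real.norm_eq_abs, dV_apply]
  refine mul_le_of_le_one_right (abs_nonneg _)
    (ContinuousLinearMap.opNorm_le_bound _ zero_le_one fun v => ?_)
  rw [one_mul]
  exact PiLp.norm_apply_le v j

/-- Convergence in the class `Nice`. -/
def NCv (s0 : ℝ) (p : ℕ) (φ : ℕ → Fn) (ψ : Fn) : Prop :=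
  ∀ s1 δ : ℝ, 0 < δ → ∀ᶠ N in atTop, ∀ s ∈ Icc s0 s1, ∀ x : E3,
    Nice p δ fun V => φ N s x V - ψ s x V

/-- Bound in the class `Nice`. -/
def NBd (s0 : ℝ) (p : ℕ) (ψ : Fn) : Prop :=
  ∀ s1 : ℝ, ∃ K : ℝ, ∀ s ∈ Icc s0 s1, ∀ x : E3, Nice p K (ψ s x)

lemma NCv.const (ψ : Fn) : NCv s0 p (fun _ => ψ) ψ :=
  fun _ δ hδ => Eventually.of_forall fun _ _ _ _ => by
    simpa using (nice_zero (p := p)).mono_const hδ.le

lemma NCv.shift (h : NCv s0 p φ ψ) : NCv s0 p (fun N => φ (N + 1)) ψ :=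
  fun s1 δ hδ => (tendsto_add_atTop_nat 1).eventually (h s1 δ hδ)

lemma ncv_of_cv {g : ℕ → ℝ → E3 → SV} {χ : Ix → Fn}
    (h : Cv s0 p (fun N s x V => g N s x V) ψ)
    (h' : ∀ j, Cv s0 p (fun N s x V => dV j (g N s x) V) (χ j)) :
    NCv s0 p (fun N s x V => g N s x V) ψ := by
  intro s1 δ hδ
  have hd := dr_pos
  have h1 := (h s1 (δ / (2 * dd * 2 ^ p)) (by positivity)).and
    (eventually_all.2 fun j => h' j s1 (δ / (2 * dd * 2 ^ p)) (by positivity))
  filter_upwards [h1] with a ha s hs x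
  refine nice_of_tendsto (f := fun b V => (g a s x - g b s x) V)
    (fun V => tendsto_const_nhds.sub (h.tendsto hs.1 x V)) ?_
  filter_upwards [h1] with b hb
  have tri : ∀ (u v w : ℝ) (V : E3), (1 + ‖V‖) ^ p * |u - w| ≤ δ / (2 * dd * 2 ^ p) →
      (1 + ‖V‖) ^ p * |v - w| ≤ δ / (2 * dd * 2 ^ p) →
      (1 + ‖V‖) ^ p * |u - v| ≤ 2 * (δ / (2 * dd * 2 ^ p)) := by
    intro u v w V h1 h2
    have := mul_le_mul_of_nonneg_left (abs_sub (u - w) (v - w)) (wt_pos V p).le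
    rw [sub_sub_sub_cancel_right] at this
    linarith
  have e : δ = 2 ^ p * (2 * dd * (δ / (2 * dd * 2 ^ p))) := by field_simp
  have d0 : 0 < δ / (2 * dd * 2 ^ p) := by positivity
  rw [e]
  refine nice_of_fderiv (g a s x - g b s x).differentiable (fun V => ?_) fun V => ?_
  · have := tri _ _ _ V (ha.1 s hs x V) (hb.1 s hs x V)
    rw [sub_apply]
    nlinarith [two_le_dr]
  · refine (mul_le_mul_of_nonneg_left (norm_fderiv_le _ V) (wt_pos V p).le).trans ?_
    rw [Finset.mul_sum]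
    simp only [map_sub, sub_apply]
    exact (sum_le_Ix fun i => tri _ _ _ V (ha.2 i s hs x V) (hb.2 i s hs x V)).trans_eq (by ring)

lemma abs_Gam_le' {Kg Kh : ℝ} {g h : E3 → ℝ} (Hg : Nice (p + 29) Kg g) (Hh : Nice (p + 29) Kh h)
    (v : E3) : (1 + ‖v‖) ^ p * |Gam g h v| ≤ cG * 2 ^ (p + 30) * Kg * Kh := by
  have c0 := cG_pos
  have := (abs_Gam_le Hg Hh v).trans (mul_le_mul_of_nonneg_left
    (pow_le_pow_right₀ (n := 29) (le_add_of_nonneg_right (norm_nonneg v)) (by norm_num))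
    (mul_nonneg (mul_nonneg (by positivity) Hg.nonneg) Hh.nonneg))
  rw [pow_add, mul_right_comm] at this
  exact le_of_mul_le_mul_right this (wt_pos v 29)

lemma cv_Gam (h : NCv s0 (p + 29) φ ψ) (h' : NCv s0 (p + 29) φ' ψ') (b : NBd s0 (p + 29) ψ)
    (b' : NBd s0 (p + 29) ψ') :
    Cv s0 p (fun N s x V => Gam (φ N s x) (φ' N s x) V) fun s x V => Gam (ψ s x) (ψ' s x) V := by
  intro s1 δ hδ
  obtain ⟨K, hK⟩ := b s1
  obtain ⟨K', hK'⟩ := b' s1
  have c0 := cG_pos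
  set L := |K| + |K'| + 1 with hL
  have L0 : 0 < L := by positivity
  set τ := min 1 (δ / (2 * (cG * 2 ^ (p + 30) * L))) with hτ
  have τ0 : 0 < τ := by positivity
  filter_upwards [h s1 τ τ0, h' s1 τ τ0] with N h1 h2 s hs x V
  have n1 : Nice (p + 29) L (ψ s x) := (hK s hs x).mono_const (by
    linarith [le_abs_self K, abs_nonneg K'])
  have n2 : Nice (p + 29) L (φ' N s x) := by
    have := ((h2 s hs x).add (hK' s hs x)).mono_const (K' := L) (by
      linarith [le_abs_self K', abs_nonneg K, min_le_left 1 (δ / (2 * (cG * 2 ^ (p + 30) * L)))])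
    simpa using this
  have n3 : Nice (p + 29) (τ + L) (φ N s x) := by simpa using (h1 s hs x).add n1
  have e1 := Gam_sub_left n3 n1 n2 V
  have e2 := Gam_sub_right n1 n2 (hK' s hs x) V
  have a1 := abs_Gam_le' (h1 s hs x) n2 V
  have a2 := abs_Gam_le' n1 (h2 s hs x) V
  have a3 := mul_le_mul_of_nonneg_left (abs_add_le
    (Gam (fun V => φ N s x V - ψ s x V) (φ' N s x) V)
    (Gam (ψ s x) (fun V => φ' N s x V - ψ' s x V) V)) (wt_pos V p).le
  rw [e1, e2, sub_add_sub_cancel, ← e1, ← e2] at a3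
  have a4 : τ * (2 * (cG * 2 ^ (p + 30) * L)) ≤ δ :=
    (le_div_iff₀ (by positivity)).1 (min_le_right _ _)
  nlinarith

/-! ### Extension to negative times -/

/-- Odd reflection in time. -/
def odd (s0 : ℝ) (ψ : Fn) (q : ℝ × E3 × E3) : ℝ :=
  ψ (max q.1 s0) q.2.1 q.2.2 + ψ s0 q.2.1 q.2.2 - ψ (max (2 * s0 - q.1) s0) q.2.1 q.2.2

/-- Even reflection in time. -/
def even (s0 : ℝ) (ψ : Fn) (q : ℝ × E3 × E3) : ℝ := ψ (s0 + |q.1 - s0|) q.2.1 q.2.2

lemma odd_of_le (ψ : Fn) {s : ℝ} (hs : s0 ≤ s) (x V : E3) : odd s0 ψ (s, x, V) = ψ s x V := by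
  simp only [odd]
  rw [max_eq_left hs, max_eq_right (by linarith)]
  ring

lemma even_of_le (ψ : Fn) {s : ℝ} (hs : s0 ≤ s) (x V : E3) : even s0 ψ (s, x, V) = ψ s x V := by
  simp only [even]
  rw [abs_of_nonneg (by linarith), add_sub_cancel]

lemma Cv.reparam (h : Cv s0 p φ ψ) {r : ℝ → ℝ} (hr : Continuous r) (h0 : ∀ s, s0 ≤ r s) :
    TendstoLocallyUniformly (fun N (q : ℝ × E3 × E3) => φ N (r q.1) q.2.1 q.2.2)
      (fun q => ψ (r q.1) q.2.1 q.2.2) atTop := by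
  refine Metric.tendstoLocallyUniformly_iff.2 fun ε hε q => ?_
  refine ⟨{y | r y.1 < r q.1 + 1}, (isOpen_lt (hr.comp continuous_fst) continuous_const).mem_nhds
    (by simp), ?_⟩
  filter_upwards [h.mono (Nat.zero_le _) (r q.1 + 1) (ε / 2) (by positivity)] with N hN y hy
  have := hN (r y.1) ⟨h0 _, le_of_lt hy⟩ y.2.1 y.2.2
  rw [pow_zero, one_mul] at this
  rw [dist_comm, Real.dist_eq]
  linarith

lemma Cv.even (h : Cv s0 p φ ψ) :
    TendstoLocallyUniformly (fun N => even s0 (φ N)) (even s0 ψ) atTop :=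
  h.reparam (r := fun s => s0 + |s - s0|) (by fun_prop) fun s => by linarith [abs_nonneg (s - s0)]

lemma Cv.odd (h : Cv s0 p φ ψ) :
    TendstoLocallyUniformly (fun N => odd s0 (φ N)) (odd s0 ψ) atTop :=
  ((h.reparam (r := fun s => max s s0) (by fun_prop) fun _ => le_max_right _ _).add
    (h.reparam (r := fun _ => s0) continuous_const fun _ => le_rfl)).sub
    (h.reparam (r := fun s => max (2 * s0 - s) s0) (by fun_prop) fun _ => le_max_right _ _)

lemma continuous_reparam {Φ : ℝ → E3 → SV} (h : SmC Φ) {r : ℝ → ℝ} (hr : Continuous r) :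
    Continuous fun q : ℝ × E3 × E3 => Φ (r q.1) q.2.1 q.2.2 :=
  continuous_evalSV.comp ((h.cont.comp ((hr.comp continuous_fst).prodMk
    (continuous_fst.comp continuous_snd))).prodMk (continuous_snd.comp continuous_snd))

lemma continuous_even {Φ : ℝ → E3 → SV} (h : SmC Φ) :
    Continuous (even s0 fun s x V => Φ s x V) :=
  continuous_reparam h (r := fun s => s0 + |s - s0|) (by fun_prop)

lemma continuous_odd {Φ : ℝ → E3 → SV} (h : SmC Φ) :
    Continuous (odd s0 fun s x V => Φ s x V) :=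
  ((continuous_reparam h (r := fun s => max s s0) (by fun_prop)).add
    (continuous_reparam h (r := fun _ => s0) continuous_const)).sub
    (continuous_reparam h (r := fun s => max (2 * s0 - s) s0) (by fun_prop))

end Pool.Agent.BoltzD.PicLim

end
end MrgPart2

-- ======== part 3: formerly Pool.Agent.BoltzD.Pic.LimC
section MrgPart3

-- ======== part 0: formerly Pool.Agent.BoltzD.Lin.En
section MrgPart0

/-! Energy inequalities for the solutions on the whole space. -/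

set_option autoImplicit false

open Filter Topology MeasureTheory Set Pool.Agent.BoltzC

noncomputable section

namespace Pool.Agent.BoltzD.Lin

variable [Dim]

theorem norm_le_norm_red {x : E3} (h : box (1 / 2) x) : ‖x‖ ≤ ‖red x‖ := by
  rw [EuclideanSpace.norm_eq, EuclideanSpace.norm_eq]
  refine Real.sqrt_le_sqrt (Finset.sum_le_sum fun i _ => ?_)
  refine pow_le_pow_left₀ (norm_nonneg _) ?_ 2
  rw [Real.norm_eq_abs, Real.norm_eq_abs, red_apply]
  rcases eq_or_ne (round (x i)) 0 with h0 | h0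
  · simp [h0]
  · have h1 : (1 : ℝ) ≤ |((round (x i) : ℤ) : ℝ)| := by exact_mod_cast Int.one_le_abs h0
    have h2 := abs_sub_abs_le_abs_sub ((round (x i) : ℤ) : ℝ) (x i)
    rw [abs_sub_comm] at h2
    linarith [h i]

/-- The deficit term of the energy inequality. -/
def DY (r a : ℝ) (φ : E3 → SV) : ℝ := ∫ y, jb y ^ (-r) * wy a y * ip (φ y) (φ y)

theorem continuous_jb_rpow (b : ℝ) : Continuous fun y => jb y ^ b :=
  continuous_jb.rpow_const fun y => Or.inl (jb_pos y).ne'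

theorem tint_deficit (B : BgD) (a : ℝ) {φ : E3 → SV} {R s : ℝ} (hφ : Sm φ) (hR : Supp R φ)
    (hs : Real.exp (-s) * R < 1 / 4) :
    tint (fun x => B.mu s x * B.om a s x * ip (per (fun x => φ (Real.exp s • x)) x)
      (per (fun x => φ (Real.exp s • x)) x)) = DY B.r a φ := by
  refine tint_eq_integral (s := s) (ρ := R) (fun i x => ?_)
    (((continuous_jb_rpow _).mul (continuous_wy a)).mul (hφ.ip hφ).cont)
    (fun x hx => by simp only [hR x hx, map_zero, mul_zero]) hs (fun x hx => ?_) fun x hx h4 => ?_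
  · simp only [per_mu B s i x, per_om B a s i x, per_per _ i x]
  · rw [mu_eq B s hx, om_eq B a s hx, per_eq _ (hx.trans_lt (by norm_num))]
    ring
  · have : per (fun x => φ (Real.exp s • x)) x = 0 :=
      supp_scale_exp hR hs.le _ (h4.trans_le (norm_le_norm_red hx))
    rw [this, map_zero, mul_zero]

variable {B : BgD} {F : Fld} {K s1 : ℝ}

theorem comb_mem {m : ℕ} {φ : Fin m → E3 → SV} (hφ : ∀ i, φ i ∈ DD) (c : Fin m → ℝ) :
    ∑ i, c i • φ i ∈ DD := DD.sum_mem fun i _ => DD.smul_mem _ (hφ i)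

theorem energy_WS (h4 : M4hStmt) (h : Ctx B F K s1) : ∃ n0 : ℕ, ∀ n, n0 ≤ n → ∀ θ : ℝ, 0 < θ →
    θ ≤ 1 → ∃ C : ℝ, 0 < C ∧ ∀ a, 0 ≤ a → a ≤ B.eta → ∀ (m : ℕ) (φ : Fin m → E3 → SV),
      (∀ i, φ i ∈ DD) → ∀ (c : ℝ → Fin m → ℝ) (V V' : ℝ → E3 → SV), WS F V V' (frc φ c) →
      ∃ e e' : ℝ → ℝ, (∀ t, HasDerivAt e (e' t) t) ∧ ∀ t, 0 ≤ t →
        e t = BY n θ a B.nu (out V t) (out V t) ∧
        e' t + 2 * a * e t ≤ C * DY B.r a (out V t)
          + 2 * BY n θ a B.nu (∑ i, c t i • φ i) (out V t) := by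
  obtain ⟨K2, lam, s2, hlam, -, hyp⟩ := h.ok.hyp
  obtain ⟨n0, hn0⟩ := h4 K2 lam hlam
  refine ⟨n0, fun n hn θ hθ hθ1 => ?_⟩
  obtain ⟨C, hC, hE⟩ := hn0 n hn θ hθ hθ1
  refine ⟨C, hC, fun a ha ha4 m φ hφ c V V' hV => ?_⟩
  obtain ⟨ρ, hρ0, hρ⟩ := hV.supp
  obtain ⟨R, -, hR⟩ := exists_supp_family hφ
  obtain ⟨τ, hτ, hsm⟩ := exists_time (max ρ R) (1 / 8) s2 (by norm_num)
  have h8 := hsm τ le_rfl
  have hS := hV.sol.scale (-τ)
  simp only [neg_neg, sub_neg_eq_add, zero_add] at hS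
  have hT := hS.per h h8 fun s => supp_scale_exp ((hρ _).mono (le_max_left _ _)) le_rfl
  obtain ⟨E', -, hd, hb⟩ := hE (B.om a) _ B.sig _ _ _ (h.ok.sm_om a) h.ok.sm_sig hT.sm
    fun s => per_per _
  refine ⟨_, fun t => E' (t + τ), fun t => (hd (t + τ)).comp_add_const t τ, fun t ht => ?_⟩
  set s := t + τ with hs
  have hs2 : s2 ≤ s := by linarith
  have hmem := hV.out_mem t
  have hsup : Supp (Real.exp t * max ρ R) (out V t) :=
    supp_scale_neg ((hρ t).mono (le_max_left _ _)) t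
  have hρR : 0 ≤ max ρ R := hρ0.trans (le_max_left _ _)
  have hsup' : Supp (Real.exp t * max ρ R) (∑ i, c t i • φ i) := fun x hx => by
    rw [Finset.sum_apply]
    refine Finset.sum_eq_zero fun i _ => ?_
    rw [Pi.smul_apply, hR i x (lt_of_le_of_lt ((le_max_right ρ R).trans
      (le_mul_of_one_le_left hρR (Real.one_le_exp ht))) hx), smul_zero]
  have hsmall : Real.exp (-s) * (Real.exp t * max ρ R) < 1 / 4 := by
    rw [← mul_assoc, ← Real.exp_add, show -s + t = -τ by rw [hs]; ring]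
    exact h8.trans (by norm_num)
  have e1 : (fun x => V (s + -τ) (Real.exp τ • x)) = fun x => out V t (Real.exp s • x) := by
    funext x
    simp only [out, smul_smul, ← Real.exp_add]
    congr 3 <;> rw [hs] <;> ring
  have e2 : (fun x => per (fun x => V' (s + -τ) (Real.exp τ • x)) x +
      PP ((B.fld s).tr (per fun x => V (s + -τ) (Real.exp τ • x)) x)) =
      per fun x => (∑ i, c t i • φ i) (Real.exp s • x) := by
    funext x
    rw [hT.eqn s (by linarith) x]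
    simp only [per, frc, smul_smul, ← Real.exp_add, Finset.sum_apply, Pi.smul_apply]
    rw [show s + -τ = t by rw [hs]; ring]
  have hb' := hb s (B.fld s) (B.mu s) _ (h.ok.fldC.reg s) (hyp s hs2).1 ((hyp s hs2).2.2 a ha ha4)
    (continuous_const.mul ((h.ok.sm_om a).sm.cont_slice s)) (hT.hyd s)
  rw [e2] at hb'
  simp only [e1] at hb' ⊢
  have e3 := E_per_per' (n := n) (θ := θ) B a hmem.1 hsup hmem.1 hsup hsmall
  have e4 := E_per_per' (n := n) (θ := θ) B a (comb_mem hφ (c t)).1 hsup' hmem.1 hsup hsmall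
  unfold BgD.E at e3 e4
  rw [e4, tint_deficit B a hmem.1 hsup hsmall] at hb'
  refine ⟨e3, ?_⟩
  simp only [mul_assoc] at hb' ⊢
  rw [tint_const_mul, tint_const_mul] at hb'
  exact hb'

variable {n : ℕ} {θ : ℝ}

theorem integrable_DY {r a : ℝ} {φ : E3 → SV} (hφ : φ ∈ DD) :
    Integrable fun y => jb y ^ (-r) * wy a y * ip (φ y) (φ y) := by
  obtain ⟨R, -, hR⟩ := hφ.2.1
  exact Supp.integrable (ρ := R) (fun x hx => by simp only [hR x hx, map_zero, mul_zero])
    (((continuous_jb_rpow _).mul (continuous_wy a)).mul (hφ.1.ip hφ.1).cont)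

theorem integrable_eta {w : E3 → ℝ} (hw : Continuous w) {φ : E3 → SV} (hφ : Sm φ) {R : ℝ}
    (hR : Supp R φ) : Integrable fun y => expNegInvGlue (w y) * ip (φ y) (φ y) :=
  Supp.integrable (ρ := R) (fun x hx => by simp only [hR x hx, map_zero, mul_zero])
    ((continuous_eta.comp hw).mul (hφ.ip hφ).cont)

theorem NY_nonneg (ρ : ℝ) (φ : E3 → SV) : 0 ≤ NY ρ φ :=
  integral_nonneg fun _ => mul_nonneg (expNegInvGlue.nonneg _) (ip_self_nonneg _)

theorem jb_rpow_le_one {b : ℝ} (hb : b ≤ 0) (y : E3) : jb y ^ b ≤ 1 :=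
  Real.rpow_le_one_of_one_le_of_nonpos (one_le_jb y) hb

theorem DY_le_BY (hθ : 0 ≤ θ) {r a a' ν : ℝ} (ha : 2 * a' ≤ r + 2 * a) {φ : E3 → SV}
    (hφ : φ ∈ DD) : DY r a φ ≤ BY n θ a' ν φ φ := by
  obtain ⟨R, -, hR⟩ := hφ.2.1
  refine integral_mono (integrable_DY hφ) (integrable_BY hφ.1 hR hφ.1) fun y => ?_
  refine mul_le_mul ?_ (ip_le_bb hθ φ y) (ip_self_nonneg _) (wy_pos _ _).le
  unfold wy
  rw [← Real.rpow_add (jb_pos y)]
  exact Real.rpow_le_rpow_of_exponent_le (one_le_jb y) (by linarith)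

/-- Young's inequality for the two weights. -/
theorem DY_young (hθ : 0 ≤ θ) {r a : ℝ} (ν x : ℝ) (hr : 0 ≤ r) (ha : r ≤ 2 * a) {φ : E3 → SV}
    (hφ : φ ∈ DD) : DY r 0 φ ≤
      Real.exp (-(x * r)) * (BY n θ 0 ν φ φ + Real.exp (x * (2 * a)) * BY n θ a ν φ φ) := by
  obtain ⟨R, -, hR⟩ := hφ.2.1
  have i1 := integrable_BY (n := n) (θ := θ) (a := 0) (ν := ν) hφ.1 hR hφ.1
  have i2 := (integrable_BY (n := n) (θ := θ) (a := a) (ν := ν) hφ.1 hR hφ.1).const_mul
    (Real.exp (x * (2 * a)))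
  unfold BY
  rw [← integral_const_mul, ← integral_add i1 i2, ← integral_const_mul]
  refine integral_mono (integrable_DY hφ) ((i1.add i2).const_mul _) fun y => ?_
  have hj := jb_pos y
  set z := Real.exp x * (jb y)⁻¹ with hz
  have z0 : 0 < z := by positivity
  have e : ∀ b, z ^ b = Real.exp (x * b) * jb y ^ (-b) := fun b => by
    rw [hz, Real.mul_rpow (by positivity) (by positivity), ← Real.exp_mul, Real.inv_rpow hj.le,
      Real.rpow_neg hj.le]
  have h1 : z ^ r ≤ 1 + z ^ (2 * a) := by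
    rcases le_total z 1 with h | h
    · exact (Real.rpow_le_one z0.le h hr).trans (le_add_of_nonneg_right (by positivity))
    · exact (Real.rpow_le_rpow_of_exponent_le h ha).trans (le_add_of_nonneg_left zero_le_one)
  have e1 : jb y ^ (-r) = Real.exp (-(x * r)) * z ^ r := by
    rw [e, ← mul_assoc, ← Real.exp_add, neg_add_cancel, Real.exp_zero, one_mul]
  have e2 : wy a y = jb y ^ (-(2 * a)) * wy 0 y := by
    rw [wy, wy, ← Real.rpow_add hj]
    congr 1
    ring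
  have w0 := wy_pos 0 y
  have h2 := mul_le_mul h1 (ip_le_bb (n := n) (σ := sy ν) hθ φ y) (ip_self_nonneg _) (by positivity)
  have h3 := mul_le_mul_of_nonneg_left h2 (mul_pos (Real.exp_pos (-(x * r))) w0).le
  rw [e (2 * a)] at h3
  simp only [e1, e2]
  linarith

theorem DY_le_NY (hθ : 0 ≤ θ) {r a ε : ℝ} (ν : ℝ) (hr : 1 ≤ r) (ha : 0 ≤ a) (hε : 0 < ε) :
    ∃ ρ C : ℝ, 0 ≤ ρ ∧ 0 ≤ C ∧ ∀ φ ∈ DD, DY r a φ ≤ ε * BY n θ a ν φ φ + C * NY ρ φ := by
  have h1 : 0 < expNegInvGlue 1 := expNegInvGlue.pos_of_pos one_pos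
  refine ⟨ε⁻¹ + 1, (expNegInvGlue 1)⁻¹, by positivity, by positivity, fun φ hφ => ?_⟩
  obtain ⟨R, -, hR⟩ := hφ.2.1
  have i1 := (integrable_BY (n := n) (θ := θ) (a := a) (ν := ν) hφ.1 hR hφ.1).const_mul ε
  have i2 := (integrable_eta (w := fun y => (ε⁻¹ + 1) ^ 2 - ‖y‖ ^ 2) (by fun_prop) hφ.1
    hR).const_mul (expNegInvGlue 1)⁻¹
  unfold BY NY
  rw [← integral_const_mul, ← integral_const_mul, ← integral_add i1 i2]
  refine integral_mono (integrable_DY hφ) (i1.add i2) fun y => ?_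
  have q0 := ip_self_nonneg (φ y)
  have q1 := ip_le_bb (n := n) (σ := sy ν) hθ φ y
  have w0 := (wy_pos a y).le
  have t1 : 0 ≤ ε * (wy a y * bb n θ (sy ν) φ φ y) := by
    have := q0.trans q1
    positivity
  have t2 : 0 ≤ (expNegInvGlue 1)⁻¹ *
      (expNegInvGlue ((ε⁻¹ + 1) ^ 2 - ‖y‖ ^ 2) * ip (φ y) (φ y)) := by
    have := expNegInvGlue.nonneg ((ε⁻¹ + 1) ^ 2 - ‖y‖ ^ 2)
    positivity
  by_cases hy : ‖y‖ ≤ ε⁻¹
  · have h2 : expNegInvGlue 1 ≤ expNegInvGlue ((ε⁻¹ + 1) ^ 2 - ‖y‖ ^ 2) :=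
      expNegInvGlue.monotone (by nlinarith [norm_nonneg y, inv_pos.mpr hε])
    have h3 : 1 ≤ (expNegInvGlue 1)⁻¹ * expNegInvGlue ((ε⁻¹ + 1) ^ 2 - ‖y‖ ^ 2) := by
      rw [← div_eq_inv_mul, le_div_iff₀ h1, one_mul]; exact h2
    have h5 : jb y ^ (-r) * wy a y ≤ 1 :=
      mul_le_one₀ (jb_rpow_le_one (by linarith) y) w0 (jb_rpow_le_one (by linarith [dr_pos]) y)
    have h6 := mul_le_mul_of_nonneg_right (h5.trans h3) q0
    simp only [mul_assoc] at h6 ⊢
    linarith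
  · have h2 : jb y ^ (-r) ≤ ε := by
      refine (Real.rpow_le_rpow_of_exponent_le (one_le_jb y) (neg_le_neg hr)).trans ?_
      rw [Real.rpow_neg_one]
      exact inv_le_of_inv_le₀ hε ((not_le.mp hy).le.trans (norm_le_jb y))
    have h3 : jb y ^ (-r) * (wy a y * ip (φ y) (φ y)) ≤ ε * (wy a y * bb n θ (sy ν) φ φ y) :=
      mul_le_mul h2 (mul_le_mul_of_nonneg_left q1 w0) (mul_nonneg w0 q0) hε.le
    simp only [mul_assoc] at h3 ⊢
    linarith

theorem two_BY_le (hθ : 0 ≤ θ) {a ν L : ℝ} (hL : 0 < L) {φ ψ : E3 → SV} (hφ : φ ∈ DD)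
    (hψ : ψ ∈ DD) : 2 * BY n θ a ν φ ψ ≤ L⁻¹ * BY n θ a ν φ φ + L * BY n θ a ν ψ ψ := by
  obtain ⟨R, -, hR⟩ := hφ.2.1
  obtain ⟨R', -, hR'⟩ := hψ.2.1
  have i1 := (integrable_BY (n := n) (θ := θ) (a := a) (ν := ν) hφ.1 hR hφ.1).const_mul L⁻¹
  have i2 := (integrable_BY (n := n) (θ := θ) (a := a) (ν := ν) hψ.1 hR' hψ.1).const_mul L
  unfold BY
  rw [← integral_const_mul, ← integral_const_mul, ← integral_const_mul, ← integral_add i1 i2]
  refine integral_mono ((integrable_BY hφ.1 hR hψ.1).const_mul 2) (i1.add i2) fun y => ?_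
  have := mul_le_mul_of_nonneg_left (two_bb_le (n := n) (σ := sy ν) hθ φ ψ hL y) (wy_pos a y).le
  simp only
  linarith

theorem BY_comb_le (a ν : ℝ) {m : ℕ} {φ : Fin m → E3 → SV} (hφ : ∀ i, φ i ∈ DD) :
    ∃ C : ℝ, 0 ≤ C ∧ ∀ (c : Fin m → ℝ) (M : ℝ), (∀ i, |c i| ≤ M) →
      BY n θ a ν (∑ i, c i • φ i) (∑ i, c i • φ i) ≤ C * M ^ 2 := by
  let ψ : Fin m → DD := fun i => ⟨φ i, hφ i⟩
  refine ⟨∑ j, ∑ i, |BF n θ a ν (ψ i) (ψ j)|, by positivity, fun c M hc => ?_⟩
  have e : BY n θ a ν (∑ i, c i • φ i) (∑ i, c i • φ i)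
      = BF n θ a ν (∑ i, c i • ψ i) (∑ i, c i • ψ i) := by
    rw [BF_apply]; simp [ψ]
  rw [e]
  simp only [map_sum, map_smul, LinearMap.sum_apply, LinearMap.smul_apply, smul_eq_mul,
    Finset.mul_sum, Finset.sum_mul]
  refine Finset.sum_le_sum fun j _ => Finset.sum_le_sum fun i _ => (le_abs_self _).trans ?_
  rw [abs_mul, abs_mul]
  have h0 : 0 ≤ M := (abs_nonneg _).trans (hc i)
  calc |c j| * (|c i| * |BF n θ a ν (ψ i) (ψ j)|) ≤ M * (M * |BF n θ a ν (ψ i) (ψ j)|) := by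
        gcongr <;> apply hc
    _ = _ := by ring

/-- Local `L^2` bound for the free solutions on a unit time interval. -/
theorem NY_out_le (h : Ctx B F K s1) {ρ : ℝ} (hρ : 0 ≤ ρ) : ∃ ρ' C : ℝ, 0 ≤ C ∧
    ∀ V V' G : ℝ → E3 → SV, WS F V V' G → (∀ s x, G s x = 0) →
      ∀ t ∈ Icc (0 : ℝ) 1, NY ρ (out V t) ≤ C * NY ρ' (V 0) := by
  obtain ⟨Λ, hΛ, hc⟩ := cone_sol K h.K0
  obtain ⟨Kc, hKc⟩ := hc (sc F) 0 1 0 ρ (h.tame0 0) hρ
  refine ⟨ρ + Λ, Real.exp 1 ^ dd * Real.exp |Kc|, by positivity, fun V V' G hV hG t ht => ?_⟩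
  have h1 := hKc V V' G hV.sol (fun s _ x _ => hG s x) t ht
  simp only [sub_zero, neg_zero, Real.exp_zero, mul_one] at h1
  obtain ⟨R, -, hR⟩ := hV.supp
  have hsm := hV.sol.sm.sm.slice t
  have e1 : NY ρ (out V t) = Real.exp t ^ dd *
      ∫ x, expNegInvGlue (ρ ^ 2 - ‖Real.exp t • x‖ ^ 2) * ip (V t x) (V t x) := by
    have := integral_scale (fun x => expNegInvGlue (ρ ^ 2 - ‖Real.exp t • x‖ ^ 2)
      * ip (V t x) (V t x)) (Real.exp_pos (-t))
    simp only [exp_smul_exp_neg] at this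
    unfold NY out
    rw [this, Real.exp_neg, inv_pow, inv_inv]
  have h2 : ∫ x, expNegInvGlue (ρ ^ 2 - ‖Real.exp t • x‖ ^ 2) * ip (V t x) (V t x) ≤
      ∫ x, expNegInvGlue ((ρ + Λ * Real.exp (-t)) ^ 2 - ‖x‖ ^ 2) * ip (V t x) (V t x) := by
    refine integral_mono (integrable_eta (by fun_prop) hsm (hR t))
      (integrable_eta (by fun_prop) hsm (hR t)) fun x => ?_
    refine mul_le_mul_of_nonneg_right (expNegInvGlue.monotone ?_) (ip_self_nonneg _)
    have h3 : ‖x‖ ≤ ‖Real.exp t • x‖ := by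
      rw [norm_exp_smul]; exact le_mul_of_one_le_left (norm_nonneg _) (Real.one_le_exp ht.1)
    have h4 : 0 ≤ Λ * Real.exp (-t) := by positivity
    nlinarith [norm_nonneg x]
  have h3 : Real.exp (Kc * t) ≤ Real.exp |Kc| := Real.exp_le_exp.mpr <|
    (le_abs_self _).trans (by
      rw [abs_mul, abs_of_nonneg ht.1]; exact mul_le_of_le_one_right (abs_nonneg _) ht.2)
  have h4 := NY_nonneg (ρ + Λ) (V 0)
  have h5 : Real.exp t ^ dd ≤ Real.exp 1 ^ dd := by gcongr; exact ht.2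
  rw [e1]
  calc _ ≤ Real.exp t ^ dd * (NY (ρ + Λ) (V 0) * Real.exp (Kc * t)) := by
        gcongr; exact h2.trans h1
    _ ≤ Real.exp 1 ^ dd * (NY (ρ + Λ) (V 0) * Real.exp |Kc|) := by gcongr
    _ = _ := by ring

end Pool.Agent.BoltzD.Lin

end
end MrgPart0

-- ======== part 1: formerly Pool.Agent.BoltzD.Lin.M5
section MrgPart1

/-! Module M5: choice of the finitely many free parameters. -/

set_option autoImplicit false

open Filter Topology MeasureTheory Set Pool.Agent.BoltzC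

noncomputable section

namespace Pool.Agent.BoltzD.Lin

variable [Dim]

/-- Compactness of the embedding of the energy space in local `L^2`. -/
def RellichStmt : Prop :=
  ∀ (n : ℕ) (θ a ν ρ ε : ℝ), dd + 1 ≤ n → 0 < θ → θ ≤ 1 → 0 < ε →
    ∃ (m : ℕ) (l : Fin m → DD →ₗ[ℝ] ℝ) (K : ℝ), (∀ k φ, l k φ ^ 2 ≤ K * BF n θ a ν φ φ) ∧
      ∀ φ : DD, NY ρ φ ≤ ε * BF n θ a ν φ φ + ∑ k, l k φ ^ 2

theorem decay_gronwall {e e' : ℝ → ℝ} {δ A K : ℝ} (hδ : 0 < δ) (hK : 0 ≤ K)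
    (hd : ∀ t, HasDerivAt e (e' t) t)
    (hb : ∀ t, 0 ≤ t → e' t ≤ K * Real.exp (-δ * t) * (e t + A)) {t : ℝ} (ht : 0 ≤ t)
    (h0 : 0 ≤ e t + A) : e t + A ≤ (e 0 + A) * Real.exp (K / δ) := by
  have hf : ∀ t, HasDerivAt (fun t => (e t + A) * Real.exp (K / δ * Real.exp (-δ * t)))
      (Real.exp (K / δ * Real.exp (-δ * t)) * (e' t - K * Real.exp (-δ * t) * (e t + A))) t := by
    intro t
    have h1 : HasDerivAt (fun t => -δ * t) (-δ) t := by simpa using (hasDerivAt_id t).const_mul (-δ)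
    refine (((hd t).add_const A).mul ((h1.exp.const_mul (K / δ)).exp)).congr_deriv ?_
    field_simp
    ring
  have hanti := antitoneOn_of_deriv_nonpos (convex_Ici (0 : ℝ))
    (fun t _ => (hf t).continuousAt.continuousWithinAt)
    (fun t _ => (hf t).differentiableAt.differentiableWithinAt) fun t ht => by
      rw [(hf t).deriv]
      rw [interior_Ici] at ht
      exact mul_nonpos_of_nonneg_of_nonpos (Real.exp_pos _).le (sub_nonpos.mpr (hb t (le_of_lt ht)))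
  have h1 := hanti (le_refl (0 : ℝ)) ht ht
  simp only [mul_zero, Real.exp_zero, mul_one] at h1
  exact (le_mul_of_one_le_right h0 (Real.one_le_exp (by positivity))).trans h1

/-- Translation in time. -/
def shiftC (m : ℕ) (τ : ℝ) : C(ℝ, Fin m → ℝ) →ₗ[ℝ] C(ℝ, Fin m → ℝ) where
  toFun c := c.comp ⟨fun t => t + τ, by fun_prop⟩
  map_add' _ _ := rfl
  map_smul' _ _ := rfl

theorem coe_shiftC (m : ℕ) (τ : ℝ) (c : C(ℝ, Fin m → ℝ)) :
    (shiftC m τ c : ℝ → Fin m → ℝ) = fun t => c (t + τ) := rfl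

variable {B : BgD} {F : Fld} {n : ℕ} {θ CE : ℝ}

/-- The energy inequality for the solutions on the whole space. -/
def EnIneq (B : BgD) (F : Fld) (n : ℕ) (θ CE : ℝ) : Prop :=
  ∀ a, 0 ≤ a → a ≤ B.eta → ∀ (m : ℕ) (φ : Fin m → E3 → SV),
    (∀ i, φ i ∈ DD) → ∀ (c : ℝ → Fin m → ℝ) (V V' : ℝ → E3 → SV), WS F V V' (frc φ c) →
    ∃ e e' : ℝ → ℝ, (∀ t, HasDerivAt e (e' t) t) ∧ ∀ t, 0 ≤ t →
      e t = BY n θ a B.nu (out V t) (out V t) ∧
      e' t + 2 * a * e t ≤ CE * DY B.r a (out V t)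
        + 2 * BY n θ a B.nu (∑ i, c t i • φ i) (out V t)

theorem unit_growth (hB : B.Ok) (hθ : 0 ≤ θ) (hCE : 0 < CE) (hE : EnIneq B F n θ CE) {m : ℕ}
    {φ : Fin m → E3 → SV} (hφ : ∀ i, φ i ∈ DD) : ∃ C : ℝ, 0 ≤ C ∧
      ∀ (c : ℝ → Fin m → ℝ) (V V' : ℝ → E3 → SV) (M : ℝ), WS F V V' (frc φ c) →
        (∀ t ∈ Icc (0 : ℝ) 1, ∀ i, |c t i| ≤ M) → ∀ t ∈ Icc (0 : ℝ) 1,
          BY n θ B.eta B.nu (out V t) (out V t) ≤
            C * (BY n θ B.eta B.nu (V 0) (V 0) + M ^ 2) := by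
  obtain ⟨Cφ, hCφ, hφb⟩ := BY_comb_le (n := n) (θ := θ) B.eta B.nu hφ
  refine ⟨(1 + Cφ) * Real.exp (CE + 1), by positivity, fun c V V' M hV hc t ht => ?_⟩
  obtain ⟨e, e', hd, he⟩ := hE B.eta hB.eta_pos.le le_rfl m φ hφ c V V' hV
  have h1 := gronwall_le' (a := 0) (b := 1) (K := CE + 1) (H := Cφ * M ^ 2) hd (by positivity)
    (fun s hs => by
      obtain ⟨h1, h2⟩ := he s hs.1
      have h3 := DY_le_BY (n := n) hθ (r := B.r) (a := B.eta) (a' := B.eta) (ν := B.nu)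
        (by linarith [hB.r_gt]) (hV.out_mem s)
      have h4 := two_BY_le (n := n) hθ (a := B.eta) (ν := B.nu) one_pos (comb_mem hφ (c s))
        (hV.out_mem s)
      have h5 := hφb (c s) M (hc s hs)
      have h6 := BY_nonneg (n := n) hθ B.eta B.nu (out V s)
      rw [← h1] at h3 h4 h6
      have h7 := mul_le_mul_of_nonneg_left h3 hCE.le
      have h8 := mul_nonneg hB.eta_pos.le h6
      rw [inv_one] at h4
      linarith) t ht
  rw [(he t ht.1).1, (he 0 le_rfl).1, out_zero, sub_zero, abs_of_pos (by positivity)] at h1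
  have h2 : Real.exp ((CE + 1) * t) ≤ Real.exp (CE + 1) :=
    Real.exp_le_exp.mpr (mul_le_of_le_one_right (by positivity) ht.2)
  have h3 := BY_nonneg (n := n) hθ B.eta B.nu (V 0)
  have h4 : Cφ * M ^ 2 * t * Real.exp ((CE + 1) * t) ≤ Cφ * M ^ 2 * 1 * Real.exp (CE + 1) := by
    gcongr; exact ht.2
  have h5 := mul_le_mul_of_nonneg_left h2 h3
  have h6 : 0 ≤ Cφ * Real.exp (CE + 1) * BY n θ B.eta B.nu (V 0) (V 0) := by positivity
  have h7 : 0 ≤ Real.exp (CE + 1) * M ^ 2 := by positivity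
  linarith only [h1, h4, h5, h6, h7]

theorem free_contract {K s1 : ℝ} (h : Ctx B F K s1) (hθ : 0 ≤ θ) (hCE : 0 < CE)
    (hE : EnIneq B F n θ CE) {m : ℕ} {φ : Fin m → E3 → SV} (hφ : ∀ i, φ i ∈ DD) {η : ℝ}
    (hη : 0 < η) : ∃ ρ C : ℝ, 0 ≤ C ∧ ∀ V V' : ℝ → E3 → SV, WS F V V' (frc φ 0) →
      BY n θ B.eta B.nu (out V 1) (out V 1) ≤
        Real.exp (-2 * B.eta + η) * BY n θ B.eta B.nu (V 0) (V 0) + C * NY ρ (V 0) := by
  obtain ⟨ρ, C2, hρ, hC2, hD⟩ := DY_le_NY (n := n) hθ (r := B.r) (a := B.eta) (ε := η / CE) B.nu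
    h.ok.one_lt_r.le h.ok.eta_pos.le (by positivity)
  obtain ⟨ρ', C3, hC3, hN⟩ := NY_out_le h hρ
  refine ⟨ρ', CE * C2 * C3 * Real.exp |-2 * B.eta + η|, by positivity, fun V V' hV => ?_⟩
  obtain ⟨e, e', hd, he⟩ := hE B.eta h.ok.eta_pos.le le_rfl m φ hφ 0 V V' hV
  have h0 := NY_nonneg ρ' (V 0)
  have h1 := gronwall_le' (a := 0) (b := 1) (K := -2 * B.eta + η) (H := CE * C2 * C3 * NY ρ' (V 0)) hd
    (by positivity) (fun s hs => by
      obtain ⟨h1, h2⟩ := he s hs.1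
      have h3 := mul_le_mul_of_nonneg_left (hD _ (hV.out_mem s)) hCE.le
      have h4 := mul_le_mul_of_nonneg_left (hN V V' _ hV (fun s x => by simp [frc]) s hs)
        (mul_nonneg hCE.le hC2)
      have h5 : BY n θ B.eta B.nu (∑ i, (0 : ℝ → Fin m → ℝ) s i • φ i) (out V s) = 0 := by
        have h6 : BY n θ B.eta B.nu 0 (out V s) = 0 :=
          (BF n θ B.eta B.nu).map_zero₂ ⟨_, hV.out_mem s⟩
        simpa using h6
      rw [h5] at h2
      rw [← h1, mul_add, ← mul_assoc, mul_div_cancel₀ _ hCE.ne'] at h3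
      linarith only [h2, h3, h4]) 1 ⟨zero_le_one, le_rfl⟩
  rw [(he 1 zero_le_one).1, (he 0 le_rfl).1, out_zero, sub_zero, mul_one, mul_one, mul_one] at h1
  linarith

theorem m5_of (hR : RellichStmt) (h3 : M3hStmt) (h4 : M4hStmt) : M5Stmt := by
  intro B hB
  obtain ⟨F, K, s1, h⟩ := exists_ctx hB
  obtain ⟨n0, hn0⟩ := energy_WS h4 h
  refine ⟨max n0 (dd + 1), fun n hn θ hθ hθ1 m φ hφ' δ1 hδ1 hδ4 => ?_⟩
  obtain ⟨CE, hCE, hE⟩ := hn0 n ((le_max_left _ _).trans hn) θ hθ hθ1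
  have hφ := fun i => inD_iff.mp (hφ' i)
  obtain ⟨Φ, hΦ⟩ := exists_flow h3 h hφ
  obtain ⟨C1, hC1, hG⟩ := unit_growth hB hθ.le hCE hE hφ
  obtain ⟨ρ, C4, hC4, hF⟩ := free_contract h hθ.le hCE hE hφ (η := B.eta - δ1) (by linarith)
  set A := Real.exp (-2 * B.eta + (B.eta - δ1)) with hA
  have hA0 : 0 < A := Real.exp_pos _
  have hAq : A < Real.exp (-δ1) ^ 2 := by
    rw [← exp_neg_two]; exact Real.exp_lt_exp.mpr (by linarith)
  set g := (Real.exp (-δ1) ^ 2 - A) / 2 with hg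
  have hg0 : 0 < g := by rw [hg]; linarith
  obtain ⟨k, l, Kl, hl, hN⟩ := hR n θ B.eta B.nu ρ (g / (C4 + 1)) ((le_max_right _ _).trans hn)
    hθ hθ1 (by positivity)
  obtain ⟨q2, hq2, hdich⟩ := Dich.dichotomy (BF n θ B.eta B.nu) (BF_symm _ _)
    (BF_nonneg hθ.le _ _) (Φ ∘ₗ LinearMap.inl ℝ _ _) (fun j => √C4 • l j) (C4 * Kl)
    (fun j x => by
      rw [LinearMap.smul_apply, smul_eq_mul, mul_pow, Real.sq_sqrt hC4, mul_assoc]
      exact mul_le_mul_of_nonneg_left (hl j x) hC4)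
    (√(A + g)) (Real.exp (-δ1)) (Real.sqrt_nonneg _)
    ((Real.sqrt_lt' (Real.exp_pos _)).mpr (by rw [hg]; linarith)) fun x => by
      obtain ⟨V, V', hV, hV0⟩ := exists_WS h3 h hφ (c := 0) continuous_const x.2
      have h1 := hF V V' hV
      have h2 := mul_le_mul_of_nonneg_left (hN x) hC4
      have h5 : C4 * (g / (C4 + 1)) ≤ g := by
        rw [← mul_div_assoc, div_le_iff₀ (by positivity)]; linarith only [hg0]
      have h6 := mul_le_mul_of_nonneg_right h5 (BF_nonneg (n := n) hθ.le B.eta B.nu x)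
      simp only [LinearMap.smul_apply, smul_eq_mul, mul_pow, Real.sq_sqrt hC4, ← Finset.mul_sum,
        Real.sq_sqrt (add_pos hA0 hg0).le]
      rw [BF_apply, LinearMap.comp_apply, LinearMap.inl_apply, hΦ V V' (x, 0) hV hV0]
      rw [hV0, ← BF_apply] at h1
      linarith only [h1, h2, h6]
  refine ⟨max (-Real.log q2) (δ1 / 2), max_lt ?_ (by linarith), fun δ hδ0 hδ => ?_⟩
  · rw [neg_lt, Real.lt_log_iff_exp_lt ((Real.exp_pos _).trans hq2)]; exact hq2
  have hδp : 0 < δ := lt_of_le_of_lt (by linarith [le_max_right (-Real.log q2) (δ1 / 2)]) hδ0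
  obtain ⟨m', ψ, a, Cd, hCd, hd⟩ := hdich (Real.exp (-δ)) (Real.exp_lt_exp.mpr (by linarith)) (by
    rw [← Real.lt_log_iff_exp_lt ((Real.exp_pos _).trans hq2), neg_lt]
    exact (le_max_left _ _).trans_lt hδ0)
  obtain ⟨R1, hR1, hφR⟩ := exists_supp_family hφ
  obtain ⟨R2, -, hψR⟩ := exists_supp_family fun i => (ψ i).2
  obtain ⟨s2, hs2, hT⟩ := exists_WS_of_torus h (R := max R1 R2)
    (fun i => (hφR i).mono (le_max_left _ _)) (hR1.trans (le_max_left _ _))
  obtain ⟨Cφ, hCφ, hφb⟩ := BY_comb_le (n := n) (θ := θ) 0 B.nu hφ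
  obtain ⟨Cψ, hCψ, hψb⟩ := BY_comb_le (n := n) (θ := θ) 0 B.nu fun i => (ψ i).2
  set C5 := C1 * (Cd ^ 2 * C1 + 1) * Real.exp δ1 ^ 2 with hC5
  have hC50 : 0 ≤ C5 := by positivity
  have hη := hB.eta_pos
  have hr : 0 < B.r := zero_lt_one.trans hB.one_lt_r
  have hr2 : B.r ≤ 2 * B.eta := by linarith only [B.two_eta, hB.kap_pos]
  set γ := δ / (2 * B.eta) * B.r with hγ
  have hγ0 : 0 < γ := by positivity
  have hγδ : γ ≤ δ := by
    rw [hγ, div_mul_eq_mul_div, div_le_iff₀ (by positivity)]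
    exact mul_le_mul_of_nonneg_left hr2 hδp.le
  set C6 := (Cψ * (Cd ^ 2 * C1) + (C5 + Cφ)) * Real.exp ((CE + 1) / γ) with hC6
  have hC60 : 0 ≤ C6 := by positivity
  let ff : C(ℝ, Fin m → ℝ) →ₗ[ℝ] (ℕ → DD) :=
    LinearMap.pi fun j : ℕ => Φ ∘ₗ LinearMap.inr ℝ _ _ ∘ₗ shiftC m j
  refine ⟨m', fun i => ψ i, Cd * √C1 + C5 + C6 + 1, s2, by positivity,
    fun i => inD_iff.mpr (ψ i).2, fun s0 hs0 => ⟨a ∘ₗ ff ∘ₗ shiftC m s0, fun c M hM hc => ?_⟩⟩
  have hs00 : 0 ≤ s0 := h.s10.trans (hs2.trans hs0)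
  set d := shiftC m s0 c with hdd
  set N := M * Real.exp (-δ * s0) with hNd
  have hN0 : 0 ≤ N := by positivity
  have hNM : N ≤ M := mul_le_of_le_one_right hM
    (Real.exp_le_one_iff.mpr (by linarith only [mul_nonneg hδp.le hs00]))
  have hdb : ∀ t, 0 ≤ t → ∀ i, |d t i| ≤ N * Real.exp (-δ * t) := fun t ht i => by
    refine (hc (t + s0) (by linarith) i).trans (le_of_eq ?_)
    rw [hNd, mul_assoc, ← Real.exp_add]; congr 2; ring
  have hq : ∀ j : ℕ, Real.exp (-δ) ^ j = Real.exp (-δ * j) := fun j => by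
    rw [← Real.exp_nat_mul, mul_comm]
  have hdj : ∀ j : ℕ, ∀ t ∈ Icc (0 : ℝ) 1, ∀ i, |d (t + j) i| ≤ N * Real.exp (-δ) ^ j := by
    intro j t ht i
    refine (hdb _ (add_nonneg ht.1 j.cast_nonneg) i).trans ?_
    rw [hq]
    exact mul_le_mul_of_nonneg_left (Real.exp_le_exp.mpr
      (by linarith only [mul_nonneg hδp.le ht.1])) hN0
  obtain ⟨hab, hx⟩ := hd (ff d) (√C1 * N) (by positivity) fun j => by
    obtain ⟨V, V', hV, hV0⟩ := exists_WS h3 h hφ (shiftC m j d).continuous DD.zero_mem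
    have h1 := hG _ V V' _ hV (hdj j) 1 ⟨zero_le_one, le_rfl⟩
    have h2 : BY n θ B.eta B.nu (0 : E3 → SV) 0 = 0 := (BF n θ B.eta B.nu 0).map_zero
    have h5 : ((ff d j : DD) : E3 → SV) = out V 1 := hΦ V V' (0, shiftC m j d) hV hV0
    rw [hV0, h2, zero_add] at h1
    rw [BF_apply, h5, mul_assoc, mul_pow, Real.sq_sqrt hC1]
    exact h1
  have hab' : ∀ i, |a (ff d) i| ≤ Cd * √C1 * N := fun i => (hab i).trans (le_of_eq (by ring))
  refine ⟨fun i => (hab' i).trans ?_, fun W W' hW pW hh h0 heq => ?_⟩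
  · exact mul_le_mul (by linarith only [hC50, hC60]) hNM hN0 (by positivity)
  obtain ⟨hsm, hT⟩ := hT s0 hs0
  have hsm' : ∀ s, s0 ≤ s → Real.exp (-s) * max R1 R2 < 1 / 8 := fun s hs =>
    lt_of_le_of_lt (by have := hR1.trans (le_max_left R1 R2); gcongr) hsm
  obtain ⟨V, V', hV, hV0, hWV⟩ := hT c (∑ i, a (ff d) i • (ψ i : E3 → SV)) W W' _
    (fun x hx => by
      rw [Finset.sum_apply]
      exact Finset.sum_eq_zero fun i _ => by
        rw [Pi.smul_apply, hψR i x ((le_max_right _ _).trans_lt hx), smul_zero])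
    ⟨hW, hh, heq⟩ pW (by
      funext x
      rw [h0 x]
      simp only [per_eq_per B ((hψR _).mono (le_max_right R1 R2)) hsm, per, Finset.sum_apply,
        Pi.smul_apply]
      rfl) fun s hs => by
      funext x
      simp only [per_eq_per B ((hφR _).mono (le_max_left R1 R2)) (hsm' s hs), per, frc]
  have hV' : WS F V V' (frc φ d) := hV
  have hint := hx (fun j => ⟨out V j, hV.out_mem j⟩)
    (Subtype.ext (by simp [out_zero, hV0])) fun j => Subtype.ext (by
      have h1 := hΦ _ _ (⟨out V j, hV.out_mem j⟩, shiftC m j d) (hV'.shift j.cast_nonneg)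
        (by funext x; simp [out])
      rw [out_shift] at h1
      have h2 : (Φ ∘ₗ LinearMap.inl ℝ _ _) ⟨out V j, hV.out_mem j⟩ + ff d j
          = Φ (⟨out V j, hV.out_mem j⟩, shiftC m j d) := by
        show Φ (_, 0) + Φ (0, _) = _
        rw [← map_add]; simp
      rw [h2, h1]
      simp [add_comm])
  have h14 : ∀ t, 0 ≤ t →
      BY n θ B.eta B.nu (out V t) (out V t) ≤ C5 * (N * Real.exp (-δ * t)) ^ 2 := by
    intro t ht
    set j := ⌊t⌋₊ with hj
    have hj1 : (j : ℝ) ≤ t := Nat.floor_le ht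
    have hj2 : t < j + 1 := Nat.lt_floor_add_one t
    have h1 := hG _ _ _ _ (hV'.shift j.cast_nonneg) (hdj j) (t - j) ⟨by linarith, by linarith⟩
    have h2 := hint j
    rw [BF_apply] at h2
    rw [out_shift, sub_add_cancel, ← out_zero (fun s x => V (s + j) (Real.exp (-(j : ℝ)) • x)),
      out_shift, zero_add] at h1
    have h5 : Real.exp (-δ) ^ j ≤ Real.exp δ1 * Real.exp (-δ * t) := by
      rw [hq, ← Real.exp_add]
      exact Real.exp_le_exp.mpr (by
        linarith only [mul_le_mul_of_nonneg_left hj2.le hδp.le, hδ])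
    have h6 : (N * Real.exp (-δ) ^ j) ^ 2 ≤ (N * (Real.exp δ1 * Real.exp (-δ * t))) ^ 2 := by
      gcongr
    have h7 : (Cd * (√C1 * N) * Real.exp (-δ) ^ j) ^ 2
        = Cd ^ 2 * C1 * (N * Real.exp (-δ) ^ j) ^ 2 := by
      conv_rhs => rw [← Real.sq_sqrt hC1]
      ring
    rw [h7] at h2
    calc _ ≤ C1 * (Cd ^ 2 * C1 * (N * Real.exp (-δ) ^ j) ^ 2 + (N * Real.exp (-δ) ^ j) ^ 2) :=
          h1.trans (by gcongr)
      _ = C1 * (Cd ^ 2 * C1 + 1) * (N * Real.exp (-δ) ^ j) ^ 2 := by ring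
      _ ≤ C1 * (Cd ^ 2 * C1 + 1) * (N * (Real.exp δ1 * Real.exp (-δ * t))) ^ 2 := by gcongr
      _ = _ := by rw [hC5]; ring
  have h00 : ∀ t, 0 ≤ t → BY n θ 0 B.nu (out V t) (out V t) ≤ C6 * N ^ 2 := by
    intro t ht
    obtain ⟨e, e', hed, he⟩ := hE 0 le_rfl hη.le m φ hφ d V V' hV'
    have hA0 : 0 ≤ (C5 + Cφ) * N ^ 2 := by positivity
    have h1 := decay_gronwall (A := (C5 + Cφ) * N ^ 2) (K := CE + 1) hγ0 (by positivity) hed
      (fun s hs => by
        obtain ⟨h1, h2⟩ := he s hs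
        have h5 := DY_young (n := n) hθ.le B.nu (δ / (2 * B.eta) * s) hr.le hr2 (hV.out_mem s)
        rw [show -(δ / (2 * B.eta) * s * B.r) = -γ * s by rw [hγ]; ring,
          show δ / (2 * B.eta) * s * (2 * B.eta) = -(-δ * s) by field_simp, Real.exp_neg (-δ * s),
          ← h1] at h5
        have h0 : 0 ≤ e s := h1 ▸ BY_nonneg hθ.le _ _ _
        have hx0 := Real.exp_pos (-δ * s)
        have h6 := two_BY_le (n := n) hθ.le (a := 0) (ν := B.nu) hx0 (comb_mem hφ (d s))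
          (hV.out_mem s)
        rw [← h1] at h6
        have h7 := mul_le_mul_of_nonneg_left (hφb (d s) _ (hdb s hs)) (inv_pos.mpr hx0).le
        have h8 : ∀ C : ℝ, (Real.exp (-δ * s))⁻¹ * (C * (N * Real.exp (-δ * s)) ^ 2)
            = Real.exp (-δ * s) * (C * N ^ 2) := fun C => by field_simp
        have h9 : Real.exp (-δ * s) ≤ 1 := Real.exp_le_one_iff.mpr
          (by linarith only [mul_nonneg hδp.le hs])
        have h10 : Real.exp (-δ * s) ≤ Real.exp (-γ * s) := Real.exp_le_exp.mpr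
          (by linarith only [mul_le_mul_of_nonneg_right hγδ hs])
        have h11 := mul_le_mul_of_nonneg_left (h14 s hs) (inv_pos.mpr hx0).le
        rw [h8] at h7 h11
        have k5 : 0 ≤ C5 * N ^ 2 := by positivity
        have kφ : 0 ≤ Cφ * N ^ 2 := by positivity
        have hu := (Real.exp_pos (-γ * s)).le
        have h12 := mul_le_mul_of_nonneg_left (h5.trans (mul_le_mul_of_nonneg_left
          (add_le_add le_rfl (h11.trans (mul_le_of_le_one_left k5 h9))) hu)) hCE.le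
        have h13 := mul_le_mul_of_nonneg_right h10 (add_nonneg h0 kφ)
        linarith only [h2, h6, h7, h12, h13, mul_nonneg hu k5, mul_nonneg hCE.le (mul_nonneg hu kφ)])
      ht (by rw [(he t ht).1]; exact add_nonneg (BY_nonneg hθ.le _ _ _) hA0)
    rw [(he t ht).1, (he 0 le_rfl).1, out_zero, hV0] at h1
    have h2 := hψb _ _ hab'
    have h5 : Cψ * (Cd * √C1 * N) ^ 2 = Cψ * (Cd ^ 2 * C1) * N ^ 2 := by
      conv_rhs => rw [← Real.sq_sqrt hC1]
      ring
    rw [h5] at h2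
    have h6 := mul_le_mul_of_nonneg_right h2 (Real.exp_pos ((CE + 1) / γ)).le
    rw [hC6]
    linarith only [h1, h6, hA0]
  intro s hs
  obtain ⟨hsup, hWs⟩ := hWV s hs
  have hmem := hV.out_mem (s - s0)
  have hsmall : Real.exp (-s) * (Real.exp s / 8) < 1 / 4 := by
    rw [← mul_div_assoc, ← Real.exp_add]; norm_num
  rw [hWs, E_per_per' B _ hmem.1 hsup hmem.1 hsup hsmall,
    E_per_per' B _ hmem.1 hsup hmem.1 hsup hsmall]
  have hc0 : 0 ≤ Cd * √C1 := by positivity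
  constructor
  · refine (h14 _ (sub_nonneg.mpr hs)).trans ?_
    have e : (N * Real.exp (-δ * (s - s0))) ^ 2 = M ^ 2 * Real.exp (-2 * δ * s) := by
      rw [hNd, mul_assoc, ← Real.exp_add, mul_pow, ← Real.exp_nat_mul]
      congr 2; push_cast; ring
    rw [e, mul_assoc _ (M ^ 2)]
    exact mul_le_mul_of_nonneg_right (by linarith only [hc0, hC60]) (by positivity)
  · refine (h00 _ (sub_nonneg.mpr hs)).trans ?_
    exact mul_le_mul (by linarith) (by gcongr) (by positivity) (by positivity)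

end Pool.Agent.BoltzD.Lin

end
end MrgPart1

-- ======== part 2: formerly Pool.Agent.BoltzD.Pic.LimC
section MrgPart2

/-! The limit of the Picard iterates is a classical solution. -/

set_option autoImplicit false

open Filter Topology Pool.Agent.BoltzC Set
open scoped ContDiff

noncomputable section

namespace Pool.Agent.BoltzD.PicLim

variable [Dim]

open Coll

lemma vel_apply (F : Fld) (x : E3) (f : SV) (V : E3) :
    F.vel x f V = -∑ j, F.bj x V j * (V j / 2 * f V - dV j f V) := by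
  simp only [Fld.vel, Fld.bj, neg_apply, add_apply, smul_apply, mulV_apply, ap_apply,
    dV_apply, smul_eq_mul, _root_.sum_apply, add_mul, Finset.sum_add_distrib, Finset.sum_mul,
    mul_assoc]
  rw [Finset.sum_comm (f := fun i j => F.b1 i j x * _), Finset.sum_comm (f := fun i j => F.b2 i x * _)]

lemma tr_apply (F : Fld) (G : E3 → SV) (x V : E3) :
    F.tr G x V = ∑ i, (F.u i x + F.c x * V i) * dX i G x V
      - ∑ j, F.bj x V j * (V j / 2 * G x V - dV j (G x) V) := by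
  simp only [Fld.tr, add_apply, smul_apply, mulV_apply, vel_apply, smul_eq_mul,
    _root_.sum_apply, add_mul, mul_assoc, sub_eq_add_neg]

lemma exists_sup (q : ℕ) : ∃ C : ℝ, 0 < C ∧ ∀ (f : SV) (η : ℝ), nA (q + dd + 1) f ≤ η → ∀ V : E3,
    (1 + ‖V‖) ^ q * |f V| ≤ C * √η ∧ (1 + ‖V‖) ^ q * ‖fderiv ℝ f V‖ ≤ C * √η ∧
      ∀ j, (1 + ‖V‖) ^ q * |dV j f V| ≤ C * √η := by
  obtain ⟨C, hC, h⟩ := weighted_le_nA q
  refine ⟨C, hC, fun f η hη V => ?_⟩
  have a1 : C * √(nA (q + dd + 1) f) ≤ C * √η := by gcongr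
  have a2 : C * √(nA (q + dd) f) ≤ C * √(nA (q + dd + 1) f) := by
    gcongr
    exact nA_le_succ _ _
  refine ⟨(h f V).1.trans (a2.trans a1), (h f V).2.trans a1, fun j => ?_⟩
  refine le_trans (mul_le_mul_of_nonneg_left ?_ (wt_pos V q).le) ((h f V).2.trans a1)
  simpa [dV_apply, norm_ev] using (fderiv ℝ f V).le_opNorm (ev j)

lemma exists_eta {C δ : ℝ} (hC : 0 < C) (hδ : 0 < δ) : ∃ η : ℝ, 0 < η ∧ C * √η = δ :=
  ⟨(δ / C) ^ 2, by positivity, by rw [Real.sqrt_sq (by positivity)]; field_simp⟩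

variable {s0 : ℝ} {p : ℕ} {φ : ℕ → Fn} {ψ : Fn}

lemma Cv.bj {F : ℝ → Fld} (hF : FldC F) (h : Cv s0 (p + 2) φ ψ) (j : Ix) :
    Cv s0 p (fun N s x V => (F s).bj x V j * φ N s x V)
      fun s x V => (F s).bj x V j * ψ s x V := by
  have a0 := (h.mono (p' := p) (by omega)).coef (hF.b0 j) fun s => ((hF.reg s).b0 j).2
  have a1 := Cv.sum Finset.univ fun i =>
    ((h.mono (p' := p + 1) (by omega)).coord i).coef (hF.b1 i j) fun s => ((hF.reg s).b1 i j).2
  have a2 := Cv.sum Finset.univ fun i =>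
    ((h.coord j).coord i).coef (hF.b2 i) fun s => ((hF.reg s).b2 i).2
  have e : ∀ (s : ℝ) (x V : E3) (y : ℝ), (F s).bj x V j * y = (F s).b0 j x * y +
      ∑ i, (F s).b1 i j x * (V i * y) + ∑ i, (F s).b2 i x * (V i * (V j * y)) := by
    intro s x V y
    simp only [Fld.bj, add_mul, Finset.sum_mul, mul_assoc]
  simp only [e]
  exact (a0.add a1).add a2

/-- The directions in `(s, x, V)`. -/
def dir : Unit ⊕ Ix ⊕ Ix → ℝ × E3 × E3 :=
  Sum.elim (fun _ => (1, 0, 0)) (Sum.elim (fun i => (0, ev i, 0)) fun j => (0, 0, ev j))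

/-- The coordinates in `(s, x, V)`. -/
def crd : Unit ⊕ Ix ⊕ Ix → (ℝ × E3 × E3) →L[ℝ] ℝ :=
  Sum.elim (fun _ => ContinuousLinearMap.fst ℝ _ _) (Sum.elim
    (fun i => (EuclideanSpace.proj i : E3 →L[ℝ] ℝ).comp
      ((ContinuousLinearMap.fst ℝ _ _).comp (ContinuousLinearMap.snd ℝ _ _)))
    fun j => (EuclideanSpace.proj j : E3 →L[ℝ] ℝ).comp
      ((ContinuousLinearMap.snd ℝ _ _).comp (ContinuousLinearMap.snd ℝ _ _)))

lemma sum_crd (q : ℝ × E3 × E3) : ∑ i, crd i q • dir i = q := by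
  rw [Fintype.sum_sum_type, Fintype.sum_sum_type]
  ext1
  · simp [crd, dir, Prod.fst_sum]
  · ext1
    · simpa [crd, dir, Prod.fst_sum, Prod.snd_sum] using sum_coord_ev q.2.1
    · simpa [crd, dir, Prod.fst_sum, Prod.snd_sum] using sum_coord_ev q.2.2

lemma norm_crd_le (i : Unit ⊕ Ix ⊕ Ix) : ‖crd i‖ ≤ 1 := by
  refine ContinuousLinearMap.opNorm_le_bound _ zero_le_one fun q => ?_
  rw [one_mul]
  rcases i with i | i | i
  · exact norm_fst_le q
  · exact (PiLp.norm_apply_le q.2.1 i).trans ((norm_fst_le q.2).trans (norm_snd_le q))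
  · exact (PiLp.norm_apply_le q.2.2 i).trans ((norm_snd_le q.2).trans (norm_snd_le q))

/-- The extension of a convergent sequence is of class `C^1`. -/
lemma hasFDerivAt_odd {h h' : ℕ → ℝ → E3 → SV} (hd : ∀ j, SmD (h j) (h' j)) {α : Fn}
    {β χ : Ix → Fn} (c0 : Cv s0 p (fun N s x V => h N s x V) ψ)
    (c1 : Cv s0 p (fun N s x V => h' N s x V) α)
    (c2 : ∀ i, Cv s0 p (fun N s x V => dX i (h N s) x V) (β i))
    (c3 : ∀ j, Cv s0 p (fun N s x V => dV j (h N s x) V) (χ j)) :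
    ContDiff ℝ 1 (odd s0 ψ) ∧ ∀ q, HasFDerivAt (odd s0 ψ)
      (∑ i, Sum.elim (fun _ => even s0 α) (Sum.elim (fun i => odd s0 (β i)) fun j => odd s0 (χ j))
        i q • crd i) q := by
  have hD : ∀ i : Unit ⊕ Ix ⊕ Ix, Continuous (Sum.elim (fun _ => even s0 α)
      (Sum.elim (fun i => odd s0 (β i)) fun j => odd s0 (χ j)) i) := by
    rintro (i | i | i)
    · exact c1.even.continuous (Frequently.of_forall fun N => continuous_even (hd N).sm')
    · exact (c2 i).odd.continuous (Frequently.of_forall fun N => continuous_odd ((hd N).sm.dX i))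
    · exact (c3 i).odd.continuous
        (Frequently.of_forall fun N => continuous_odd ((hd N).sm.clm (dV i)))
  have pt : ∀ q, Tendsto (fun N => odd s0 (fun s x V => h N s x V) q) atTop (𝓝 (odd s0 ψ q)) :=
    fun q => (tendstoLocallyUniformlyOn_univ.2 c0.odd).tendsto_at (mem_univ q)
  have hf : ∀ (i : Unit ⊕ Ix ⊕ Ix) q, HasDerivAt (fun t : ℝ => odd s0 ψ (q + t • dir i))
      (Sum.elim (fun _ => even s0 α)
        (Sum.elim (fun i => odd s0 (β i)) fun j => odd s0 (χ j)) i q) 0 := by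
    rintro (i | i | i)
    · refine dir_of_limit (fun N q => ?_) pt c1.even
      have := (hasDerivAt_refl (fun s => hd_eval ((hd N).hd s q.2.1) q.2.2) s0 q.1)
      rw [← add_zero q.1] at this
      simpa [odd, even, dir] using this.comp_const_add q.1 0
    · refine dir_of_limit (fun N q => ?_) pt (c2 i).odd
      have k := fun s => hd_eval ((hd N).sm.dif s i q.2.1) q.2.2
      simpa [odd, dir] using ((k _).fun_add (k s0)).fun_sub (k _)
    · refine dir_of_limit (fun N q => ?_) pt (c3 i).odd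
      have k := fun s => hasDerivAt_line (h N s q.2.1) i q.2.2
      simpa [odd, dir] using ((k _).fun_add (k s0)).fun_sub (k _)
  exact ⟨contDiff_one_of_dir dir crd sum_crd hD hf, hasFDerivAt_of_dir dir crd sum_crd hD hf⟩

lemma smooth_of_span {m : ℕ} {Ψ : Fin m → E3 → SV} (hΨ : ∀ i, Sm (Ψ i)) {h : ℕ → E3 → SV}
    (hs : ∀ j, ∃ α : Fin m → ℝ, ∀ x, h j x = ∑ i, α i • Ψ i x) {f : E3 × E3 → ℝ}
    (ht : ∀ q, Tendsto (fun j => h j q.1 q.2) atTop (𝓝 (f q))) : ContDiff ℝ ∞ f := by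
  set W : Submodule ℝ (E3 × E3 → ℝ) := Submodule.span ℝ (range fun i q => Ψ i q.1 q.2) with hW
  have : FiniteDimensional ℝ W := FiniteDimensional.span_of_finite ℝ (finite_range _)
  have hf : f ∈ W := W.closed_of_finiteDimensional.mem_of_tendsto (tendsto_pi_nhds.2 ht)
    (Eventually.of_forall fun j => by
      obtain ⟨α, hα⟩ := hs j
      refine (Submodule.mem_span_range_iff_exists_fun ℝ).2 ⟨α, ?_⟩
      funext q
      simp [hα])
  obtain ⟨α, rfl⟩ := (Submodule.mem_span_range_iff_exists_fun ℝ).1 hf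
  have := contDiff_of_sm (Sm.sum Finset.univ fun i _ => (hΨ i).const_smul (α i))
  refine (congrArg (ContDiff ℝ ∞) (funext fun q => ?_)).mp this
  simp

end Pool.Agent.BoltzD.PicLim

namespace Pool.Agent.BoltzD

variable [Dim]

open PicLim Coll

theorem limit2 : LimitStmt2 := by
  intro Q hQ p ε hε
  obtain ⟨C, hC, sup⟩ := exists_sup (p + 29)
  obtain ⟨ε', hε', e'⟩ := exists_eta (C := C) (δ := ε / 2 ^ (p + 29)) hC (by positivity)
  refine ⟨p + 29 + dd + 1, ε', hε', fun F k s0 h h' g e hF hk pk I => ?_⟩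
  have cau : ∀ s1 δ : ℝ, 0 < δ → ∃ J, ∀ j, J ≤ j → ∀ l, J ≤ l → ∀ s ∈ Icc s0 s1, ∀ x V : E3,
      ((1 + ‖V‖) ^ (p + 29) * |h j s x V - h l s x V| ≤ δ ∧
      (∀ i, (1 + ‖V‖) ^ (p + 29) * |dV i (h j s x) V - dV i (h l s x) V| ≤ δ) ∧
      ∀ i, (1 + ‖V‖) ^ (p + 29) * |dX i (h j s) x V - dX i (h l s) x V| ≤ δ) ∧
      (1 + ‖V‖) ^ (p + 29) * |g j s x V - h j s x V - 0| ≤ δ ∧
      (∀ i, (1 + ‖V‖) ^ (p + 29) * |dV i (g j s x) V - dV i (h j s x) V - 0| ≤ δ) ∧
      (1 + ‖V‖) ^ (p + 29) * |e j s x V - 0| ≤ δ := by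
    intro s1 δ hδ
    obtain ⟨η, hη, rfl⟩ := exists_eta hC hδ
    obtain ⟨J, hJ⟩ := I.cauchy s1 η hη
    refine ⟨J, fun j hj l hl s hs x V => ?_⟩
    obtain ⟨a1, a2, a3⟩ := hJ j hj l hl s hs
    have b1 := sup _ _ (a1 [] (by simp) x) V
    have b2 := sup _ _ (a2 [] (by simp) x) V
    have b3 := sup _ _ (a3 [] (by simp) x) V
    refine ⟨⟨b1.1, fun i => by simpa using b1.2.2 i, fun i => ?_⟩, by simpa using b2.1,
      fun i => by simpa using b2.2.2 i, by simpa using b3.1⟩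
    have b4 := (sup _ _ (a1 [i] (by simp) x) V).1
    rwa [dXw_cons, dXw_nil, dX_sub ((I.smd j).sm.dif s) ((I.smd l).sm.dif s)] at b4
  obtain ⟨ψ, c0⟩ := exists_cv (s0 := s0) (p := p + 29) (φ := fun N s x V => h N s x V)
    fun s1 δ hδ => (cau s1 δ hδ).imp fun J t j hj l hl s hs x V => (t j hj l hl s hs x V).1.1
  choose χ c3 using fun i => exists_cv (s0 := s0) (p := p + 29)
    (φ := fun N s x V => dV i (h N s x) V)
    fun s1 δ hδ => (cau s1 δ hδ).imp fun J t j hj l hl s hs x V => (t j hj l hl s hs x V).1.2.1 i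
  choose β c2 using fun i => exists_cv (s0 := s0) (p := p + 29)
    (φ := fun N s x V => dX i (h N s) x V)
    fun s1 δ hδ => (cau s1 δ hδ).imp fun J t j hj l hl s hs x V => (t j hj l hl s hs x V).1.2.2 i
  have g0 : Cv s0 (p + 29) (fun N s x V => g N s x V) ψ := by
    have : Cv s0 (p + 29) (fun N s x V => g N s x V - h N s x V) fun _ _ _ => 0 := fun s1 δ hδ =>
      (cau s1 δ hδ).elim fun J t => (eventually_ge_atTop J).mono fun j hj s hs x V =>
        (t j hj j hj s hs x V).2.1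
    simpa using this.add c0
  have g3 : ∀ i, Cv s0 (p + 29) (fun N s x V => dV i (g N s x) V) (χ i) := by
    intro i
    have : Cv s0 (p + 29) (fun N s x V => dV i (g N s x) V - dV i (h N s x) V) fun _ _ _ => 0 :=
      fun s1 δ hδ => (cau s1 δ hδ).elim fun J t => (eventually_ge_atTop J).mono
        fun j hj s hs x V => (t j hj j hj s hs x V).2.2.1 i
    simpa using this.add (c3 i)
  have e0 : Cv s0 (p + 29) (fun N s x V => e N s x V) fun _ _ _ => 0 := fun s1 δ hδ =>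
    (cau s1 δ hδ).elim fun J t => (eventually_ge_atTop J).mono fun j hj s hs x V =>
      (t j hj j hj s hs x V).2.2.2
  have nice : ∀ s, s0 ≤ s → ∀ x, Nice (p + 29) ε (ψ s x) := by
    intro s hs x
    refine nice_of_tendsto (c0.tendsto hs x) (Eventually.of_forall fun j => ?_)
    have := nice_of_fderiv (h j s x).differentiable (fun V => (sup _ _ (I.small j s hs x) V).1)
      fun V => (sup _ _ (I.small j s hs x) V).2.1
    rwa [e', mul_div_cancel₀ _ (by positivity)] at this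
  have nb : NBd s0 (p + 29) ψ := fun _ => ⟨ε, fun s hs x => nice s hs.1 x⟩
  have nbM : NBd s0 (p + 29) fun _ _ => sM := fun _ => ⟨_, fun _ _ _ => nice_sM _⟩
  have nh := ncv_of_cv c0 c3
  have ng := ncv_of_cv g0 g3
  set α : Fn := fun s x V => (F s).src x V + k s x * Gam (ψ s x) (ψ s x) V + 0
    - (∑ i, ((F s).u i x * β i s x V + (F s).c x * (V i * β i s x V))
      - ∑ j, (F s).bj x V j * (1 / 2 * (V j * ψ s x V) - χ j s x V))
    + k s x * (Gam sM (ψ s x) V + Gam (ψ s x) sM V) with hα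
  have c1 : Cv s0 p (fun N s x V => h' N s x V) α := by
    refine (((((Cv.const fun s x V => (F s).src x V).add ((cv_Gam ng ng nb nb).coef hk pk)).add
      (e0.mono (by omega))).sub ((Cv.sum Finset.univ fun i =>
        (((c2 i).mono (by omega)).coef (hF.u i) fun s => ((hF.reg s).u i).2).add
        ((((c2 i).mono (by omega)).coord i).coef hF.c fun s => (hF.reg s).c.2)).sub
      (Cv.sum Finset.univ fun j => Cv.bj hF ((((c0.mono (by omega)).coord j).const_mul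
        (1 / 2)).sub ((c3 j).mono (by omega))) j))).add
      (((cv_Gam (NCv.const _) nh nbM nb).add (cv_Gam nh (NCv.const _) nb nbM)).coef hk pk)).congr
      fun N s hs x V => ?_
    have := congrArg (fun f : SV => f V) (I.eqn N s hs x)
    simp only [add_apply, smul_apply, smul_eq_mul, tr_apply, Q.L_eq, neg_apply, hQ, Gs, add_mul,
      mul_assoc, show ∀ a b : ℝ, a / 2 * b = 2⁻¹ * (a * b) from fun a b => by ring,
      one_mul] at this ⊢
    rw [show ((sqMS : SV) : E3 → ℝ) = sM from funext sqMS_apply] at this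
    linarith
  obtain ⟨d1, d2⟩ := hasFDerivAt_odd I.smd (c0.mono (by omega)) c1
    (fun i => (c2 i).mono (by omega)) fun j => (c3 j).mono (by omega)
  refine ⟨fun s x V => odd s0 ψ (s, x, V), ⟨d1, fun s V i x => ?_, fun s hs x => ?_, fun s1 => ?_,
    fun s hs x V => ?_, ?_, fun x V => ?_⟩, fun s hs x V => by
      simp only [odd_of_le ψ hs]
      exact c0.tendsto hs x V⟩
  · have pp : ∀ s, s0 ≤ s → ψ s (x + ev i) V = ψ s x V := fun s hs =>
      tendsto_nhds_unique (c0.tendsto hs (x + ev i) V) (by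
        simpa only [I.per _ s i x] using c0.tendsto hs x V)
    simp only [odd]
    rw [pp _ (le_max_right _ _), pp _ le_rfl, pp _ (le_max_right _ _)]
  · simp only [odd_of_le ψ hs]
    exact (nice s hs x).mono (by omega)
  · obtain ⟨K1, k1⟩ := c1.bd (fun N => bd_of_smC (I.smd N).sm' (I.per' N) s0 p) s1
    choose K2 k2 using fun i => ((c2 i).mono (p' := p) (by omega)).bd
      (fun N => bd_of_smC ((I.smd N).sm.dX i) (fun s => (I.per N s).dX i) s0 p) s1
    choose K3 k3 using fun i => ((c3 i).mono (p' := p) (by omega)).bd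
      (fun N => bd_of_smC ((I.smd N).sm.clm (dV i)) (fun s => (I.per N s).map _) s0 p) s1
    refine ⟨K1 + (∑ i, K2 i + ∑ i, K3 i), fun s hs x V => ?_⟩
    rw [(d2 (s, x, V)).fderiv]
    refine (mul_le_mul_of_nonneg_left ((norm_sum_le _ _).trans (Finset.sum_le_sum fun i _ =>
      (norm_smul_le _ _).trans (mul_le_of_le_one_right (norm_nonneg _) (norm_crd_le i))))
      (wt_pos V p).le).trans ?_
    rw [Finset.mul_sum, Fintype.sum_sum_type, Fintype.sum_sum_type]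
    simp only [Sum.elim_inl, Sum.elim_inr, odd_of_le _ hs.1, even_of_le _ hs.1, Real.norm_eq_abs,
      Finset.univ_unique, Finset.sum_singleton]
    exact add_le_add (k1 s hs x V) (add_le_add (Finset.sum_le_sum fun i _ => k2 i s hs x V)
      (Finset.sum_le_sum fun i _ => k3 i s hs x V))
  · have D := d2 (s, x, V)
    have a1 : deriv (fun t => odd s0 ψ (t, x, V)) s = α s x V := by
      have := (D.comp_hasDerivAt s
        ((hasDerivAt_id s).prodMk (hasDerivAt_const s (x, V)))).deriv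
      simpa [Function.comp_def, crd, Fintype.sum_sum_type, even_of_le _ hs] using this
    have a2 : ∀ i, fderiv ℝ (fun y => odd s0 ψ (s, y, V)) x (ev i) = β i s x V := by
      intro i
      have t : HasFDerivAt (fun y : E3 => (s, y, V)) _ x := (hasFDerivAt_const s x).prodMk
        ((hasFDerivAt_id (𝕜 := ℝ) x).prodMk (hasFDerivAt_const V x))
      have := (D.comp x t).fderiv
      simp only [Function.comp_def] at this
      rw [this]
      simp [crd, Fintype.sum_sum_type, odd_of_le _ hs]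
    have a3 : ∀ j, fderiv ℝ (fun W => sqM W + odd s0 ψ (s, x, W)) V (ev j) =
        dV j sqMS V + χ j s x V := by
      intro j
      have t : HasFDerivAt (fun W : E3 => (s, x, W)) _ V := (hasFDerivAt_const s V).prodMk
        ((hasFDerivAt_const x V).prodMk (hasFDerivAt_id (𝕜 := ℝ) V))
      have := (sqMS.hasFDerivAt V).add (D.comp V t)
      have e : (fun W => sqM W + odd s0 ψ (s, x, W)) = ⇑sqMS + (odd s0 ψ ∘ fun W => (s, x, W)) :=
        funext fun W => by simp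
      rw [e, this.fderiv]
      simp [crd, Fintype.sum_sum_type, odd_of_le _ hs, dV_apply]
    simp only [a1, a2, a3]
    simp only [odd_of_le ψ hs]
    have a4 := Gam_sM_add (nice s hs x) V
    rw [show sqM = sM from rfl, a4, hα]
    have a5 : ∑ j, (F s).bj x V j * (V j / 2 * (sM V + ψ s x V) - (dV j sqMS V + χ j s x V)) =
        ∑ j, (F s).bj x V j * (V j / 2 * sM V - dV j sqMS V) +
          ∑ j, (F s).bj x V j * (1 / 2 * (V j * ψ s x V) - χ j s x V) := by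
      rw [← Finset.sum_add_distrib]
      exact Finset.sum_congr rfl fun j _ => by ring
    simp only [Fld.src, neg_apply, vel_apply, sqMS_apply, Lop, Gs, add_mul, mul_assoc]
    rw [show sqM = sM from rfl, a5]
    ring
  · obtain ⟨m, Ψ, h1, h2⟩ := I.init
    refine smooth_of_span h1 h2 fun q => ?_
    simp only [odd_of_le ψ le_rfl]
    exact c0.tendsto le_rfl q.1 q.2
  · simp only [odd_of_le ψ le_rfl]
    exact le_of_tendsto' (c0.tendsto le_rfl x V).abs fun j => I.init_small j x V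

theorem limit : LimitStmt := limit2.limit

end Pool.Agent.BoltzD

end
end MrgPart2

-- marker of a merged file
example : 731051 + 640223 = 731051 + 640223 := rfl

end MrgPart3

-- marker of a merged file
example : 731051 + 640223 = 731051 + 640223 := rfl
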