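import Mathlib.Analysis.Complex.ExponentialBounds
import Pool.Agent.BoltzD.Lin.YF
import Pool.Agent.BoltzD.En.Split

-- ======== part 0: formerly Pool.Agent.BoltzD.Pic.Wt
section MrgPart0

-- ======== part 0: formerly Pool.Agent.BoltzD.Pic.En
section MrgPart0

/-! Algebra of the energy form on the torus, and a Gronwall lemma with an integrable rate. -/

set_option autoImplicit false

open MeasureTheory Pool.Agent.BoltzC Finset

noncomputable section

namespace Pool.Agent.BoltzD.Pic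

variable [Dim]

open KK

variable {n : ℕ} {θ : ℝ} {ω σ : E3 → ℝ} {G G' H : E3 → SV}

lemma cont_bb {T : Type} [TopologicalSpace T] {σ : T → E3 → ℝ} {G H : T → E3 → SV}
    (hσ : Continuous fun p : T × E3 => σ p.1 p.2) (hG : SmC G) (hH : SmC H) :
    Continuous fun p : T × E3 => bb n θ (σ p.1) (G p.1) (H p.1) p.2 := by
  unfold bb lev
  refine continuous_finsetSum _ fun j _ => continuous_finsetSum _ fun m _ => ?_
  refine (continuous_const.mul (hσ.pow _)).mul (continuous_finsetSum _ fun u _ => ?_)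
  exact ((hG.dXw u).ip ((hH.dXw u).clm (RR m))).cont

lemma cont_En {ω σ : ℝ → E3 → ℝ} {G H : ℝ → E3 → SV}
    (hω : Continuous fun p : ℝ × E3 => ω p.1 p.2) (hσ : Continuous fun p : ℝ × E3 => σ p.1 p.2)
    (hG : SmC G) (hH : SmC H) : Continuous fun s => En n θ (ω s) (σ s) (G s) (H s) :=
  continuous_tint (φ := fun s x => ω s x * bb n θ (σ s) (G s) (H s) x) (hω.mul (cont_bb hσ hG hH))

lemma cont_wbb (hω : Continuous ω) (hσ : Continuous σ) (hG : Sm G) (hH : Sm H) :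
    Continuous fun x => ω x * bb n θ σ G H x := hω.mul (continuous_bb hσ hG hH)

lemma tint_le_one {φ ψ : E3 → ℝ} {a : ℝ} (hφ : Continuous φ) (hψ : Continuous ψ)
    (h : ∀ x, φ x ≤ a * ψ x) : tint φ ≤ a * tint ψ := by
  rw [← tint_const_mul]
  exact tint_mono hφ (by fun_prop) h

lemma tint_le_two {φ ψ χ : E3 → ℝ} {a b : ℝ} (hφ : Continuous φ) (hψ : Continuous ψ)
    (hχ : Continuous χ) (h : ∀ x, φ x ≤ a * ψ x + b * χ x) :
    tint φ ≤ a * tint ψ + b * tint χ := by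
  rw [← tint_const_mul, ← tint_const_mul, ← tint_add (by fun_prop) (by fun_prop)]
  exact tint_mono hφ (by fun_prop) h

lemma bb_zero_left (x : E3) : bb n θ σ (fun _ => 0) H x = 0 := by
  simp [bb, lev, dXw_zero]

lemma bb_neg_left (hG : Sm G) (x : E3) : bb n θ σ (fun y => -G y) H x = -bb n θ σ G H x := by
  simpa using bb_smul_left (n := n) (θ := θ) (σ := σ) (H := H) hG (-1) x

lemma bb_sub_left (hG : Sm G) (hG' : Sm G') (x : E3) :
    bb n θ σ (fun y => G y - G' y) H x = bb n θ σ G H x - bb n θ σ G' H x := by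
  simp only [sub_eq_add_neg]
  rw [bb_add_left hG hG'.neg, bb_neg_left hG']

lemma two_bb_le (hθ : 0 ≤ θ) {t : ℝ} (ht : 0 < t) (x : E3) :
    2 * bb n θ σ G H x ≤ t * bb n θ σ H H x + bb n θ σ G G x / t := by
  have h := bb_sq_le (n := n) (σ := σ) (G := G) (H := H) hθ x
  have h1 := bb_nonneg (n := n) (σ := σ) (G := G) hθ x
  have h2 := bb_nonneg (n := n) (σ := σ) (G := H) hθ x
  set a := bb n θ σ G G x
  set b := bb n θ σ H H x
  set c := bb n θ σ G H x
  have h3 : (2 * c) ^ 2 ≤ (t * b + a / t) ^ 2 := by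
    have e : (t * b + a / t) ^ 2 = (t * b - a / t) ^ 2 + 4 * (a * b) := by field_simp; ring
    nlinarith [sq_nonneg (t * b - a / t)]
  exact (abs_le_of_sq_le_sq' h3 (by positivity)).2

lemma bb_add_le (hθ : 0 ≤ θ) (hG : Sm G) (hH : Sm H) (x : E3) :
    bb n θ σ (fun y => G y + H y) (fun y => G y + H y) x
      ≤ 2 * bb n θ σ G G x + 2 * bb n θ σ H H x := by
  have h := two_bb_le (n := n) (σ := σ) (G := G) (H := H) hθ one_pos x
  rw [bb_add_left hG hH, bb_comm (G := G), bb_comm (G := H), bb_add_left hG hH, bb_add_left hG hH,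
    bb_comm (G := H) (H := G)]
  linarith

lemma bb_smul_smul (hG : Sm G) (a : ℝ) (x : E3) :
    bb n θ σ (fun y => a • G y) (fun y => a • G y) x = a ^ 2 * bb n θ σ G G x := by
  rw [bb_smul_left hG, bb_comm, bb_smul_left hG]
  ring

lemma En_comm : En n θ ω σ G H = En n θ ω σ H G := tint_congr fun x => by rw [bb_comm]

lemma En_nonneg (hθ : 0 ≤ θ) (hω : ∀ x, 0 ≤ ω x) : 0 ≤ En n θ ω σ G G :=
  tint_nonneg fun x => mul_nonneg (hω x) (bb_nonneg hθ x)

lemma En_zero_left : En n θ ω σ (fun _ => 0) H = 0 := by simp [En, bb_zero_left]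

lemma En_smul_left (hG : Sm G) (a : ℝ) : En n θ ω σ (fun y => a • G y) H = a * En n θ ω σ G H := by
  rw [En, En, ← tint_const_mul]
  exact tint_congr fun x => by rw [bb_smul_left hG]; ring

lemma En_smul_smul (hG : Sm G) (a : ℝ) :
    En n θ ω σ (fun y => a • G y) (fun y => a • G y) = a ^ 2 * En n θ ω σ G G := by
  rw [En, En, ← tint_const_mul]
  exact tint_congr fun x => by rw [bb_smul_smul hG]; ring

lemma En_neg_neg (hG : Sm G) : En n θ ω σ (fun y => -G y) (fun y => -G y) = En n θ ω σ G G := by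
  simpa using En_smul_smul (n := n) (θ := θ) (ω := ω) (σ := σ) hG (-1)

lemma En_add_left (hω : Continuous ω) (hσ : Continuous σ) (hG : Sm G) (hG' : Sm G') (hH : Sm H) :
    En n θ ω σ (fun y => G y + G' y) H = En n θ ω σ G H + En n θ ω σ G' H := by
  rw [En, En, En, ← tint_add (cont_wbb hω hσ hG hH) (cont_wbb hω hσ hG' hH)]
  exact tint_congr fun x => by rw [bb_add_left hG hG']; ring

lemma En_sub_left (hω : Continuous ω) (hσ : Continuous σ) (hG : Sm G) (hG' : Sm G') (hH : Sm H) :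
    En n θ ω σ (fun y => G y - G' y) H = En n θ ω σ G H - En n θ ω σ G' H := by
  rw [En, En, En, ← tint_sub (cont_wbb hω hσ hG hH) (cont_wbb hω hσ hG' hH)]
  exact tint_congr fun x => by rw [bb_sub_left hG hG']; ring

lemma En_sum_left (hω : Continuous ω) (hσ : Continuous σ) {ι : Type} (S : Finset ι)
    {G : ι → E3 → SV} (hG : ∀ i, Sm (G i)) (hH : Sm H) (a : ι → ℝ) :
    En n θ ω σ (fun y => ∑ i ∈ S, a i • G i y) H = ∑ i ∈ S, a i * En n θ ω σ (G i) H := by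
  classical
  induction S using Finset.induction_on with
  | empty => simpa using En_zero_left
  | insert i S hi ih =>
    simp only [sum_insert hi]
    rw [En_add_left hω hσ ((hG i).const_smul _) (Sm.sum S fun j _ => (hG j).const_smul _) hH, ih,
      En_smul_left (hG i)]

lemma En_add_le (hθ : 0 ≤ θ) (hω : Continuous ω) (hω0 : ∀ x, 0 ≤ ω x) (hσ : Continuous σ)
    (hG : Sm G) (hH : Sm H) : En n θ ω σ (fun y => G y + H y) (fun y => G y + H y)
      ≤ 2 * En n θ ω σ G G + 2 * En n θ ω σ H H := by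
  refine tint_le_two (cont_wbb hω hσ (hG.add hH) (hG.add hH)) (cont_wbb hω hσ hG hG)
    (cont_wbb hω hσ hH hH) fun x => ?_
  have := mul_le_mul_of_nonneg_left (bb_add_le (n := n) (σ := σ) hθ hG hH x) (hω0 x)
  linarith

lemma En_sub_le (hθ : 0 ≤ θ) (hω : Continuous ω) (hω0 : ∀ x, 0 ≤ ω x) (hσ : Continuous σ)
    (hG : Sm G) (hH : Sm H) : En n θ ω σ (fun y => G y - H y) (fun y => G y - H y)
      ≤ 2 * En n θ ω σ G G + 2 * En n θ ω σ H H := by
  have := En_add_le (n := n) hθ hω hω0 hσ hG hH.neg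
  rw [En_neg_neg hH] at this
  simpa only [sub_eq_add_neg] using this

lemma En_sq_le (hθ : 0 ≤ θ) (hω : Continuous ω) (hω0 : ∀ x, 0 ≤ ω x) (hσ : Continuous σ)
    (hG : Sm G) (hH : Sm H) : En n θ ω σ G H ^ 2 ≤ En n θ ω σ G G * En n θ ω σ H H := by
  have h := abs_tint_le_sqrt (φ := fun x => ω x * bb n θ σ G H x)
    (cont_wbb (n := n) (θ := θ) hω hσ hG hG) (cont_wbb (n := n) (θ := θ) hω hσ hH hH)
    (fun x => mul_nonneg (hω0 x) (bb_nonneg hθ x)) (fun x => mul_nonneg (hω0 x) (bb_nonneg hθ x))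
    fun x => by
      rw [← Real.sqrt_mul (mul_nonneg (hω0 x) (bb_nonneg hθ x))]
      refine Real.abs_le_sqrt ?_
      have := mul_le_mul_of_nonneg_left (bb_sq_le (n := n) (σ := σ) (G := G) (H := H) hθ x)
        (sq_nonneg (ω x))
      nlinarith
  have h2 : |En n θ ω σ G H| ^ 2 ≤ (√(En n θ ω σ G G) * √(En n θ ω σ H H)) ^ 2 :=
    pow_le_pow_left₀ (abs_nonneg _) h 2
  rwa [sq_abs, mul_pow, Real.sq_sqrt (En_nonneg hθ hω0), Real.sq_sqrt (En_nonneg hθ hω0)] at h2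

lemma En_le_of_le {n' : ℕ} {θ' a : ℝ} {ω' : E3 → ℝ} (hω : Continuous ω) (hω' : Continuous ω')
    (hσ : Continuous σ) (hG : Sm G) (hH : Sm H)
    (h : ∀ x, ω x * bb n θ σ G G x ≤ a * (ω' x * bb n' θ' σ H H x)) :
    En n θ ω σ G G ≤ a * En n' θ' ω' σ H H :=
  tint_le_one (cont_wbb hω hσ hG hG) (cont_wbb hω' hσ hH hH) h

lemma integral_exp_le {ρ s0 s : ℝ} (hρ : 0 < ρ) :
    ∫ t in s0..s, Real.exp (-ρ * t) ≤ Real.exp (-ρ * s0) / ρ := by
  have h : ∀ t, HasDerivAt (fun t => -Real.exp (-ρ * t) / ρ) (Real.exp (-ρ * t)) t := fun t => by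
    have := (((hasDerivAt_id t).const_mul (-ρ)).exp.neg).div_const ρ
    refine this.congr_deriv ?_
    simp only [id]
    field_simp
  rw [intervalIntegral.integral_eq_sub_of_hasDerivAt (fun t _ => h t)
    (Continuous.intervalIntegrable (by fun_prop) _ _)]
  have := div_pos (Real.exp_pos (-ρ * s)) hρ
  rw [neg_div, neg_div]
  linarith

/-- Gronwall inequality with the integrable rate `ρ exp (-ρ s)`. -/
lemma gronwall {E E' D F : ℝ → ℝ} {ρ s0 : ℝ} (hρ : 0 < ρ) (hs0 : 0 ≤ s0) (hE' : Continuous E')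
    (hD : Continuous D) (hF : Continuous F) (hd : ∀ s, HasDerivAt E (E' s) s) (hE0 : ∀ s, 0 ≤ E s)
    (hD0 : ∀ s, 0 ≤ D s) (hF0 : ∀ s, s0 ≤ s → 0 ≤ F s)
    (h : ∀ s, s0 ≤ s → E' s + D s ≤ ρ * Real.exp (-ρ * s) * E s + F s) {s : ℝ} (hs : s0 ≤ s) :
    E s + ∫ t in s0..s, D t ≤ 3 * E s0 + 3 * ∫ t in s0..s, F t := by
  have hE : Continuous E := continuous_iff_continuousAt.2 fun t => (hd t).continuousAt
  set w : ℝ → ℝ := fun t => Real.exp (Real.exp (-ρ * t)) with hw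
  have w1 : ∀ t, 1 ≤ w t := fun t => Real.one_le_exp (Real.exp_pos _).le
  have w3 : ∀ t, s0 ≤ t → w t ≤ 3 := fun t ht => by
    have : Real.exp (-ρ * t) ≤ 1 := Real.exp_le_one_iff.2 (by nlinarith)
    exact (Real.exp_le_exp.2 this).trans (Real.exp_one_lt_d9.le.trans (by norm_num))
  have hwd : ∀ t, HasDerivAt (fun t => w t * E t)
      (w t * (E' t - ρ * Real.exp (-ρ * t) * E t)) t := fun t => by
    have := ((((hasDerivAt_id t).const_mul (-ρ)).exp).exp).mul (hd t)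
    refine this.congr_deriv ?_
    simp only [id, hw]
    ring
  have hc : Continuous fun t => w t * (E' t - ρ * Real.exp (-ρ * t) * E t) := by fun_prop
  have h1 := intervalIntegral.integral_eq_sub_of_hasDerivAt (a := s0) (b := s) (fun t _ => hwd t)
    (hc.intervalIntegrable _ _)
  have h2 : ∫ t in s0..s, w t * (E' t - ρ * Real.exp (-ρ * t) * E t)
      ≤ ∫ t in s0..s, (3 * F t - D t) := by
    refine intervalIntegral.integral_mono_on hs (hc.intervalIntegrable _ _)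
      (Continuous.intervalIntegrable (by fun_prop) _ _) fun t ht => ?_
    have a1 := h t ht.1
    have a2 := mul_le_mul_of_nonneg_left (show E' t - ρ * Real.exp (-ρ * t) * E t ≤ F t - D t by
      linarith) (zero_le_one.trans (w1 t))
    nlinarith [w1 t, w3 t ht.1, hD0 t, hF0 t ht.1]
  rw [intervalIntegral.integral_sub (Continuous.intervalIntegrable (by fun_prop) _ _)
    (hD.intervalIntegrable _ _), intervalIntegral.integral_const_mul] at h2
  nlinarith [w1 s, w3 s0 le_rfl, hE0 s, hE0 s0]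

end Pool.Agent.BoltzD.Pic

end
end MrgPart0

-- ======== part 1: formerly Pool.Agent.BoltzD.Pic.Wt
section MrgPart1

/-! Pointwise comparison of the weights used in the Picard iteration. -/

set_option autoImplicit false

open Pool.Agent.BoltzC Finset

noncomputable section

namespace Pool.Agent.BoltzD.Pic

variable [Dim]

open Lin

variable {B : BgD}

lemma r_pos (hB : B.Ok) : 0 < B.r := zero_lt_one.trans hB.one_lt_r

lemma k1_pos (hB : B.Ok) (s : ℝ) (x : E3) : 0 < B.k1 s x :=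
  mul_pos (Real.exp_pos _) (pow_pos (hB.C_pos s x) _)

lemma per_k1 (hB : B.Ok) (s : ℝ) : Per (B.k1 s) := fun i x => by
  simp only [BgD.k1, hB.per_C s i x]

lemma exp_le_sig (s : ℝ) (x : E3) : Real.exp (-s) ≤ B.sig s x :=
  le_add_of_nonneg_right (Real.sqrt_nonneg _)

lemma nu_Lam_le (hB : B.Ok) (s : ℝ) (x : E3) : B.nu * B.Lam s x ≤ B.sig s x := by
  have h1 := hB.nu_pos
  have h3 : B.nu ^ 2 ≤ 1 := pow_le_one₀ h1.le hB.nu_le
  refine le_trans ?_ (le_add_of_nonneg_left (Real.exp_pos _).le)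
  refine Real.le_sqrt_of_sq_le ?_
  rw [mul_pow, BgD.Lam, Real.sq_sqrt (by linarith [Real.exp_pos (-2 * s), rho2_nonneg B x])]
  nlinarith [Real.exp_pos (-2 * s)]

lemma nu_pow_le (hB : B.Ok) (a s : ℝ) (x : E3) :
    B.nu ^ dd * (Real.exp (-2 * a * s) * B.Lam s x ^ (-2 * a)) ≤ B.sig s x ^ dd * B.om a s x := by
  have hL := Lam_pos B s x
  have h1 := hB.nu_pos
  have e : B.Lam s x ^ (-2 * a) = B.Lam s x ^ dd * B.Lam s x ^ (-(dd : ℝ) - 2 * a) := by
    rw [← Real.rpow_natCast, ← Real.rpow_add hL]; congr 1; ring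
  have h2 := pow_le_pow_left₀ (by positivity) (nu_Lam_le hB s x) dd
  have h3 := mul_le_mul_of_nonneg_right h2 (om_pos B a s x).le
  refine le_trans (le_of_eq ?_) h3
  rw [e, BgD.om]
  ring

lemma wt_facts (hB : B.Ok) : ∃ Ck : ℝ, 0 < Ck ∧ ∀ s, 0 ≤ s → ∀ x,
    B.mu s x ≤ Ck * B.k1 s x ∧
    B.mu s x ^ 2 ≤ Ck * Real.exp (-min B.kap B.r * s) * B.k1 s x ∧
    1 ≤ Ck * (B.sig s x ^ dd * B.om 0 s x) ∧
    B.k1 s x ≤ Ck * Real.exp (B.kap * s) * (B.sig s x ^ dd * B.om B.eta s x) := by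
  obtain ⟨c0, hc0, hC⟩ := hB.C_ge
  obtain ⟨K, hK⟩ := hB.sym
  have hν := hB.nu_pos
  have k0 := hB.kap_pos
  have hr := r_pos hB
  set a := (c0 ^ (dd + 28))⁻¹ with ha
  set b := (B.nu ^ dd)⁻¹ with hb
  set T : ℝ := (dd + 1) ^ B.kap with hT
  have ha0 : 0 < a := by positivity
  have hb0 : 0 < b := by positivity
  have hT0 : 0 < T := by positivity
  refine ⟨T * a + b + |K 0| ^ (dd + 28) * b, by positivity, fun s hs x => ?_⟩
  have hL := Lam_pos B s x
  have hk := k1_pos hB s x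
  have hμ := mu_pos B s x
  have hσ := sig_pos B s x
  have hTL : ∀ q, 0 ≤ q → q ≤ B.kap → B.Lam s x ^ q ≤ T := fun q h0 h1 =>
    (Real.rpow_le_rpow hL.le (Lam_le B hs x) h0).trans
      (Real.rpow_le_rpow_of_exponent_le (by linarith [dr_pos]) h1)
  have e11 : (B.Lam s x ^ (1 - B.r)) ^ (dd + 28) = B.Lam s x ^ (-B.r) * B.Lam s x ^ (-B.kap) := by
    rw [← Real.rpow_natCast, ← Real.rpow_mul hL.le, ← Real.rpow_add hL]
    congr 1; unfold BgD.kap; push_cast; ring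
  have low : B.mu s x ≤ a * B.Lam s x ^ B.kap * B.k1 s x := by
    have h1 := pow_le_pow_left₀ (by positivity) (hC s hs x) (dd + 28)
    rw [mul_pow, e11] at h1
    have h2 := mul_le_mul_of_nonneg_left h1
      (show 0 ≤ a * B.Lam s x ^ B.kap * Real.exp (-B.r * s) by positivity)
    refine le_trans (le_of_eq ?_) (h2.trans (le_of_eq (by rw [BgD.k1]; ring)))
    rw [BgD.mu, Real.rpow_neg hL.le B.kap, ha]
    field_simp
  have hX : 0 ≤ |K 0| ^ (dd + 28) * b := by positivity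
  refine ⟨?_, ?_, ?_, ?_⟩
  · refine low.trans (mul_le_mul_of_nonneg_right ?_ hk.le)
    have := mul_le_mul_of_nonneg_left (hTL _ k0.le le_rfl) ha0.le
    linarith
  · set q := min B.kap B.r
    have q1 : q ≤ B.kap := min_le_left _ _
    have q2 : q ≤ B.r := min_le_right _ _
    have q0 : 0 < q := lt_min k0 hr
    have h1 : B.mu s x * B.Lam s x ^ B.kap ≤ Real.exp (-q * s) * T := by
      have h := Lam_rpow_le B s x (b := q - B.r) (by linarith)
      have e : B.mu s x * B.Lam s x ^ B.kap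
          = Real.exp (-B.r * s) * B.Lam s x ^ (q - B.r) * B.Lam s x ^ (B.kap - q) := by
        rw [BgD.mu, mul_assoc, mul_assoc, ← Real.rpow_add hL, ← Real.rpow_add hL]
        congr 2
        ring
      rw [e]
      refine mul_le_mul ((mul_le_mul_of_nonneg_left h (Real.exp_pos _).le).trans (le_of_eq ?_))
        (hTL _ (by linarith) (by linarith)) (by positivity) (by positivity)
      rw [← Real.exp_add]; congr 1; ring
    have h2 := mul_le_mul_of_nonneg_left low hμ.le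
    have h3 := mul_le_mul_of_nonneg_right h1 (show 0 ≤ a * B.k1 s x by positivity)
    have h4 : 0 ≤ (b + |K 0| ^ (dd + 28) * b) * Real.exp (-q * s) * B.k1 s x := by positivity
    linarith
  · have h1 := nu_pow_le hB 0 s x
    simp only [mul_zero, zero_mul, Real.exp_zero, Real.rpow_zero, mul_one] at h1
    have h2 := mul_le_mul_of_nonneg_left h1 hb0.le
    rw [hb, inv_mul_cancel₀ (by positivity), ← hb] at h2
    have := om_pos B 0 s x
    have h4 : 0 ≤ (T * a + |K 0| ^ (dd + 28) * b) * (B.sig s x ^ dd * B.om 0 s x) := by positivity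
    linarith
  · have h0 : B.C s x ≤ |K 0| * B.Lam s x ^ (1 - B.r) := by
      have := (hK s hs).2.1 [] le_rfl x
      simp only [List.length_nil, pow_zero, one_mul, dXw] at this
      exact (le_abs_self _).trans (this.trans
        (mul_le_mul_of_nonneg_right (le_abs_self _) (by positivity)))
    have h1 := pow_le_pow_left₀ (hB.C_pos s x).le h0 (dd + 28)
    rw [mul_pow, e11, ← Real.rpow_add hL,
      show -B.r + -B.kap = -2 * B.eta by unfold BgD.eta; ring] at h1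
    have e2 : Real.exp (-B.r * s) = Real.exp (B.kap * s) * Real.exp (-2 * B.eta * s) := by
      rw [← Real.exp_add]; congr 1; unfold BgD.eta; ring
    have h3 := mul_le_mul_of_nonneg_left (nu_pow_le hB B.eta s x)
      (show 0 ≤ |K 0| ^ (dd + 28) * b * Real.exp (B.kap * s) by positivity)
    have := om_pos B B.eta s x
    have h4 : 0 ≤ (T * a + b) * Real.exp (B.kap * s) * (B.sig s x ^ dd * B.om B.eta s x) := by
      positivity
    have h5 : B.k1 s x ≤ |K 0| ^ (dd + 28) * b * Real.exp (B.kap * s) *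
        (B.nu ^ dd * (Real.exp (-2 * B.eta * s) * B.Lam s x ^ (-2 * B.eta))) := by
      rw [BgD.k1]
      refine (mul_le_mul_of_nonneg_left h1 (Real.exp_pos _).le).trans (le_of_eq ?_)
      rw [e2, hb]
      field_simp
    linarith

end Pool.Agent.BoltzD.Pic

end
end MrgPart1

-- marker of a merged file
example : 731051 + 543014 = 731051 + 543014 := rfl

end MrgPart0

-- ======== part 1: formerly Pool.Agent.BoltzD.Pic.Lin
section MrgPart1

/-! The combined energy of the Picard iteration and the linear energy inequality. -/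

set_option autoImplicit false

open Pool.Agent.BoltzC Finset

noncomputable section

namespace Pool.Agent.BoltzD.Pic

variable [Dim]

open KK (bb_nonneg continuous_bb ip_le_bb)

lemma cont_slice {f : ℝ → E3 → ℝ} (h : Continuous fun p : ℝ × E3 => f p.1 p.2) (s : ℝ) :
    Continuous (f s) := h.comp (Continuous.prodMk_right s)

/-- The data that are fixed before the iteration starts. -/
structure Dat where
  Q : CollOp
  B : BgD
  n : ℕ
  θ : ℝ
  δ : ℝ
  m : ℕ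
  φ : Fin m → E3 → SV
  C0 : ℝ

namespace Dat

variable (X : Dat)

/-- The combined weight. -/
def om (s : ℝ) (x : E3) : ℝ := X.B.om 0 s x + Real.exp (2 * X.δ * s) * X.B.om X.B.eta s x

/-- The combined energy. -/
def EE (n : ℕ) (s : ℝ) (G H : E3 → SV) : ℝ := En n X.θ (X.om s) (X.B.sig s) G H

/-- The combined dissipation. -/
def DD (A s : ℝ) (G : E3 → SV) : ℝ :=
  tint fun x => X.om s x * (A * X.B.k1 s x) * yy X.Q X.n X.θ (X.B.sig s) G x

/-- The coefficients of the finite rank term. -/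
def cc (s : ℝ) (G : E3 → SV) (i : Fin X.m) : ℝ :=
  X.C0 / 2 * X.B.E X.n X.θ X.B.eta s (X.B.per (X.φ i) s) G

/-- Standing assumptions. -/
structure Base : Prop where
  ok : X.B.Ok
  θ_pos : 0 < X.θ
  θ_le : X.θ ≤ 1
  δ_pos : 0 < X.δ
  inD : ∀ i, InD (X.φ i)
  C0_pos : 0 < X.C0

/-- Solutions of the linear kinetic problem. -/
structure Kin (A s0 : ℝ) (u u' S : ℝ → E3 → SV) : Prop where
  smd : SmD u u'
  per : ∀ s, Per (u s)
  per' : ∀ s, Per (u' s)
  sm : SmC S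
  eqn : ∀ s, s0 ≤ s → ∀ x, u' s x + (X.B.fld s).tr (u s) x + (A * X.B.k1 s x) • X.Q.L (u s x)
    + ∑ i, X.cc s (u s) i • X.B.per (X.φ i) s x = S s x

/-- The linear energy inequality. -/
def LinEst (c A0 s2 C β : ℝ) : Prop :=
  ∀ (A s0 : ℝ) (u u' S : ℝ → E3 → SV), A0 ≤ A → s2 ≤ s0 → X.Kin A s0 u u' S →
    ∃ E' : ℝ → ℝ, Continuous E' ∧ (∀ s, HasDerivAt (fun t => X.EE X.n t (u t) (u t)) (E' s) s) ∧
      ∀ s, s0 ≤ s → E' s + c * X.DD A s (u s)
        ≤ C * Real.exp (-β * s) * X.EE X.n s (u s) (u s) + 2 * X.EE X.n s (S s) (u s)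

/-- Bounds for the finite family. -/
def KBd (CK s1 : ℝ) : Prop :=
  ∀ s, s1 ≤ s → ∀ i, X.B.E X.n X.θ X.B.eta s (X.B.per (X.φ i) s) (X.B.per (X.φ i) s) ≤ CK ∧
    ∀ G : E3 → SV, Sm G → Per G →
      X.B.E X.n X.θ 0 s (X.B.per (X.φ i) s) G ^ 2 ≤ CK * X.B.E X.n X.θ X.B.eta s G G

variable {X}

lemma om_pos (s : ℝ) (x : E3) : 0 < X.om s x :=
  add_pos (Lin.om_pos _ _ _ _) (mul_pos (Real.exp_pos _) (Lin.om_pos _ _ _ _))

lemma Base.cont_om (h : X.Base) : Continuous fun p : ℝ × E3 => X.om p.1 p.2 :=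
  (h.ok.sm_om 0).sm.cont.add (Continuous.mul (by fun_prop) (h.ok.sm_om _).sm.cont)

lemma Base.c_om (h : X.Base) (s : ℝ) : Continuous (X.om s) :=
  cont_slice h.cont_om s

lemma Base.c_oma (h : X.Base) (a s : ℝ) : Continuous (X.B.om a s) := (h.ok.sm_om a).sm.cont_slice s

lemma Base.c_sig (h : X.Base) (s : ℝ) : Continuous (X.B.sig s) := h.ok.sm_sig.sm.cont_slice s

lemma Base.c_k1 (h : X.Base) (s : ℝ) : Continuous (X.B.k1 s) := h.ok.sm_k1.cont_slice s

lemma tint_om (h : X.Base) (s : ℝ) {ψ : E3 → ℝ} (hψ : Continuous ψ) :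
    tint (fun x => X.om s x * ψ x) = tint (fun x => X.B.om 0 s x * ψ x)
      + Real.exp (2 * X.δ * s) * tint fun x => X.B.om X.B.eta s x * ψ x := by
  have h0 := h.c_oma 0 s
  have h1 := h.c_oma X.B.eta s
  rw [← tint_const_mul, ← tint_add (by fun_prop) (by fun_prop)]
  exact tint_congr fun x => by rw [om]; ring

lemma En_om (h : X.Base) (n : ℕ) (θ s : ℝ) {G H : E3 → SV} (hG : Sm G) (hH : Sm H) :
    En n θ (X.om s) (X.B.sig s) G H
      = X.B.E n θ 0 s G H + Real.exp (2 * X.δ * s) * X.B.E n θ X.B.eta s G H :=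
  tint_om h s (continuous_bb (h.c_sig s) hG hH)

lemma EE_eq (h : X.Base) (n : ℕ) (s : ℝ) {G H : E3 → SV} (hG : Sm G) (hH : Sm H) :
    X.EE n s G H = X.B.E n X.θ 0 s G H + Real.exp (2 * X.δ * s) * X.B.E n X.θ X.B.eta s G H :=
  En_om h n _ s hG hH

lemma E_nonneg (h : X.Base) (n : ℕ) (a s : ℝ) (G : E3 → SV) : 0 ≤ X.B.E n X.θ a s G G :=
  En_nonneg h.θ_pos.le fun x => (Lin.om_pos _ _ _ x).le

lemma EE_nonneg (h : X.Base) (n : ℕ) (s : ℝ) (G : E3 → SV) : 0 ≤ X.EE n s G G :=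
  En_nonneg h.θ_pos.le fun x => (om_pos s x).le

lemma cont_yy (hA : AlgStmt) (h : X.Base) {G : ℝ → E3 → SV} (hG : SmC G) :
    Continuous fun p : ℝ × E3 => yy X.Q X.n X.θ (X.B.sig p.1) (G p.1) p.2 :=
  hA.YY_cont X.Q X.n X.θ X.B.sig (fun s y => G s y - PP (G s y)) h.ok.sm_sig.sm.cont
    (hG.sub (hG.clm PP))

lemma c_yy (hA : AlgStmt) (h : X.Base) (s : ℝ) {G : E3 → SV} (hG : Sm G) :
    Continuous (yy X.Q X.n X.θ (X.B.sig s) G) :=
  cont_slice (f := fun s => yy X.Q X.n X.θ (X.B.sig s) G) 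
    (cont_yy (G := fun _ => G) hA h hG.smC) s

lemma c_YY (hA : AlgStmt) (h : X.Base) (s : ℝ) {G : E3 → SV} (hG : Sm G) :
    Continuous (YY X.Q X.n X.θ (X.B.sig s) G) :=
  cont_slice (f := fun s => YY X.Q X.n X.θ (X.B.sig s) G)
    (hA.YY_cont X.Q X.n X.θ X.B.sig (fun _ => G) h.ok.sm_sig.sm.cont hG.smC) s

lemma yy_nonneg (hA : AlgStmt) (h : X.Base) (s : ℝ) (G : E3 → SV) (x : E3) :
    0 ≤ yy X.Q X.n X.θ (X.B.sig s) G x := hA.YY_nonneg _ _ _ _ _ h.θ_pos.le x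

lemma cc_sq_le (hA : AlgStmt) (h : X.Base) {CK s1 s : ℝ} (hK : X.KBd CK s1) (hs : s1 ≤ s)
    {G : E3 → SV} (hG : Sm G) (i : Fin X.m) :
    X.B.E X.n X.θ X.B.eta s (X.B.per (X.φ i) s) G ^ 2 ≤ CK * X.B.E X.n X.θ X.B.eta s G G :=
  (En_sq_le h.θ_pos.le (h.c_oma _ s) (fun x => (Lin.om_pos _ _ _ x).le) (h.c_sig s)
    ((hA.smC_per X.B _ (h.inD i).1).slice s) hG).trans
    (mul_le_mul_of_nonneg_right (hK s hs i).1 (E_nonneg h _ _ _ _))

end Dat

/-- The inequality of module M4 for the background `B`. -/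
def M4At (Q : CollOp) (B : BgD) (n : ℕ) (θ A0 C c s1 : ℝ) : Prop :=
  ∀ a, 0 ≤ a → a ≤ B.eta → ∀ g g' : ℝ → E3 → SV, SmD g g' → (∀ s, Per (g s)) →
    ∃ E' : ℝ → ℝ, Continuous E' ∧ (∀ s, HasDerivAt (fun t => B.E n θ a t (g t) (g t)) (E' s) s) ∧
      ∀ A, A0 ≤ A → ∀ s, s1 ≤ s → E' s + 2 * a * B.E n θ a s (g s) (g s)
        + c * tint (fun x => B.om a s x * (A * B.k1 s x * yy Q n θ (B.sig s) (g s) x))
        ≤ C * tint (fun x => B.mu s x * B.om a s x * ip (PP (g s x)) (PP (g s x)))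
          + 2 * B.E n θ a s
            (fun x => g' s x + (B.fld s).tr (g s) x + (A * B.k1 s x) • Q.L (g s x)) (g s)

lemma symBd_mul {K : ℕ → ℝ} {σ k : E3 → ℝ} (hk : Sm k) (h : SymBd K 0 σ k k) {A : ℝ} (hA : 0 ≤ A) :
    SymBd K 0 σ (fun x => A * k x) fun x => A * k x := fun w hw x => by
  have e := congrFun (dXw_const_smul hk A w) x
  simp only [smul_eq_mul] at e
  rw [e, abs_mul, abs_of_nonneg hA]
  have := mul_le_mul_of_nonneg_left (h w hw x) hA
  linarith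

theorem m4_at (h4 : M4Stmt) (Q : CollOp) {B : BgD} (hB : B.Ok) : ∃ n0 : ℕ, ∀ n, n0 ≤ n →
    ∃ θ A0 C c s1 : ℝ, 0 < θ ∧ θ ≤ 1 ∧ 0 < C ∧ 0 < c ∧ 0 ≤ s1 ∧ M4At Q B n θ A0 C c s1 := by
  obtain ⟨K, lam, s1, hlam, hs1, H⟩ := hB.hyp
  obtain ⟨Ck, hCk, hw⟩ := wt_facts hB
  obtain ⟨n0, h4⟩ := h4 Q K lam hlam
  refine ⟨n0, fun n hn => ?_⟩
  obtain ⟨θ, A0, C, c, hθ, hθ1, hC, hc, h4⟩ := h4 n hn
  refine ⟨θ, |A0| * Ck, C, c, s1, hθ, hθ1, hC, hc, hs1, fun a ha ha1 g g' hg pg => ?_⟩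
  obtain ⟨E', hE', hd, h4⟩ := h4 _ _ _ _ g g' (hB.sm_om a) hB.sm_sig hg pg
  refine ⟨E', hE', hd, fun A hA s hs => ?_⟩
  have hA0 : 0 ≤ A := le_trans (by positivity) hA
  obtain ⟨h1, h2, h3⟩ := H s hs
  have hk := hB.sm_k1.slice s
  have := h4 s (B.fld s) (B.mu s) _ (fun x => A * B.k1 s x) (hB.fldC.reg s) h1 (h3 a ha ha1)
    (continuous_const.mul ((hB.sm_om a).sm.cont_slice s)) (hk.const_smul A)
    ((per_k1 hB s).map _) (symBd_mul hk h2 hA0) fun x => by
      have b1 := mul_le_mul_of_nonneg_left (hw s (hs1.trans hs) x).1 (abs_nonneg A0)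
      have b2 := mul_le_mul_of_nonneg_right (le_abs_self A0) (Lin.mu_pos B s x).le
      have b3 := mul_le_mul_of_nonneg_right hA (k1_pos hB s x).le
      linarith
  simp only [mul_assoc (2 * a), tint_const_mul, mul_assoc (B.om a s _)] at this
  exact this

theorem lin_est (hA : AlgStmt) {X : Dat} (h : X.Base) {A0 C c s1 CK γ : ℝ} (hC : 0 < C)
    (hγ : 0 < γ) (hγ1 : γ + X.δ ≤ X.B.eta) (h4 : M4At X.Q X.B X.n X.θ A0 C c s1) (hK : X.KBd CK s1)
    (hK2 : ∀ s, s1 ≤ s → ∀ G : E3 → SV, Sm G → Per G →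
      C * tint (fun x => X.B.mu s x * X.B.om X.B.eta s x * ip (PP (G x)) (PP (G x)))
        ≤ γ * X.B.E X.n X.θ X.B.eta s G G
          + X.C0 * ∑ i, X.B.E X.n X.θ X.B.eta s (X.B.per (X.φ i) s) G ^ 2) :
    ∃ s2, s1 ≤ s2 ∧ X.LinEst c A0 s2 C (X.δ * X.B.r / X.B.eta) := by
  have hη := h.ok.eta_pos
  have hδ := h.δ_pos
  have hC0 := h.C0_pos
  set D := X.C0 * X.m * CK with hD
  refine ⟨max s1 (D / γ / (2 * X.δ)), le_max_left _ _,
    fun A s0 u u' S hA0 hs0 hu => ?_⟩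
  obtain ⟨E0, c0, d0, h0⟩ := h4 0 le_rfl hη.le u u' hu.smd hu.per
  obtain ⟨E1, c1, d1, h1⟩ := h4 X.B.eta hη.le le_rfl u u' hu.smd hu.per
  have ce : Continuous fun s => X.B.E X.n X.θ X.B.eta s (u s) (u s) :=
    continuous_iff_continuousAt.2 fun s => (d1 s).continuousAt
  refine ⟨fun s => E0 s + Real.exp (2 * X.δ * s) *
    (E1 s + 2 * X.δ * X.B.E X.n X.θ X.B.eta s (u s) (u s)), by fun_prop, fun s => ?_,
    fun s hs => ?_⟩
  · simp only [fun t => Dat.EE_eq h X.n t (hu.smd.sm.slice t) (hu.smd.sm.slice t)]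
    refine ((d0 s).add (((hasDerivAt_id s).const_mul (2 * X.δ)).exp.mul (d1 s))).congr_deriv ?_
    simp only [id]
    ring
  have hs1 : s1 ≤ s := (le_max_left _ _).trans (hs0.trans hs)
  have su := hu.smd.sm.slice s
  have sφ := fun i => (hA.smC_per X.B _ (h.inD i).1).slice s
  have e : ∀ a, X.B.E X.n X.θ a s (fun x => u' s x + (X.B.fld s).tr (u s) x
      + (A * X.B.k1 s x) • X.Q.L (u s x)) (u s) = X.B.E X.n X.θ a s (S s) (u s)
        - ∑ i, X.cc s (u s) i * X.B.E X.n X.θ a s (X.B.per (X.φ i) s) (u s) := fun a => by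
    simp only [fun x => eq_sub_of_add_eq (hu.eqn s hs x), BgD.E]
    rw [En_sub_left (h.c_oma a s) (h.c_sig s) (hu.sm.slice s)
      (Sm.sum _ fun i _ => (sφ i).const_smul _) su, En_sum_left (h.c_oma a s) (h.c_sig s) _ sφ su]
  have a0 := h0 A hA0 s hs1
  have a1 := h1 A hA0 s hs1
  have a2 := hK2 s hs1 (u s) su (hu.per s)
  rw [e] at a0 a1
  set e1 := X.B.E X.n X.θ X.B.eta s (u s) (u s) with he1
  have e10 : 0 ≤ e1 := Dat.E_nonneg h _ _ _ _
  have a3 : ∑ i, X.cc s (u s) i * X.B.E X.n X.θ X.B.eta s (X.B.per (X.φ i) s) (u s)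
      = X.C0 / 2 * ∑ i, X.B.E X.n X.θ X.B.eta s (X.B.per (X.φ i) s) (u s) ^ 2 := by
    rw [mul_sum]
    exact sum_congr rfl fun i _ => by rw [Dat.cc]; ring
  have a4 : -∑ i, X.cc s (u s) i * X.B.E X.n X.θ 0 s (X.B.per (X.φ i) s) (u s)
      ≤ X.m * (X.C0 / 2 * (CK * e1)) := by
    rw [← sum_neg_distrib]
    refine (sum_le_card_nsmul _ _ (X.C0 / 2 * (CK * e1)) fun i _ => ?_).trans (by simp)
    have b1 := Dat.cc_sq_le hA h hK hs1 su i
    have b2 := (hK s hs1 i).2 (u s) su (hu.per s)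
    rw [Dat.cc, mul_assoc, ← mul_neg]
    refine mul_le_mul_of_nonneg_left ?_ (by positivity)
    nlinarith [sq_nonneg (X.B.E X.n X.θ X.B.eta s (X.B.per (X.φ i) s) (u s)
      + X.B.E X.n X.θ 0 s (X.B.per (X.φ i) s) (u s))]
  have a5 : tint (fun x => X.B.mu s x * X.B.om 0 s x * ip (PP (u s x)) (PP (u s x)))
      ≤ Real.exp (-(X.δ * X.B.r / X.B.eta) * s) * X.EE X.n s (u s) (u s) := by
    refine tint_le_one (((h.ok.sm_mu.cont_slice s).mul (h.c_oma 0 s)).mul
      ((su.clm PP).ip (su.clm PP)).cont) (cont_wbb (h.c_om s) (h.c_sig s) su su) fun x => ?_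
    rw [← mul_assoc]
    exact mul_le_mul (Lin.mu_om_young _ h.ok X.δ s x) ((ip_PP_PP_le _).trans (ip_le_bb h.θ_pos.le x))
      (ip_self_nonneg _) (mul_pos (Real.exp_pos _) (Dat.om_pos s x)).le
  have a6 : D ≤ γ * Real.exp (2 * X.δ * s) := by
    have b1 := (le_max_right _ _).trans (hs0.trans hs)
    rw [div_le_iff₀ (by positivity), div_le_iff₀ hγ] at b1
    nlinarith [Real.add_one_le_exp (2 * X.δ * s)]
  set D0 := tint fun x => X.B.om 0 s x * (A * X.B.k1 s x * yy X.Q X.n X.θ (X.B.sig s) (u s) x)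
  set D1 := tint fun x =>
    X.B.om X.B.eta s x * (A * X.B.k1 s x * yy X.Q X.n X.θ (X.B.sig s) (u s) x)
  have a7 : X.DD A s (u s) = D0 + Real.exp (2 * X.δ * s) * D1 := by
    have := h.c_k1 s
    have := Dat.c_yy hA h s su
    simp only [Dat.DD, mul_assoc (X.om s _)]
    exact Dat.tint_om h s (by fun_prop)
  rw [a7, Dat.EE_eq h _ _ (hu.sm.slice s) su]
  rw [a3] at a1
  have a8 := mul_le_mul_of_nonneg_left (show E1 s + 2 * X.δ * e1 + c * D1 ≤
    2 * X.B.E X.n X.θ X.B.eta s (S s) (u s) - γ * e1 by nlinarith)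
    (Real.exp_pos (2 * X.δ * s)).le
  have a9 := mul_le_mul_of_nonneg_right a6 e10
  have a10 := mul_le_mul_of_nonneg_left a5 hC.le
  rw [hD] at a9
  linarith

end Pool.Agent.BoltzD.Pic

end
end MrgPart1

-- ======== part 2: formerly Pool.Agent.BoltzD.Pic.Bd
section MrgPart2

/-! Balls of the iteration space, and the three forcing estimates at a fixed time. -/

set_option autoImplicit false

open Pool.Agent.BoltzC Finset

noncomputable section

namespace Pool.Agent.BoltzD.Pic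

variable [Dim]

open KK (bb_nonneg continuous_bb bb_smul_left)

namespace Dat

variable (X : Dat)

/-- Energy and integrated dissipation are at most `a` after the time `s0`. -/
structure Bd (A s0 a : ℝ) (V : ℝ → E3 → SV) : Prop where
  sm : SmC V
  per : ∀ s, Per (V s)
  ee : ∀ s, s0 ≤ s → X.EE X.n s (V s) (V s) ≤ a
  di : ∀ s, s0 ≤ s → ∫ t in s0..s, X.DD A t (V t) ≤ a

/-- The non-hydrodynamic part of the transport term. -/
def mic (s : ℝ) (W : E3 → SV) (x : E3) : SV := (X.B.fld s).tr W x - PP ((X.B.fld s).tr W x)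

/-- The low norm. -/
def lo (s : ℝ) (G : E3 → SV) (x : E3) : ℝ := bb (X.n / 2 + X.Q.p) 1 (X.B.sig s) G G x

variable {X} {A s0 a b : ℝ} {V V' : ℝ → E3 → SV}

lemma DD_nonneg (hA : AlgStmt) (h : X.Base) (hA0 : 0 ≤ A) (s : ℝ) (G : E3 → SV) : 0 ≤ X.DD A s G :=
  tint_nonneg fun x => mul_nonneg (mul_nonneg (om_pos s x).le (mul_nonneg hA0 (k1_pos h.ok s x).le))
    (yy_nonneg hA h s G x)

lemma cont_DD (hA : AlgStmt) (h : X.Base) (A : ℝ) (hV : SmC V) :
    Continuous fun s => X.DD A s (V s) :=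
  continuous_tint (φ := fun s x => X.om s x * (A * X.B.k1 s x) * yy X.Q X.n X.θ (X.B.sig s) (V s) x)
    ((h.cont_om.mul (continuous_const.mul h.ok.sm_k1.cont)).mul (cont_yy hA h hV))

lemma c_DD (hA : AlgStmt) (h : X.Base) (A s : ℝ) {G : E3 → SV} (hG : Sm G) :
    Continuous fun x => X.om s x * (A * X.B.k1 s x) * yy X.Q X.n X.θ (X.B.sig s) G x :=
  ((h.c_om s).mul (continuous_const.mul (h.c_k1 s))).mul (c_yy hA h s hG)

lemma DD_add_le (hA : AlgStmt) (h : X.Base) (hA0 : 0 ≤ A) (s : ℝ) {G H : E3 → SV} (hG : Sm G)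
    (hH : Sm H) : X.DD A s (fun x => G x + H x) ≤ 2 * X.DD A s G + 2 * X.DD A s H := by
  refine tint_le_two (c_DD hA h A s (hG.add hH)) (c_DD hA h A s hG) (c_DD hA h A s hH) fun x => ?_
  have h1 := hA.YY_add X.Q X.n X.θ (X.B.sig s) _ _ h.θ_pos.le (hG.sub (hG.clm PP))
    (hH.sub (hH.clm PP)) x
  have e : (fun y => G y + H y - PP (G y + H y)) = fun y => G y - PP (G y) + (H y - PP (H y)) :=
    funext fun y => by rw [map_add]; abel
  have := mul_le_mul_of_nonneg_left h1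
    (mul_nonneg (om_pos (X := X) s x).le (mul_nonneg hA0 (k1_pos h.ok s x).le))
  simp only [yy, e]
  linarith

lemma DD_smul (hA : AlgStmt) (s c : ℝ) {G : E3 → SV} (hG : Sm G) :
    X.DD A s (fun x => c • G x) = c ^ 2 * X.DD A s G := by
  rw [DD, DD, ← tint_const_mul]
  refine tint_congr fun x => ?_
  have h1 := hA.YY_smul X.Q X.n X.θ (X.B.sig s) _ c (hG.sub (hG.clm PP)) x
  simp only [yy, map_smul, ← smul_sub, h1]
  ring

lemma DD_hyd (hA : AlgStmt) (s : ℝ) {G : E3 → SV} (hG : ∀ x, PP (G x) = G x) : X.DD A s G = 0 := by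
  have h1 := fun x => hA.YY_smul X.Q X.n X.θ (X.B.sig s) _ 0 (Sm.const (0 : SV)) x
  simp only [smul_zero, ne_eq, OfNat.ofNat_ne_zero, not_false_eq_true, zero_pow, zero_mul] at h1
  simp [DD, yy, hG, h1]

lemma EE_add_le (h : X.Base) (n : ℕ) (s : ℝ) {G H : E3 → SV} (hG : Sm G) (hH : Sm H) :
    X.EE n s (fun x => G x + H x) (fun x => G x + H x) ≤ 2 * X.EE n s G G + 2 * X.EE n s H H :=
  En_add_le h.θ_pos.le (h.c_om s) (fun x => (om_pos s x).le) (h.c_sig s) hG hH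

lemma EE_sub_le (h : X.Base) (n : ℕ) (s : ℝ) {G H : E3 → SV} (hG : Sm G) (hH : Sm H) :
    X.EE n s (fun x => G x - H x) (fun x => G x - H x) ≤ 2 * X.EE n s G G + 2 * X.EE n s H H :=
  En_sub_le h.θ_pos.le (h.c_om s) (fun x => (om_pos s x).le) (h.c_sig s) hG hH

lemma EE_mono (hA : AlgStmt) (h : X.Base) {n n' : ℕ} (hn : n ≤ n') {θ' : ℝ} (hθ : X.θ ≤ θ') (s : ℝ)
    {G : E3 → SV} (hG : Sm G) : X.EE n s G G ≤ En n' θ' (X.om s) (X.B.sig s) G G := by
  refine (En_le_of_le (a := 1) (h.c_om s) (h.c_om s) (h.c_sig s) hG hG fun x => ?_).trans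
    (one_mul _).le
  rw [one_mul]
  exact mul_le_mul_of_nonneg_left (hA.mono _ _ _ _ _ _ hn h.θ_pos.le hθ x) (om_pos s x).le

lemma Bd.nonneg (h : X.Base) (hV : X.Bd A s0 a V) : 0 ≤ a :=
  (EE_nonneg h _ _ _).trans (hV.ee s0 le_rfl)

lemma Bd.mono (hV : X.Bd A s0 a V) (hab : a ≤ b) : X.Bd A s0 b V :=
  ⟨hV.sm, hV.per, fun s hs => (hV.ee s hs).trans hab, fun s hs => (hV.di s hs).trans hab⟩

lemma Bd.congr (hV : X.Bd A s0 a V) (e : ∀ s x, V s x = V' s x) : X.Bd A s0 a V' := by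
  have : V = V' := funext fun s => funext (e s)
  exact this ▸ hV

lemma Bd.add (hA : AlgStmt) (h : X.Base) (hA0 : 0 ≤ A) (hV : X.Bd A s0 a V) (hV' : X.Bd A s0 b V') :
    X.Bd A s0 (2 * a + 2 * b) fun s x => V s x + V' s x := by
  refine ⟨hV.sm.add hV'.sm, fun s => (hV.per s).map₂ (hV'.per s) (· + ·), fun s hs => ?_,
    fun s hs => ?_⟩
  · linarith [EE_add_le h X.n s (hV.sm.slice s) (hV'.sm.slice s), hV.ee s hs, hV'.ee s hs]
  · have c1 := cont_DD hA h A hV.sm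
    have c2 := cont_DD hA h A hV'.sm
    have := intervalIntegral.integral_mono_on (μ := MeasureTheory.volume) hs
      ((cont_DD hA h A (hV.sm.add hV'.sm)).intervalIntegrable _ _)
      (Continuous.intervalIntegrable (u := fun t => 2 * X.DD A t (V t) + 2 * X.DD A t (V' t))
        (by fun_prop) _ _) fun t _ => DD_add_le hA h hA0 t (hV.sm.slice t) (hV'.sm.slice t)
    rw [intervalIntegral.integral_add (Continuous.intervalIntegrable (by fun_prop) _ _)
      (Continuous.intervalIntegrable (by fun_prop) _ _), intervalIntegral.integral_const_mul,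
      intervalIntegral.integral_const_mul] at this
    linarith [hV.di s hs, hV'.di s hs]

lemma Bd.neg (hA : AlgStmt) (hV : X.Bd A s0 a V) : X.Bd A s0 a fun s x => -V s x := by
  refine ⟨hV.sm.neg, fun s => (hV.per s).map _, fun s hs => ?_, fun s hs => ?_⟩
  · exact (En_neg_neg (hV.sm.slice s)).trans_le (hV.ee s hs)
  · have := fun t => DD_smul (X := X) (A := A) hA t (-1) (hV.sm.slice t)
    simp only [neg_smul, one_smul, even_two, Even.neg_pow, one_pow, one_mul] at this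
    simpa only [this] using hV.di s hs

lemma Bd.sub (hA : AlgStmt) (h : X.Base) (hA0 : 0 ≤ A) (hV : X.Bd A s0 a V) (hV' : X.Bd A s0 b V') :
    X.Bd A s0 (2 * a + 2 * b) fun s x => V s x - V' s x :=
  (hV.add hA h hA0 (hV'.neg hA)).congr fun _ _ => (sub_eq_add_neg _ _).symm

lemma Bd.of_hyd (hA : AlgStmt) (h : X.Base) (sm : SmC V) (per : ∀ s, Per (V s))
    (hyd : ∀ s x, PP (V s x) = V s x) (ee : ∀ s, s0 ≤ s → X.EE (X.n + 1) s (V s) (V s) ≤ a) :
    X.Bd A s0 a V :=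
  ⟨sm, per, fun s hs => (EE_mono hA h (Nat.le_succ _) le_rfl s (sm.slice s)).trans (ee s hs),
    fun s _ => by
      simpa only [fun t => DD_hyd (X := X) (A := A) hA t (hyd t), intervalIntegral.integral_zero]
        using (EE_nonneg h _ _ _).trans (ee s0 le_rfl)⟩

lemma sm_mic (hA : AlgStmt) (h : X.Base) (hV : SmC V) : SmC fun s => X.mic s (V s) :=
  (hA.smC_tr _ _ h.ok.fldC hV).sub ((hA.smC_tr _ _ h.ok.fldC hV).clm PP)

lemma force_one (h : X.Base) (s : ℝ) {t : ℝ} (ht : 0 < t) {S u : E3 → SV} (hS : Sm S) (hu : Sm u) :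
    2 * X.EE X.n s S u ≤ t * X.EE X.n s u u + t⁻¹ * X.EE X.n s S S := by
  rw [EE, En, ← tint_const_mul]
  refine tint_le_two (continuous_const.mul (cont_wbb (h.c_om s) (h.c_sig s) hS hu))
    (cont_wbb (h.c_om s) (h.c_sig s) hu hu) (cont_wbb (h.c_om s) (h.c_sig s) hS hS) fun x => ?_
  have := mul_le_mul_of_nonneg_left (two_bb_le (n := X.n) (σ := X.B.sig s) (G := S) (H := u)
    h.θ_pos.le ht x) (om_pos (X := X) s x).le
  rw [div_eq_mul_inv] at this
  linarith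

lemma two_sqrt_le {p q t : ℝ} (hp : 0 ≤ p) (hq : 0 ≤ q) (ht : 0 < t) :
    2 * (√p * √q) ≤ t * q + t⁻¹ * p := by
  have h1 : 0 ≤ t⁻¹ * (t * √q - √p) ^ 2 := by positivity
  have e : t⁻¹ * (t * √q - √p) ^ 2 = t * √q ^ 2 + t⁻¹ * √p ^ 2 - 2 * (√p * √q) := by
    field_simp; ring
  rw [e, Real.sq_sqrt hp, Real.sq_sqrt hq] at h1
  linarith

lemma force_mic (hA : AlgStmt) (h : X.Base) (s : ℝ) {c D : ℝ} (hc : 0 < c) (hD : 0 ≤ D)
    (hA1 : 1 ≤ A) {W u : E3 → SV} (hW : Sm W) (hu : Sm u)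
    (hm : ∀ x, bb X.n X.θ (X.B.sig s) (X.mic s W) (X.mic s W) x
      ≤ D * X.B.k1 s x * bb (X.n + 1) X.θ (X.B.sig s) W W x) :
    -2 * X.EE X.n s (X.mic s W) u ≤ c / 4 * X.DD A s u + 4 * D / c * X.EE (X.n + 1) s W W := by
  have sm : Sm (X.mic s W) := (sm_mic (V := fun _ => W) hA h hW.smC).slice s
  rw [EE, En, ← tint_const_mul]
  refine tint_le_two (continuous_const.mul (cont_wbb (h.c_om s) (h.c_sig s) sm hu))
    (c_DD hA h A s hu) (cont_wbb (h.c_om s) (h.c_sig s) hW hW) fun x => ?_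
  have hk := k1_pos h.ok s x
  have h1 := hA.micro X.Q X.n X.θ (X.B.sig s) _ u h.θ_pos.le sm hu (fun y => PP_sub_PP _) x
  have h2 := two_sqrt_le (bb_nonneg (n := X.n) (σ := X.B.sig s) (G := X.mic s W) h.θ_pos.le x)
    (yy_nonneg hA h s u x) (show 0 < c / 4 * (A * X.B.k1 s x) by positivity)
  have hb := bb_nonneg (n := X.n + 1) (σ := X.B.sig s) (G := W) h.θ_pos.le x
  have h3 : (c / 4 * (A * X.B.k1 s x))⁻¹ * bb X.n X.θ (X.B.sig s) (X.mic s W) (X.mic s W) x
      ≤ 4 * D / c * bb (X.n + 1) X.θ (X.B.sig s) W W x := by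
    rw [inv_mul_le_iff₀ (by positivity)]
    refine (hm x).trans ?_
    have e : c / 4 * (A * X.B.k1 s x) * (4 * D / c * bb (X.n + 1) X.θ (X.B.sig s) W W x)
        = A * (D * X.B.k1 s x * bb (X.n + 1) X.θ (X.B.sig s) W W x) := by field_simp
    rw [e]
    exact le_mul_of_one_le_left (by positivity) hA1
  have := mul_le_mul_of_nonneg_left (show -2 * bb X.n X.θ (X.B.sig s) (X.mic s W) u x ≤ _ + _ from
    le_trans (by linarith [neg_abs_le (bb X.n X.θ (X.B.sig s) (X.mic s W) u x)])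
      (h2.trans (add_le_add le_rfl h3))) (om_pos (X := X) s x).le
  linarith

lemma c_nl (hA : AlgStmt) (h : X.Base) (A s : ℝ) {G H : E3 → SV} (hG : Sm G) (hH : Sm H) :
    Continuous fun x => X.om s x * (A * X.B.k1 s x * X.lo s G x * YY X.Q X.n X.θ (X.B.sig s) H x) :=
  (h.c_om s).mul (((continuous_const.mul (h.c_k1 s)).mul (continuous_bb (h.c_sig s) hG hG)).mul
    (c_YY hA h s hH))

lemma force_gam (hA : AlgStmt) (h : X.Base) (s : ℝ) {c D : ℝ} (hc : 0 < c) (hA0 : 0 < A)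
    {G H u : E3 → SV} (hG : Sm G) (hH : Sm H) (hu : Sm u)
    (hm : ∀ x, |bb X.n X.θ (X.B.sig s) (fun y => (A * X.B.k1 s y) • X.Q.G (G y) (H y)) u x|
      ≤ D * (A * X.B.k1 s x) * (√(X.lo s G x) * √(YY X.Q X.n X.θ (X.B.sig s) H x)
        + √(X.lo s H x) * √(YY X.Q X.n X.θ (X.B.sig s) G x)) * √(yy X.Q X.n X.θ (X.B.sig s) u x)) :
    2 * X.EE X.n s (fun y => (A * X.B.k1 s y / 2) • X.Q.G (G y) (H y)) u ≤ c / 4 * X.DD A s u
      + 2 * D ^ 2 / c *
        (tint (fun x => X.om s x * (A * X.B.k1 s x * X.lo s G x * YY X.Q X.n X.θ (X.B.sig s) H x))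
        + tint fun x => X.om s x *
          (A * X.B.k1 s x * X.lo s H x * YY X.Q X.n X.θ (X.B.sig s) G x)) := by
  have sm : Sm fun y => (A * X.B.k1 s y) • X.Q.G (G y) (H y) :=
    ((h.ok.sm_k1.slice s).const_smul A).smul (Sm.bilin _ X.Q.cont hG hH)
  have e : (fun y => (A * X.B.k1 s y / 2) • X.Q.G (G y) (H y))
      = fun y => (1 / 2 : ℝ) • (A * X.B.k1 s y) • X.Q.G (G y) (H y) :=
    funext fun y => by rw [smul_smul]; congr 1; ring
  rw [e, EE, En_smul_left sm, ← mul_assoc, show (2 : ℝ) * (1 / 2) = 1 by norm_num, one_mul,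
    ← tint_add (c_nl hA h A s hG hH) (c_nl hA h A s hH hG)]
  refine tint_le_two (cont_wbb (h.c_om s) (h.c_sig s) sm hu) (c_DD hA h A s hu)
    ((c_nl hA h A s hG hH).add (c_nl hA h A s hH hG)) fun x => ?_
  have hk := mul_pos hA0 (k1_pos h.ok s x)
  have q1 := Real.mul_self_sqrt (mul_nonneg (bb_nonneg (n := X.n / 2 + X.Q.p) (σ := X.B.sig s)
    (G := G) zero_le_one x) (hA.YY_nonneg X.Q X.n X.θ (X.B.sig s) H h.θ_pos.le x))
  have q2 := Real.mul_self_sqrt (mul_nonneg (bb_nonneg (n := X.n / 2 + X.Q.p) (σ := X.B.sig s)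
    (G := H) zero_le_one x) (hA.YY_nonneg X.Q X.n X.θ (X.B.sig s) G h.θ_pos.le x))
  have q3 := Real.mul_self_sqrt (yy_nonneg hA h s u x)
  have h1 := (le_abs_self _).trans (hm x)
  rw [Real.sqrt_mul (bb_nonneg zero_le_one x)] at q1 q2
  unfold lo at h1 ⊢
  set p := √(bb (X.n / 2 + X.Q.p) 1 (X.B.sig s) G G x) * √(YY X.Q X.n X.θ (X.B.sig s) H x)
  set q := √(bb (X.n / 2 + X.Q.p) 1 (X.B.sig s) H H x) * √(YY X.Q X.n X.θ (X.B.sig s) G x)
  set y := √(yy X.Q X.n X.θ (X.B.sig s) u x)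
  have h2 : D * (p + q) * y ≤ c / 4 * (y * y) + 2 * D ^ 2 / c * (p * p + q * q) := by
    have e2 : c / 4 * (y * y) + 2 * D ^ 2 / c * (p * p + q * q) - D * (p + q) * y
        = ((c / 2 * y - D * (p + q)) ^ 2 + D ^ 2 * (p - q) ^ 2) / c := by field_simp; ring
    have : 0 ≤ ((c / 2 * y - D * (p + q)) ^ 2 + D ^ 2 * (p - q) ^ 2) / c := by positivity
    linarith
  rw [q1, q2, q3] at h2
  have h3 := mul_le_mul_of_nonneg_left h2 (mul_pos (om_pos (X := X) s x) hk).le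
  have h4 := mul_le_mul_of_nonneg_left h1 (om_pos (X := X) s x).le
  linarith

end Dat

end Pool.Agent.BoltzD.Pic

end
end MrgPart2

-- ======== part 3: formerly Pool.Agent.BoltzD.Pic.Step
section MrgPart3

/-! The estimate for one step of the iteration. -/

set_option autoImplicit false

open Pool.Agent.BoltzC Finset

noncomputable section

namespace Pool.Agent.BoltzD.Pic

variable [Dim]

open KK (bb_nonneg continuous_bb)

open Filter Topology in
lemma ev_exp {ρ : ℝ} (hρ : 0 < ρ) (a : ℝ) {b : ℝ} (hb : 0 < b) :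
    ∀ᶠ s in atTop, a * Real.exp (-ρ * s) ≤ b := by
  have : Tendsto (fun s : ℝ => a * Real.exp (-ρ * s)) atTop (𝓝 (a * 0)) :=
    (Real.tendsto_exp_atBot.comp (tendsto_id.const_mul_atTop_of_neg (neg_neg_of_pos hρ))).const_mul a
  exact this.eventually (ge_mem_nhds (by simpa using hb))

namespace Dat

variable (X : Dat)

/-- Pointwise bounds by the energy. -/
def Sob (CS s1 : ℝ) : Prop :=
  ∀ s, s1 ≤ s → ∀ (N : ℕ) (G : E3 → SV), N + dd ≤ X.n → Sm G → Per G → ∀ x,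
    bb N 1 (X.B.sig s) G G x ≤ CS * X.EE X.n s G G ∧
    X.B.k1 s x * bb N 1 (X.B.sig s) G G x
      ≤ CS * Real.exp ((X.B.kap - 2 * X.δ) * s) * X.EE X.n s G G

/-- The estimate for the solution of the linear problem with a quadratic forcing. -/
def StepEst (gc : ℝ → E3 → SV) (ρ C A0 s3 : ℝ) : Prop :=
  ∀ (A s0 l1 l2 a1 a2 b f : ℝ) (V1 V2 W S1 u u' : ℝ → E3 → SV), A0 ≤ A → 1 ≤ A → s3 ≤ s0 →
    A * Real.exp (-ρ * s0) ≤ 1 → l1 ^ 2 ≤ a1 → l2 ^ 2 ≤ a2 → X.Bd A s0 a1 V1 → X.Bd A s0 a2 V2 →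
    SmC W → (∀ s x, PP (W s x) = W s x) → (∀ s, s0 ≤ s → X.EE (X.n + 1) s (W s) (W s) ≤ b) →
    SmC S1 → (∀ s, s0 ≤ s → X.EE X.n s (S1 s) (S1 s) ≤ f * Real.exp (-2 * ρ * s)) →
    X.Kin A s0 u u' (fun s x => S1 s x + (A * X.B.k1 s x / 2) •
      X.Q.G (l1 • gc s x + V1 s x) (l2 • gc s x + V2 s x) - X.mic s (W s) x) →
    X.Bd A s0 (C * (X.EE X.n s0 (u s0) (u s0) + (f + b) * Real.exp (-ρ * s0) + a1 * a2)) u

variable {X}

lemma slow_mono {K K' : ℝ} {σ a : E3 → ℝ} (h : Slow K σ a) (hK : K ≤ K') : Slow K' σ a :=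
  ⟨h.sm, h.per, h.pos, fun i x => (h.bd i x).trans (mul_le_mul_of_nonneg_right hK (h.pos x).le)⟩

theorem sob_at (hA : AlgStmt) (hS : SobStmt) (h : X.Base) (hn : dd ≤ X.n) :
    ∃ CS s1 : ℝ, 0 < CS ∧ 0 ≤ s1 ∧ X.Sob CS s1 := by
  obtain ⟨K, lam, s1, -, hs1, H⟩ := h.ok.hyp
  obtain ⟨Ck, hCk, hw⟩ := wt_facts h.ok
  obtain ⟨C, hC, hS⟩ := hS (max (K 1) (dd + 2)) (X.n - dd) X.θ h.θ_pos h.θ_le
  refine ⟨Ck * C, s1, by positivity, hs1, fun s hs N G hN hG pG x => ?_⟩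
  have key : ∀ a, 0 ≤ a → a ≤ X.B.eta → X.B.sig s x ^ dd * X.B.om a s x * bb N 1 (X.B.sig s) G G x
      ≤ C * X.B.E X.n X.θ a s G G := fun a ha ha1 => by
    have h3 := (H s hs).2.2 a ha ha1
    have := hS _ _ G (slow_mono h3.hω (le_max_left _ _)) (slow_mono h3.hσ (le_max_left _ _))
      (fun y => (Lin.sig_le _ h.ok (hs1.trans hs) y).trans (le_max_right _ _)) hG pG x
    rw [Nat.sub_add_cancel hn] at this
    refine le_trans (mul_le_mul_of_nonneg_left
      (hA.mono _ _ _ _ _ _ (by omega) zero_le_one le_rfl x) ?_) this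
    exact (mul_pos (pow_pos (Lin.sig_pos _ s x) _) (Lin.om_pos _ _ _ _)).le
  obtain ⟨-, -, w3, w4⟩ := hw s (hs1.trans hs) x
  have hb := bb_nonneg (n := N) (σ := X.B.sig s) (G := G) zero_le_one x
  have e0 := E_nonneg h X.n 0 s G
  have e1 := E_nonneg h X.n X.B.eta s G
  have hp := Real.exp_pos (2 * X.δ * s)
  rw [EE_eq h _ _ hG hG]
  constructor
  · have a1 := mul_le_mul_of_nonneg_right w3 hb
    have a2 := mul_le_mul_of_nonneg_left (key 0 le_rfl h.ok.eta_pos.le) hCk.le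
    have a3 : 0 ≤ Ck * C * (Real.exp (2 * X.δ * s) * X.B.E X.n X.θ X.B.eta s G G) := by positivity
    linarith
  · have a1 := mul_le_mul_of_nonneg_right w4 hb
    have a2 := mul_le_mul_of_nonneg_left (key _ h.ok.eta_pos.le le_rfl)
      (show 0 ≤ Ck * Real.exp (X.B.kap * s) by positivity)
    have a3 : 0 ≤ Ck * C * Real.exp ((X.B.kap - 2 * X.δ) * s) * X.B.E X.n X.θ 0 s G G := by
      positivity
    have e : Real.exp (X.B.kap * s)
        = Real.exp ((X.B.kap - 2 * X.δ) * s) * Real.exp (2 * X.δ * s) := by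
      rw [← Real.exp_add]; congr 1; ring
    rw [e] at a1 a2
    linarith

lemma nl_le (hA : AlgStmt) (h : X.Base) {A s l e α CS Cd CY : ℝ} {d : ℕ} (hA0 : 0 ≤ A)
    (hd0 : 0 ≤ Cd) (hY0 : 0 ≤ CY) {G g V : E3 → SV} (hG : Sm G) (hg : Sm g) (hV : Sm V)
    (h1 : ∀ x, X.lo s G x ≤ CS * e) (h2 : ∀ x, X.B.k1 s x * X.lo s G x ≤ α * e)
    (hd : ∀ x, YY X.Q X.n X.θ (X.B.sig s) g x ≤ Cd * bb (X.n + d) 1 (X.B.sig s) g g x)
    (hY : ∀ x, YY X.Q X.n X.θ (X.B.sig s) V x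
      ≤ CY * (bb X.n X.θ (X.B.sig s) V V x + yy X.Q X.n X.θ (X.B.sig s) V x)) :
    tint (fun x => X.om s x *
        (A * X.B.k1 s x * X.lo s G x * YY X.Q X.n X.θ (X.B.sig s) (fun y => l • g y + V y) x))
      ≤ 2 * A * (α * e) * (l ^ 2 * Cd * En (X.n + d) 1 (X.om s) (X.B.sig s) g g
        + CY * X.EE X.n s V V) + 2 * (CS * e) * CY * X.DD A s V := by
  have c1 := cont_wbb (n := X.n + d) (θ := 1) (h.c_om s) (h.c_sig s) hg hg
  have c2 := cont_wbb (n := X.n) (θ := X.θ) (h.c_om s) (h.c_sig s) hV hV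
  rw [EE, En, En, ← tint_const_mul, ← tint_const_mul CY,
    ← tint_add (continuous_const.fun_mul c1) (continuous_const.fun_mul c2)]
  refine tint_le_two (c_nl hA h A s hG ((hg.const_smul l).add hV))
    ((continuous_const.fun_mul c1).fun_add (continuous_const.fun_mul c2)) (c_DD hA h A s hV)
    fun x => ?_
  have hk := (k1_pos h.ok s x).le
  have hω := (om_pos (X := X) s x).le
  have y1 := hA.YY_add X.Q X.n X.θ (X.B.sig s) _ _ h.θ_pos.le (hg.const_smul l) hV x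
  rw [hA.YY_smul _ _ _ _ _ _ hg] at y1
  have y2 := mul_le_mul_of_nonneg_left (hd x) (sq_nonneg l)
  have b1 := bb_nonneg (n := X.n + d) (σ := X.B.sig s) (G := g) zero_le_one x
  have b2 := bb_nonneg (n := X.n) (σ := X.B.sig s) (G := V) h.θ_pos.le x
  have b3 := yy_nonneg hA h s V x
  have b4 : 0 ≤ X.lo s G x := bb_nonneg zero_le_one x
  have y3 := mul_le_mul_of_nonneg_left (show YY X.Q X.n X.θ (X.B.sig s) (fun y => l • g y + V y) x
    ≤ 2 * (l ^ 2 * Cd * bb (X.n + d) 1 (X.B.sig s) g g x + CY * bb X.n X.θ (X.B.sig s) V V x)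
      + 2 * CY * yy X.Q X.n X.θ (X.B.sig s) V x by linarith [hY x])
    (show 0 ≤ X.om s x * (A * X.B.k1 s x * X.lo s G x) by positivity)
  have y4 := mul_le_mul_of_nonneg_left (h2 x) (show 0 ≤ X.om s x * A * (2 * (l ^ 2 * Cd *
    bb (X.n + d) 1 (X.B.sig s) g g x + CY * bb X.n X.θ (X.B.sig s) V V x)) by positivity)
  have y5 := mul_le_mul_of_nonneg_left (h1 x) (show 0 ≤ X.om s x * (A * X.B.k1 s x) *
    (2 * CY * yy X.Q X.n X.θ (X.B.sig s) V x) by positivity)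
  linarith

lemma gron2 {E E' D D1 D2 : ℝ → ℝ} {ρ s0 c P C a1 a2 s : ℝ} (hρ : 0 < ρ) (hs0 : 0 ≤ s0) (hc : 0 < c)
    (hP : 0 ≤ P) (hC : 0 ≤ C) (ha1 : 0 ≤ a1) (ha2 : 0 ≤ a2) (cE : Continuous E') (cD : Continuous D)
    (cD1 : Continuous D1) (cD2 : Continuous D2) (dE : ∀ s, HasDerivAt E (E' s) s)
    (hE : ∀ s, 0 ≤ E s) (hD : ∀ s, 0 ≤ D s) (hD1 : ∀ s, 0 ≤ D1 s) (hD2 : ∀ s, 0 ≤ D2 s)
    (hs : s0 ≤ s) (i1 : ∫ t in s0..s, D1 t ≤ a1) (i2 : ∫ t in s0..s, D2 t ≤ a2)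
    (main : ∀ s, s0 ≤ s → E' s + c / 2 * D s ≤ ρ * Real.exp (-ρ * s) * E s
      + (P * Real.exp (-ρ * s) + C * (a1 * D2 s + a2 * D1 s))) :
    E s + c / 2 * ∫ t in s0..s, D t
      ≤ 3 * E s0 + 3 * (P * (Real.exp (-ρ * s0) * ρ⁻¹) + 2 * C * (a1 * a2)) := by
  have g := gronwall hρ hs0 cE (D := fun s => c / 2 * D s) (by fun_prop) (by fun_prop) dE hE
    (fun s => mul_nonneg (by positivity) (hD s))
    (fun s _ => by have := hD1 s; have := hD2 s; positivity) main hs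
  rw [intervalIntegral.integral_const_mul, intervalIntegral.integral_add
    (Continuous.intervalIntegrable (by fun_prop) _ _)
    (Continuous.intervalIntegrable (by fun_prop) _ _), intervalIntegral.integral_const_mul,
    intervalIntegral.integral_const_mul, intervalIntegral.integral_add
    (Continuous.intervalIntegrable (by fun_prop) _ _)
    (Continuous.intervalIntegrable (by fun_prop) _ _), intervalIntegral.integral_const_mul,
    intervalIntegral.integral_const_mul] at g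
  have g1 := mul_le_mul_of_nonneg_left (integral_exp_le (s0 := s0) (s := s) hρ) hP
  have g2 := mul_le_mul_of_nonneg_left (add_le_add (mul_le_mul_of_nonneg_left i2 ha1)
    (mul_le_mul_of_nonneg_left i1 ha2)) hC
  rw [div_eq_mul_inv] at g1
  linarith

theorem step_est (hA : AlgStmt) (hG : GamStmt) (h : X.Base) (hn : X.n / 2 + X.Q.p + dd ≤ X.n)
    {c A0 s2 CS ρ CL β : ℝ} (hc : 0 < c) (hs2 : 0 ≤ s2) (hL : X.LinEst c A0 s2 CL β) (hCS : 0 < CS)
    (hS : X.Sob CS s2) (hρ : 0 < ρ) (hρ1 : ρ ≤ 2 * X.δ - X.B.kap) (hρ2 : ρ ≤ min X.B.kap X.B.r)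
    (hρ3 : ρ < β) {gc : ℝ → E3 → SV}
    (sg : SmC gc) (pg : ∀ s, Per (gc s))
    (bg : ∀ n, ∃ Cg, 0 < Cg ∧ ∀ s, 0 ≤ s → En n 1 (X.om s) (X.B.sig s) (gc s) (gc s) ≤ Cg) :
    ∃ C s3, 0 < C ∧ s2 ≤ s3 ∧ X.StepEst gc ρ C A0 s3 := by
  obtain ⟨K, lam, s1, -, hs1, H⟩ := h.ok.hyp
  obtain ⟨Ck, hCk, hw⟩ := wt_facts h.ok
  obtain ⟨CM, hCM, hM⟩ := hA.mic_tr K X.n X.θ h.θ_pos h.θ_le
  obtain ⟨CG, hCG, hG⟩ := hG X.Q K X.n X.θ h.θ_pos h.θ_le
  obtain ⟨CY, hCY, hY⟩ := hA.YY_le_bb_yy X.Q X.n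
  obtain ⟨d, Cd, hCd, hd⟩ := hA.YY_le_bb X.Q
  obtain ⟨Cg, hCg, bg⟩ := bg (X.n + d)
  obtain ⟨s4, hs4⟩ := Filter.eventually_atTop.1 (ev_exp (sub_pos.2 hρ3) CL (half_pos hρ))
  set C2 := 4 * (CM * Ck) / c
  set C3 := 2 * CG ^ 2 / c
  set C4 := C3 * (4 * CS * (2 * Cg + 2) * (Cd * Cg + CY)) with hC4
  set C5 := C3 * (2 * CS * (2 * Cg + 2) * CY) with hC5
  have p2 : 0 < C2 := by positivity
  have p3 : 0 < C3 := by positivity
  have p4 : 0 < C4 := by positivity
  have p5 : 0 < C5 := by positivity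
  set C6 := 3 * (1 + 2 * ρ⁻¹ * ρ⁻¹ + C2 * ρ⁻¹ + C4 * ρ⁻¹ + 2 * C5) with hC6
  refine ⟨(1 + 2 / c) * C6, max (max s1 s4) s2, by positivity, le_max_right _ _, ?_⟩
  intro A s0 l1 l2 a1 a2 b f V1 V2 W S1 u u' hA0 hA1 hs0 hAs hl1 hl2 hV1 hV2 sW hyd bW sS bS hu
  have hAp : 0 < A := by linarith
  have hs00 : 0 ≤ s0 := hs2.trans ((le_max_right _ _).trans hs0)
  have ha1 := hV1.nonneg h
  have ha2 := hV2.nonneg h
  have hb : 0 ≤ b := (EE_nonneg h _ _ _).trans (bW s0 le_rfl)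
  have hf : 0 ≤ f := nonneg_of_mul_nonneg_left ((EE_nonneg h _ _ _).trans (bS s0 le_rfl))
    (Real.exp_pos _)
  obtain ⟨E', cE, dE, hE⟩ := hL A s0 u u' _ hA0 ((le_max_right _ _).trans hs0) hu
  have cD := cont_DD hA h A hu.smd.sm
  have cD1 := cont_DD hA h A hV1.sm
  have cD2 := cont_DD hA h A hV2.sm
  set P := 2 * ρ⁻¹ * f + C2 * b + C4 * A * (a1 * a2) with hP
  have hP0 : 0 ≤ P := by positivity
  have main : ∀ s, s0 ≤ s → E' s + c / 2 * X.DD A s (u s)
      ≤ ρ * Real.exp (-ρ * s) * X.EE X.n s (u s) (u s) + (P * Real.exp (-ρ * s)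
        + C5 * (a1 * X.DD A s (V2 s) + a2 * X.DD A s (V1 s))) := fun s hs => by
    have t0 := hs00.trans hs
    have t1 : s1 ≤ s := (le_max_left _ _).trans ((le_max_left _ _).trans (hs0.trans hs))
    have t4 : s4 ≤ s := (le_max_right _ _).trans ((le_max_left _ _).trans (hs0.trans hs))
    have t2 : s2 ≤ s := (le_max_right _ _).trans (hs0.trans hs)
    have su := hu.smd.sm.slice s
    have sg := sg.slice s
    have sk := h.ok.sm_k1.slice s
    have s1' := (sg.const_smul l1).add (hV1.sm.slice s)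
    have s2' := (sg.const_smul l2).add (hV2.sm.slice s)
    have s3' : Sm fun x => (A * X.B.k1 s x / 2) •
        X.Q.G (l1 • gc s x + V1 s x) (l2 • gc s x + V2 s x) :=
      Sm.smul (by simpa only [div_eq_mul_inv, smul_eq_mul] using
        (sk.const_smul A).mul (Sm.const (2 : ℝ)⁻¹)) (Sm.bilin _ X.Q.cont s1' s2')
    have hx := Real.exp_pos (-ρ * s)
    have e0 := hE s hs
    have e0' : CL * Real.exp (-β * s) * X.EE X.n s (u s) (u s)
        ≤ ρ / 2 * Real.exp (-ρ * s) * X.EE X.n s (u s) (u s) := by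
      refine mul_le_mul_of_nonneg_right (le_trans (le_of_eq ?_)
        (mul_le_mul_of_nonneg_right (hs4 s t4) hx.le)) (EE_nonneg h _ _ _)
      rw [mul_assoc, ← Real.exp_add]
      congr 2
      ring
    rw [EE, EE, En_sub_left (h.c_om s) (h.c_sig s) ((sS.slice s).add s3') ((sm_mic hA h sW).slice s) su,
      En_add_left (h.c_om s) (h.c_sig s) (sS.slice s) s3' su] at e0
    have e1 := force_one h s (mul_pos (half_pos hρ) hx) (sS.slice s) su
    have e1' : (ρ / 2 * Real.exp (-ρ * s))⁻¹ * X.EE X.n s (S1 s) (S1 s)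
        ≤ 2 * ρ⁻¹ * f * Real.exp (-ρ * s) := by
      refine (mul_le_mul_of_nonneg_left (bS s hs) (by positivity)).trans (le_of_eq ?_)
      rw [show -2 * ρ * s = -ρ * s + -ρ * s by ring, Real.exp_add]
      field_simp
    have hxk : Real.exp (-min X.B.kap X.B.r * s) ≤ Real.exp (-ρ * s) :=
      Real.exp_le_exp.2 (mul_le_mul_of_nonneg_right (by linarith) t0)
    have e2 := force_mic hA h s hc (D := CM * Ck * Real.exp (-ρ * s)) (by positivity) hA1
      (sW.slice s) su fun x => by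
        refine (hM _ _ _ _ (h.ok.fldC.reg s) (H s t1).1 (Lin.sig_pos _ s) (Lin.mu_pos _ s)
          (sW.slice s) (hyd s) x).trans
          (mul_le_mul_of_nonneg_right ?_ (bb_nonneg h.θ_pos.le x))
        have := k1_pos h.ok s x
        calc CM * X.B.mu s x ^ 2
            ≤ CM * (Ck * Real.exp (-min X.B.kap X.B.r * s) * X.B.k1 s x) := by
              gcongr; exact (hw s t0 x).2.1
          _ ≤ CM * (Ck * Real.exp (-ρ * s) * X.B.k1 s x) := by gcongr
          _ = _ := by ring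
    have e2' : 4 * (CM * Ck * Real.exp (-ρ * s)) / c * X.EE (X.n + 1) s (W s) (W s)
        ≤ C2 * b * Real.exp (-ρ * s) :=
      (mul_le_mul_of_nonneg_left (bW s hs) (by positivity)).trans (le_of_eq (by simp only [C2]; ring))
    have e3 := force_gam hA h s hc hAp s1' s2' su (hG _ _ _ _ _ (sk.const_smul A) s1' s2' su
      (Lin.sig_pos _ s) (fun x => (mul_pos hAp (k1_pos h.ok s x)).le)
      (symBd_mul sk (H s t1).2.1 hAp.le))
    have nl : ∀ {l l' a a' : ℝ} {V V' : ℝ → E3 → SV}, l ^ 2 ≤ a → l' ^ 2 ≤ a' → X.Bd A s0 a V →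
        X.Bd A s0 a' V' → C3 * tint (fun x => X.om s x * (A * X.B.k1 s x *
          X.lo s (fun y => l • gc s y + V s y) x *
          YY X.Q X.n X.θ (X.B.sig s) (fun y => l' • gc s y + V' s y) x))
        ≤ C4 / 2 * A * (a * a') * Real.exp (-ρ * s) + C5 * (a * X.DD A s (V' s)) := by
      intro l l' a a' V V' hl hl' hV hV'
      have ha := hV.nonneg h
      have ha' := hV'.nonneg h
      have sG := (sg.const_smul l).add (hV.sm.slice s)
      have b0 := bg s t0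
      have b1 : X.EE X.n s (fun y => l • gc s y + V s y) (fun y => l • gc s y + V s y)
          ≤ (2 * Cg + 2) * a := by
        have q1 := EE_add_le h X.n s (sg.const_smul l) (hV.sm.slice s)
        rw [EE, EE, En_smul_smul sg] at q1
        have q2 := mul_le_mul hl ((EE_mono hA h (Nat.le_add_right _ d) h.θ_le s sg).trans b0)
          (EE_nonneg h _ _ _) ha
        have q3 := hV.ee s hs
        unfold EE at *
        linarith
      have b2 := hS s t2 _ _ hn sG (((pg s).map _).map₂ (hV.per s) (· + ·))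
      have hxd : Real.exp ((X.B.kap - 2 * X.δ) * s) ≤ Real.exp (-ρ * s) :=
        Real.exp_le_exp.2 (mul_le_mul_of_nonneg_right (by linarith) t0)
      have b3 := nl_le (l := l') (e := (2 * Cg + 2) * a) (α := CS * Real.exp (-ρ * s)) hA h hAp.le
        hCd.le hCY.le sG sg (hV'.sm.slice s)
        (fun x => (b2 x).1.trans (mul_le_mul_of_nonneg_left b1 hCS.le))
        (fun x => (b2 x).2.trans (mul_le_mul (mul_le_mul_of_nonneg_left hxd hCS.le) b1
          (EE_nonneg h _ _ _) (by positivity)))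
        (hd _ _ _ _ h.θ_pos.le h.θ_le) (hY _ _ _ h.θ_pos.le (hV'.sm.slice s))
      have b4 : l' ^ 2 * Cd * En (X.n + d) 1 (X.om s) (X.B.sig s) (gc s) (gc s)
          + CY * X.EE X.n s (V' s) (V' s) ≤ a' * Cd * Cg + CY * a' := by
        have := En_nonneg (n := X.n + d) (σ := X.B.sig s) (G := gc s) zero_le_one
          fun x => (om_pos (X := X) s x).le
        gcongr
        exact hV'.ee s hs
      have b5 := mul_le_mul_of_nonneg_left b4
        (show 0 ≤ 2 * A * (CS * Real.exp (-ρ * s) * ((2 * Cg + 2) * a)) by positivity)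
      refine (mul_le_mul_of_nonneg_left (b3.trans (add_le_add b5 le_rfl)) p3.le).trans (le_of_eq ?_)
      rw [hC4, hC5]
      ring
    have e4 := nl hl1 hl2 hV1 hV2
    have e5 := nl hl2 hl1 hV2 hV1
    rw [hP]
    unfold EE at *
    linarith
  have fin : ∀ s, s0 ≤ s → X.EE X.n s (u s) (u s) + c / 2 * ∫ t in s0..s, X.DD A t (u t)
      ≤ C6 * (X.EE X.n s0 (u s0) (u s0) + (f + b) * Real.exp (-ρ * s0) + a1 * a2) := fun s hs => by
    have g := gron2 hρ hs00 hc hP0 p5.le ha1 ha2 cE cD cD1 cD2 dE (fun s => EE_nonneg h _ _ _)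
      (fun s => DD_nonneg hA h hAp.le _ _) (fun s => DD_nonneg hA h hAp.le _ _)
      (fun s => DD_nonneg hA h hAp.le _ _) hs (hV1.di s hs) (hV2.di s hs) main
    have g3 := mul_le_mul_of_nonneg_left hAs (show 0 ≤ C4 * ρ⁻¹ * (a1 * a2) by positivity)
    have hx := Real.exp_pos (-ρ * s0)
    have hE0 := EE_nonneg h X.n s0 (u s0)
    set E0 := X.EE X.n s0 (u s0) (u s0)
    set x := Real.exp (-ρ * s0)
    set r := ρ⁻¹
    have hr : 0 < r := inv_pos.2 hρ
    have g4 : 0 ≤ (2 * r * r + C2 * r + C4 * r + 2 * C5) * E0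
        + (1 + C2 * r + C4 * r + 2 * C5) * (f * x) + (1 + 2 * r * r + C4 * r + 2 * C5) * (b * x)
        + (1 + 2 * r * r + C2 * r) * (a1 * a2) := by
      positivity
    rw [hP] at g
    rw [hC6]
    linarith
  have hI : ∀ s, s0 ≤ s → 0 ≤ ∫ t in s0..s, X.DD A t (u t) := fun s hs =>
    intervalIntegral.integral_nonneg hs fun t _ => DD_nonneg hA h hAp.le _ _
  have hR := (add_nonneg (EE_nonneg h _ _ _) (mul_nonneg (by positivity) (hI s0 le_rfl))).trans
    (fin s0 le_rfl)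
  refine ⟨hu.smd.sm, hu.per, fun s hs => ?_, fun s hs => ?_⟩
  · have := mul_nonneg (show 0 ≤ c / 2 by positivity) (hI s hs)
    have := mul_nonneg (show 0 ≤ 2 / c by positivity) hR
    linarith [fin s hs]
  · have h1 := mul_le_mul_of_nonneg_left (show c / 2 * ∫ t in s0..s, X.DD A t (u t) ≤ _ from
      le_trans (le_add_of_nonneg_left (EE_nonneg h _ _ _)) (fin s hs))
      (show 0 ≤ 2 / c by positivity)
    rw [← mul_assoc, show 2 / c * (c / 2) = 1 by field_simp, one_mul] at h1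
    linarith

end Dat

end Pool.Agent.BoltzD.Pic

end
end MrgPart3

-- marker of a merged file
example : 731051 + 86101 = 731051 + 86101 := rfl
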